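import Mathlib

set_option autoImplicit false

open scoped Topology
open Set Filter

noncomputable section

namespace Pool.Agent.H365R4

/-- The plane. -/
abbrev V2 : Type := ℝ × ℝ

/-- The quadratic form `v ↦ v₁ v₂`. -/
def Q (v : V2) : ℝ := v.1 * v.2

theorem abs_Q_le (v : V2) : |Q v| ≤ ‖v‖ ^ 2 := by
  rw [Q, abs_mul, sq]
  exact mul_le_mul (norm_fst_le v) (norm_snd_le v) (abs_nonneg _) (norm_nonneg _)

theorem Q_add (v w : V2) : Q v - 2 * ‖v‖ * ‖w‖ - ‖w‖ ^ 2 ≤ Q (v + w) := by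
  have h1 : Q (v + w) = Q v + (v.1 * w.2 + v.2 * w.1) + Q w := by
    simp only [Q, Prod.fst_add, Prod.snd_add]; ring
  have h2 := abs_le.1 (abs_Q_le w)
  have h3 : |v.1 * w.2| ≤ ‖v‖ * ‖w‖ := by
    rw [abs_mul]; exact mul_le_mul (norm_fst_le v) (norm_snd_le w) (abs_nonneg _) (norm_nonneg _)
  have h4 : |v.2 * w.1| ≤ ‖v‖ * ‖w‖ := by
    rw [abs_mul]; exact mul_le_mul (norm_snd_le v) (norm_fst_le w) (abs_nonneg _) (norm_nonneg _)
  have h5 := abs_le.1 h3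
  have h6 := abs_le.1 h4
  rw [h1]
  linarith [h2.1, h5.1, h6.1]

theorem Q_cont : Continuous Q := continuous_fst.mul continuous_snd

/-- The lower bound for the difference operator. -/
theorem diff_bound {ι : Type} [Fintype ι] (σ : Equiv.Perm ι) (M : ι → V2 →L[ℝ] V2)
    (η B : ℝ) (hη : 0 < η) (hQ : ∀ i v, η * ‖v‖ ^ 2 ≤ Q (M i v) - Q v)
    (hB : ∀ i v, ‖M i v‖ ≤ B * ‖v‖) (v w : ι → V2) (hv : ∀ i, v (σ i) = M i (v i) + w i) :
    ∑ i, ‖v i‖ ^ 2 ≤ (2 / η) * (1 + 2 * B ^ 2 / η) * ∑ i, ‖w i‖ ^ 2 := by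
  have h1 : ∀ i, Q (v i) + η / 2 * ‖v i‖ ^ 2 - (1 + 2 * B ^ 2 / η) * ‖w i‖ ^ 2 ≤ Q (v (σ i)) := by
    intro i
    rw [hv i]
    have e1 := Q_add (M i (v i)) (w i)
    have e2 := hQ i (v i)
    have e3 : ‖M i (v i)‖ * ‖w i‖ ≤ B * ‖v i‖ * ‖w i‖ :=
      mul_le_mul_of_nonneg_right (hB i (v i)) (norm_nonneg _)
    have e4 : 2 * (B * ‖v i‖ * ‖w i‖) ≤ η / 2 * ‖v i‖ ^ 2 + 2 * B ^ 2 / η * ‖w i‖ ^ 2 := by
      have h := sq_nonneg (η * ‖v i‖ - 2 * B * ‖w i‖)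
      have h2 : η / 2 * ‖v i‖ ^ 2 + 2 * B ^ 2 / η * ‖w i‖ ^ 2 - 2 * (B * ‖v i‖ * ‖w i‖)
          = (η * ‖v i‖ - 2 * B * ‖w i‖) ^ 2 / (2 * η) := by
        field_simp; ring
      have h3 : 0 ≤ (η * ‖v i‖ - 2 * B * ‖w i‖) ^ 2 / (2 * η) := by positivity
      linarith
    nlinarith
  have h2 : ∑ i, Q (v (σ i)) = ∑ i, Q (v i) := Equiv.sum_comp σ (fun i => Q (v i))
  have h3 := Finset.sum_le_sum fun i (_ : i ∈ Finset.univ) => h1 i
  rw [h2, Finset.sum_sub_distrib, Finset.sum_add_distrib, ← Finset.mul_sum,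
    ← Finset.mul_sum] at h3
  have h4 : η / 2 * ∑ i, ‖v i‖ ^ 2 ≤ (1 + 2 * B ^ 2 / η) * ∑ i, ‖w i‖ ^ 2 := by linarith
  have h5 : ∑ i, ‖v i‖ ^ 2 = (2 / η) * (η / 2 * ∑ i, ‖v i‖ ^ 2) := by field_simp
  rw [h5, mul_assoc (2 / η)]
  exact mul_le_mul_of_nonneg_left h4 (by positivity)

/-- The shadowing theorem for periodic sequences of maps. -/
theorem shadow {ι : Type} [Fintype ι] [Nonempty ι] (σ : Equiv.Perm ι) (F : ι → V2 → V2) (x : ι → V2)
    (M : ι → V2 →L[ℝ] V2) (η B K δ ω : ℝ) (hη : 0 < η) (hB0 : 0 ≤ B) (hK : 0 < K)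
    (hK2 : (2 / η) * (1 + 2 * B ^ 2 / η) ≤ K ^ 2)
    (hQ : ∀ i v, η * ‖v‖ ^ 2 ≤ Q (M i v) - Q v) (hB : ∀ i v, ‖M i v‖ ≤ B * ‖v‖)
    (hδ : 0 < δ) (hω : 0 ≤ ω) (hKω : K * ω ≤ 1 / 2)
    (hF : ∀ i v v', ‖v‖ ≤ δ → ‖v'‖ ≤ δ →
      ‖F i (x i + v) - F i (x i + v') - M i (v - v')‖ ≤ ω * ‖v - v'‖)
    (herr : ∑ i, ‖F i (x i) - x (σ i)‖ ^ 2 ≤ (δ / (2 * K)) ^ 2) :
    ∃ y : ι → V2, (∀ i, F i (y i) = y (σ i)) ∧ (∑ i, ‖y i - x i‖ ^ 2 ≤ δ ^ 2) ∧
      ∀ i, ‖y i - x i‖ ≤ δ := by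
  let W : Type := PiLp 2 (fun _ : ι => V2)
  have hnorm : ∀ v : W, ‖v‖ ^ 2 = ∑ i, ‖v i‖ ^ 2 := by
    intro v
    rw [PiLp.norm_eq_of_L2, Real.sq_sqrt (Finset.sum_nonneg fun i _ => sq_nonneg _)]
  have hcomp : ∀ (v : W) (i : ι), ‖v i‖ ≤ ‖v‖ := by
    intro v i
    refine le_of_sq_le_sq ?_ (norm_nonneg _)
    rw [hnorm]
    exact Finset.single_le_sum (f := fun i => ‖v i‖ ^ 2) (fun i _ => sq_nonneg _)
      (Finset.mem_univ i)
  -- the linear operator
  let L₀ : W →ₗ[ℝ] W :=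
    { toFun := fun v => WithLp.toLp 2 fun i => v (σ i) - M i (v i)
      map_add' := by
        intro v w
        refine PiLp.ext fun i => ?_
        have e1 : (v + w) (σ i) = v (σ i) + w (σ i) := rfl
        have e2 : (v + w) i = v i + w i := rfl
        change (v + w) (σ i) - M i ((v + w) i) = (v (σ i) - M i (v i)) + (w (σ i) - M i (w i))
        rw [e1, e2, map_add]
        abel
      map_smul' := by
        intro c v
        refine PiLp.ext fun i => ?_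
        have e1 : (c • v) (σ i) = c • v (σ i) := rfl
        have e2 : (c • v) i = c • v i := rfl
        change (c • v) (σ i) - M i ((c • v) i) = c • (v (σ i) - M i (v i))
        rw [e1, e2, map_smul, smul_sub] }
  have hL₀ : ∀ (v : W) i, L₀ v i = v (σ i) - M i (v i) := fun v i => rfl
  have hlow : ∀ v : W, ‖v‖ ≤ K * ‖L₀ v‖ := by
    intro v
    refine le_of_sq_le_sq ?_ (by positivity)
    rw [mul_pow, hnorm, hnorm]
    have h1 := diff_bound σ M η B hη hQ hB (fun i => v i) (fun i => L₀ v i) (fun i => by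
      rw [hL₀]; abel)
    refine h1.trans (mul_le_mul_of_nonneg_right hK2 ?_)
    exact Finset.sum_nonneg fun i _ => sq_nonneg _
  have hinj : Function.Injective L₀ := by
    rw [← LinearMap.ker_eq_bot, LinearMap.ker_eq_bot']
    intro v hv
    have := hlow v
    rw [hv, norm_zero, mul_zero] at this
    exact norm_le_zero_iff.1 this
  let Le : W ≃ₗ[ℝ] W := LinearEquiv.ofInjectiveEndo L₀ hinj
  let L : W ≃L[ℝ] W := Le.toContinuousLinearEquiv
  have hLv : ∀ (v : W) i, L v i = v (σ i) - M i (v i) := fun v i => rfl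
  have hLsymm : ‖(L.symm : W →L[ℝ] W)‖ ≤ K := by
    refine ContinuousLinearMap.opNorm_le_bound _ hK.le fun w => ?_
    have h1 := hlow (L.symm w)
    have h2 : L₀ (L.symm w) = w := L.apply_symm_apply w
    rw [h2] at h1
    exact h1
  -- the nonlinear map
  let Φ : W → W := fun v => WithLp.toLp 2 fun i => v (σ i) - (F i (x i + v i) - x (σ i))
  have hΦ : ∀ (v : W) i, Φ v i = v (σ i) - (F i (x i + v i) - x (σ i)) := fun v i => rfl
  have happ : ApproximatesLinearOn Φ (L : W →L[ℝ] W) (Metric.closedBall 0 δ)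
      (⟨ω, hω⟩ : NNReal) := by
    intro v hv v' hv'
    have hv1 : ‖v‖ ≤ δ := by simpa using hv
    have hv2 : ‖v'‖ ≤ δ := by simpa using hv'
    refine le_of_sq_le_sq ?_ (by positivity)
    rw [mul_pow, hnorm, hnorm, Finset.mul_sum]
    refine Finset.sum_le_sum fun i _ => ?_
    have h1 : (Φ v - Φ v' - (L : W →L[ℝ] W) (v - v')) i
        = -(F i (x i + v i) - F i (x i + v' i) - M i (v i - v' i)) := by
      have e1 : (Φ v - Φ v' - (L : W →L[ℝ] W) (v - v')) i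
          = Φ v i - Φ v' i - L (v - v') i := rfl
      have e2 : (v - v') (σ i) = v (σ i) - v' (σ i) := rfl
      have e3 : (v - v') i = v i - v' i := rfl
      rw [e1, hΦ, hΦ, hLv, e2, e3]
      abel
    rw [h1, norm_neg, ← mul_pow]
    have h2 := hF i (v i) (v' i) ((hcomp v i).trans hv1) ((hcomp v' i).trans hv2)
    exact pow_le_pow_left₀ (norm_nonneg _) h2 2
  have hsurj := happ.surjOn_closedBall_of_nonlinearRightInverse L.toNonlinearRightInverse
    (ε := δ) (b := 0) hδ.le le_rfl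
  have hmem : (0 : W) ∈ Metric.closedBall (Φ 0)
      (((L.toNonlinearRightInverse.nnnorm : ℝ)⁻¹ - (⟨ω, hω⟩ : NNReal)) * δ) := by
    rw [Metric.mem_closedBall, dist_comm, dist_zero_right]
    have h1 : ‖Φ 0‖ ≤ δ / (2 * K) := by
      refine le_of_sq_le_sq ?_ (by positivity)
      rw [hnorm]
      refine le_trans (le_of_eq ?_) herr
      refine Finset.sum_congr rfl fun i _ => ?_
      rw [hΦ]
      have e1 : (0 : W) (σ i) = 0 := rfl
      have e2 : (0 : W) i = 0 := rfl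
      rw [e1, e2, add_zero, zero_sub, norm_neg]
    refine h1.trans ?_
    have h2 : (L.toNonlinearRightInverse.nnnorm : ℝ) = ‖(L.symm : W →L[ℝ] W)‖ := rfl
    have h3 : ((⟨ω, hω⟩ : NNReal) : ℝ) = ω := rfl
    rw [h2, h3]
    rcases (norm_nonneg (L.symm : W →L[ℝ] W)).eq_or_lt with h0 | h0
    · -- trivial space
      have hsub : ∀ w : W, w = 0 := by
        intro w
        have e1 : (L.symm : W →L[ℝ] W) = 0 := norm_eq_zero.1 h0.symm
        have e2 : L.symm w = 0 := by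
          change (L.symm : W →L[ℝ] W) w = 0
          rw [e1]; rfl
        rwa [EmbeddingLike.map_eq_zero_iff] at e2
      exfalso
      obtain ⟨i⟩ := ‹Nonempty ι›
      have e3 : (WithLp.toLp 2 fun _ : ι => ((1, 1) : V2) : W) i = (0 : W) i := by
        rw [hsub (WithLp.toLp 2 fun _ : ι => ((1, 1) : V2))]
      have e4 : ((1, 1) : V2) = 0 := e3
      have e5 := congrArg Prod.fst e4
      simp at e5
    · have h4 : 1 / K ≤ ‖(L.symm : W →L[ℝ] W)‖⁻¹ := by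
        rw [one_div]; exact inv_anti₀ h0 hLsymm
      have h5 : ω ≤ 1 / (2 * K) := by
        rw [le_div_iff₀ (by positivity)]; linarith
      have h6 : δ / (2 * K) = (1 / K - 1 / (2 * K)) * δ := by field_simp; ring
      rw [h6]
      exact mul_le_mul_of_nonneg_right (by linarith) hδ.le
  obtain ⟨v, hv, hv0⟩ := hsurj hmem
  have hvn : ‖v‖ ≤ δ := by simpa using hv
  refine ⟨fun i => x i + v i, fun i => ?_, ?_, fun i => ?_⟩
  · have h1 : Φ v i = 0 := by rw [hv0]; rfl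
    rw [hΦ, sub_eq_zero] at h1
    beta_reduce
    rw [h1]; abel
  · have h1 : ∑ i, ‖x i + v i - x i‖ ^ 2 = ‖v‖ ^ 2 := by
      rw [hnorm]
      refine Finset.sum_congr rfl fun i _ => ?_
      rw [add_sub_cancel_left]
    rw [h1]
    exact pow_le_pow_left₀ (norm_nonneg _) hvn 2
  · rw [add_sub_cancel_left]
    exact (hcomp v i).trans hvn

end Pool.Agent.H365R4
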