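import Mathlib
import Pool.Agent.H365R3.Star
import Pool.Agent.H365R4.Shadow

set_option autoImplicit false

open scoped Topology
open Set Filter

noncomputable section

namespace Pool.Agent.H365R4

open Pool.Agent.H365R3

theorem entries (L : V2 →L[ℝ] V2) (z : V2) : L z =
    ((L (1, 0)).1 * z.1 + (L (0, 1)).1 * z.2, (L (1, 0)).2 * z.1 + (L (0, 1)).2 * z.2) := by
  have h : z = z.1 • ((1, 0) : V2) + z.2 • ((0, 1) : V2) := by ext <;> simp
  conv_lhs => rw [h, map_add, map_smul, map_smul]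
  ext <;> simp <;> ring

/-- The elliptic case: every vector is contracted at the slowest rate. -/
theorem ell (L : V2 ≃L[ℝ] V2) (a b c d : ℝ)
    (h1 : ∀ z : V2, L z = (a * z.1 + b * z.2, c * z.1 + d * z.2)) (hc : c ≠ 0)
    (hdisc : (a - d) ^ 2 + 4 * (b * c) < 0) (v : V2) :
    ∃ C : ℝ, ∀ n : ℕ, ‖((L : V2 →L[ℝ] V2) ^ n) v‖ * ‖(L.symm : V2 →L[ℝ] V2) ^ n‖ ≤ C := by
  obtain ⟨w, hw⟩ : ∃ w, w = √(-((a - d) ^ 2 + 4 * (b * c))) / 2 := ⟨_, rfl⟩
  have hw0 : 0 < w := by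
    rw [hw]
    have := Real.sqrt_pos.2 (show 0 < -((a - d) ^ 2 + 4 * (b * c)) by linarith)
    positivity
  have hw2 : 4 * w ^ 2 = -((a - d) ^ 2 + 4 * (b * c)) := by
    rw [hw, div_pow, Real.sq_sqrt (by linarith)]; ring
  let l : ℂ := ⟨(a + d) / 2, w⟩
  let τ : V2 →L[ℝ] ℂ := (ContinuousLinearMap.fst ℝ ℝ ℝ).smulRight (c : ℂ)
    + (ContinuousLinearMap.snd ℝ ℝ ℝ).smulRight (l - a)
  have hτ : ∀ z : V2, τ z = z.1 * c + z.2 * (l - a) := by
    intro z
    change z.1 • (c : ℂ) + z.2 • (l - a) = _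
    rw [Complex.real_smul, Complex.real_smul]
  refine dom L (0 : V2 →L[ℝ] ℝ) τ (‖l‖ + 1) l 0 (by simp) ?_ ?_ ?_ ?_ v (by simp)
  · intro z
    rw [hτ, hτ, h1]
    apply Complex.ext
    · simp [l]; linear_combination (z.2 / 4) * hw2
    · simp [l]; ring
  · intro z _ hz
    rw [hτ] at hz
    have e1 := congrArg Complex.im hz
    simp [l] at e1
    have e2 : z.2 = 0 := by
      rcases e1 with h | h
      · exact h
      · exact absurd h hw0.ne'
    rw [e2] at hz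
    simp at hz
    have e3 : z.1 = 0 := by
      rcases hz with h | h
      · exact h
      · exact absurd h hc
    exact Prod.ext e3 e2
  · intro h0
    have := congrArg Complex.im h0
    simp [l] at this
    exact hw0.ne' this
  · rw [abs_of_nonneg (by positivity)]
    linarith

/-- The real case: the strongly contracted direction. -/
theorem rea (L : V2 ≃L[ℝ] V2) (a b c d : ℝ)
    (h1 : ∀ z : V2, L z = (a * z.1 + b * z.2, c * z.1 + d * z.2)) (hc : c ≠ 0)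
    (htr : 0 < a + d) (hdisc : 0 < (a - d) ^ 2 + 4 * (b * c)) : ∃ v : V2, v ≠ 0 ∧
    ∃ C : ℝ, ∀ n : ℕ, ‖((L : V2 →L[ℝ] V2) ^ n) v‖ * ‖(L.symm : V2 →L[ℝ] V2) ^ n‖ ≤ C := by
  obtain ⟨w, hw⟩ : ∃ w, w = √((a - d) ^ 2 + 4 * (b * c)) / 2 := ⟨_, rfl⟩
  have hw0 : 0 < w := by
    rw [hw]
    have := Real.sqrt_pos.2 hdisc
    positivity
  have hw2 : 4 * w ^ 2 = (a - d) ^ 2 + 4 * (b * c) := by
    rw [hw, div_pow, Real.sq_sqrt hdisc.le]; ring
  obtain ⟨m, hm⟩ : ∃ m, m = (a + d) / 2 - w := ⟨_, rfl⟩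
  obtain ⟨m', hm'⟩ : ∃ m', m' = (a + d) / 2 + w := ⟨_, rfl⟩
  have hmr : m ^ 2 - (a + d) * m + (a * d - b * c) = 0 := by rw [hm]; nlinarith
  have hmr' : m' ^ 2 - (a + d) * m' + (a * d - b * c) = 0 := by rw [hm']; nlinarith
  let s : V2 →L[ℝ] ℝ := c • ContinuousLinearMap.fst ℝ ℝ ℝ + (m' - a) • ContinuousLinearMap.snd ℝ ℝ ℝ
  let t : V2 →L[ℝ] ℝ := c • ContinuousLinearMap.fst ℝ ℝ ℝ + (m - a) • ContinuousLinearMap.snd ℝ ℝ ℝ
  have hs : ∀ z : V2, s z = c * z.1 + (m' - a) * z.2 := fun z => rfl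
  have ht : ∀ z : V2, t z = c * z.1 + (m - a) * z.2 := fun z => rfl
  have hsL : ∀ z, s (L z) = m' * s z := by
    intro z
    rw [hs, hs, h1]
    simp only
    linear_combination -z.2 * hmr'
  have htL : ∀ z, t (L z) = m * t z := by
    intro z
    rw [ht, ht, h1]
    simp only
    linear_combination -z.2 * hmr
  have hm0 : m ≠ 0 := by
    intro h0
    have e1 := htL (L.symm (1, 0))
    rw [L.apply_symm_apply, ht, h0] at e1
    simp at e1
    exact hc e1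
  let τ : V2 →L[ℝ] ℂ := Complex.ofRealCLM.comp t
  have hτ : ∀ z, τ z = (t z : ℂ) := fun z => rfl
  refine ⟨(-(m' - a), c), ?_, ?_⟩
  · intro h
    exact hc (congrArg Prod.snd h)
  · refine dom L s τ m' (m : ℂ) 0 hsL ?_ ?_ (by exact_mod_cast hm0) ?_ _ ?_
    · intro z
      rw [hτ, hτ, htL]; push_cast; ring
    · intro z hz1 hz2
      rw [hτ] at hz2
      have e2 : t z = 0 := by exact_mod_cast hz2
      rw [hs] at hz1
      rw [ht] at e2
      have e3 : 2 * w * z.2 = 0 := by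
        have : m' - m = 2 * w := by rw [hm, hm']; ring
        rw [← this]; linarith
      have e4 : z.2 = 0 := by
        rcases mul_eq_zero.1 e3 with h | h
        · linarith
        · exact h
      rw [e4, mul_zero, add_zero] at e2
      have e5 : z.1 = 0 := by
        rcases mul_eq_zero.1 e2 with h | h
        · exact absurd h hc
        · exact h
      exact Prod.ext e5 e4
    · rw [Complex.norm_real, Real.norm_eq_abs, abs_of_pos (show 0 < m' by rw [hm']; linarith),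
        abs_lt]
      constructor
      · rw [hm, hm']; linarith
      · rw [hm, hm']; linarith
    · rw [hs]; simp only; ring

/-- The alignment condition. -/
theorem align2 (L L' : V2 ≃L[ℝ] V2) (L₀ L₀' : V2 →L[ℝ] V2) (e ε : ℝ) (he : e = 1 / 643216)
    (hε : ε = 1 / 1000000000000)
    (hL₀ : ∀ z : V2, L₀ z = (e * (20000 * z.1 - 20201 * z.2), e * (19801 * z.1 - 20000 * z.2)))
    (hL₀' : ∀ z : V2, L₀' z = (e * (19801 * z.1 - 20000 * z.2), e * (20201 * z.2 - 20000 * z.1)))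
    (h : ‖(L : V2 →L[ℝ] V2) - L₀‖ ≤ ε) (h' : ‖(L' : V2 →L[ℝ] V2) - L₀'‖ ≤ ε)
    (A : V2 ≃L[ℝ] V2) : ∃ (w : V2) (C : ℝ), w ≠ 0 ∧
      (∀ n : ℕ, ‖((L' : V2 →L[ℝ] V2) ^ n) w‖ * ‖(L'.symm : V2 →L[ℝ] V2) ^ n‖ ≤ C) ∧
      ∀ n : ℕ, ‖((L : V2 →L[ℝ] V2) ^ n) (A w)‖ * ‖(L.symm : V2 →L[ℝ] V2) ^ n‖ ≤ C := by
  have n1 : ‖((1, 0) : V2)‖ = 1 := by rw [Prod.norm_def]; simp
  have n2 : ‖((0, 1) : V2)‖ = 1 := by rw [Prod.norm_def]; simp
  have key : ∀ (K K₀ : V2 →L[ℝ] V2), ‖K - K₀‖ ≤ ε → ∀ z : V2, ‖z‖ = 1 →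
      |(K z).1 - (K₀ z).1| ≤ ε ∧ |(K z).2 - (K₀ z).2| ≤ ε := by
    intro K K₀ hK z hz
    have e1 := ContinuousLinearMap.le_of_opNorm_le _ hK z
    rw [hz, mul_one] at e1
    exact ⟨(norm_fst_le ((K - K₀) z)).trans e1, (norm_snd_le ((K - K₀) z)).trans e1⟩
  obtain ⟨a1, a2⟩ := key L L₀ h (1, 0) n1
  obtain ⟨a3, a4⟩ := key L L₀ h (0, 1) n2
  obtain ⟨b1, b2⟩ := key L' L₀' h' (1, 0) n1
  obtain ⟨b3, b4⟩ := key L' L₀' h' (0, 1) n2
  have e1 := entries (L : V2 →L[ℝ] V2)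
  have e2 := entries (L' : V2 →L[ℝ] V2)
  rw [hL₀] at a1 a2 a3 a4
  rw [hL₀'] at b1 b2 b3 b4
  simp only [ContinuousLinearEquiv.coe_coe] at a1 a2 a3 a4 b1 b2 b3 b4 e1 e2
  generalize (L (1, 0)).1 = p11 at *
  generalize (L (1, 0)).2 = p21 at *
  generalize (L (0, 1)).1 = p12 at *
  generalize (L (0, 1)).2 = p22 at *
  generalize (L' (1, 0)).1 = q11 at *
  generalize (L' (1, 0)).2 = q21 at *
  generalize (L' (0, 1)).1 = q12 at *
  generalize (L' (0, 1)).2 = q22 at *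
  subst he hε
  rw [abs_le] at a1 a2 a3 a4 b1 b2 b3 b4
  norm_num at a1 a2 a3 a4 b1 b2 b3 b4
  obtain ⟨w, hw, C, hC⟩ := rea L' q11 q12 q21 q22 e2 (by intro h0; rw [h0] at b2; norm_num at b2)
    (by linarith [b1.1, b4.1]) (by
      have hneg1 : q12 < 0 := by linarith [b3.2]
      have hneg2 : q21 < 0 := by linarith [b2.2]
      have := mul_pos_of_neg_of_neg hneg1 hneg2
      nlinarith [sq_nonneg (q11 - q22)])
  obtain ⟨C', hC'⟩ := ell L p11 p12 p21 p22 e1 (by intro h0; rw [h0] at a2; norm_num at a2) (by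
      have h5 : 0 < p11 - p22 := by linarith [a1.1, a4.2]
      have h6 : p11 - p22 ≤ 40000 / 643216 + 2 / 1000000000000 := by linarith [a1.2, a4.1]
      have h7 : (p11 - p22) ^ 2 ≤ (40000 / 643216 + 2 / 1000000000000) ^ 2 :=
        pow_le_pow_left₀ h5.le h6 2
      have h8 : 20201 / 643216 - 1 / 1000000000000 ≤ -p12 := by linarith [a3.2]
      have h9 : 19801 / 643216 - 1 / 1000000000000 ≤ p21 := by linarith [a2.1]
      have h10 : (20201 / 643216 - 1 / 1000000000000) * (19801 / 643216 - 1 / 1000000000000)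
          ≤ -p12 * p21 := mul_le_mul h8 h9 (by norm_num) (by linarith)
      have h11 : ((40000 / 643216 + 2 / 1000000000000 : ℝ)) ^ 2 < 4 *
        ((20201 / 643216 - 1 / 1000000000000) * (19801 / 643216 - 1 / 1000000000000)) := by
        norm_num
      linarith) (A w)
  exact ⟨w, max C C', hw, fun n => (hC n).trans (le_max_left _ _),
    fun n => (hC' n).trans (le_max_right _ _)⟩

end Pool.Agent.H365R4
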