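import Mathlib
import Pool.Agent.H365R4.Shadow

set_option autoImplicit false

open scoped Topology
open Set Filter

noncomputable section

namespace Pool.Agent.H365R4

/-- Bounded sequences decay exponentially. -/
theorem q_decay (q : V2 → ℝ) (hq : ∀ v, |q v| ≤ ‖v‖ ^ 2) {η : ℝ} (hη : 0 < η) (hη1 : η ≤ 1)
    (v : ℕ → V2) (h : ∀ n, η * ‖v n‖ ^ 2 ≤ q (v (n + 1)) - q (v n)) {B : ℝ}
    (hB : ∀ n, ‖v n‖ ≤ B) :
    (∀ n, η * ‖v n‖ ^ 2 ≤ (1 - η) ^ n * ‖v 0‖ ^ 2) ∧ q (v 0) ≤ -(η * ‖v 0‖ ^ 2) := by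
  have hneg : ∀ m, q (v m) ≤ 0 := by
    intro m
    by_contra hcon
    push Not at hcon
    have h1 : ∀ k : ℕ, q (v m) + k * (η * q (v m)) ≤ q (v (m + k)) := by
      intro k
      induction k with
      | zero => simp
      | succ k ih =>
        have h2 := h (m + k)
        have h3 : q (v m) ≤ q (v (m + k)) := by
          have : 0 ≤ (k : ℝ) * (η * q (v m)) := by positivity
          linarith
        have h4 := (le_abs_self _).trans (hq (v (m + k)))
        have h5 : η * q (v m) ≤ η * ‖v (m + k)‖ ^ 2 :=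
          mul_le_mul_of_nonneg_left (h3.trans h4) hη.le
        rw [← add_assoc]
        push_cast
        linarith
    obtain ⟨k, hk⟩ := exists_nat_gt (B ^ 2 / (η * q (v m)))
    have h6 := h1 k
    have h7 := (le_abs_self _).trans (hq (v (m + k)))
    have h8 : ‖v (m + k)‖ ^ 2 ≤ B ^ 2 := pow_le_pow_left₀ (norm_nonneg _) (hB _) 2
    rw [div_lt_iff₀ (by positivity)] at hk
    linarith
  have hr : ∀ n, -q (v n) ≤ (1 - η) ^ n * ‖v 0‖ ^ 2 := by
    intro n
    induction n with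
    | zero =>
      rw [pow_zero, one_mul]
      exact (neg_le_abs _).trans (hq _)
    | succ n ih =>
      have h1 := h n
      have h2 : -q (v n) ≤ ‖v n‖ ^ 2 := (neg_le_abs _).trans (hq _)
      have h3 : η * -q (v n) ≤ η * ‖v n‖ ^ 2 := mul_le_mul_of_nonneg_left h2 hη.le
      have h4 : (1 - η) * -q (v n) ≤ (1 - η) * ((1 - η) ^ n * ‖v 0‖ ^ 2) :=
        mul_le_mul_of_nonneg_left ih (by linarith)
      calc -q (v (n + 1)) ≤ (1 - η) * -q (v n) := by linarith
        _ ≤ (1 - η) * ((1 - η) ^ n * ‖v 0‖ ^ 2) := h4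
        _ = (1 - η) ^ (n + 1) * ‖v 0‖ ^ 2 := by ring
  refine ⟨fun n => ?_, ?_⟩
  · have h1 := h n
    have h2 := hneg (n + 1)
    have h3 := hr n
    linarith
  · have h1 := h 0
    have h2 := hneg (0 + 1)
    linarith

/-- Nonzero bounded sequences exist. -/
theorem q_exists (q : V2 → ℝ) (hqc : Continuous q) (hqh : ∀ (c : ℝ) v, q (c • v) = c ^ 2 * q v)
    (hq : ∀ v, |q v| ≤ ‖v‖ ^ 2) {η : ℝ} (hη : 0 < η) (w : V2) (hw : w ≠ 0) (hqw : q w ≤ 0)
    (P : ℕ → (V2 →L[ℝ] V2)) (hs : ∀ n, Function.Surjective (P n))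
    (h : ∀ n v, η * ‖P n v‖ ^ 2 ≤ q (P (n + 1) v) - q (P n v)) :
    ∃ v : V2, v ≠ 0 ∧ ∃ B, ∀ n, ‖P n v‖ ≤ B := by
  let K : ℕ → Set V2 := fun n => {v | ‖v‖ = 1 ∧ q (P n v) ≤ 0}
  have hmono : ∀ n v, q (P n v) ≤ q (P (n + 1) v) := by
    intro n v
    have h1 := h n v
    have h2 : 0 ≤ η * ‖P n v‖ ^ 2 := by positivity
    linarith
  have hne : (⋂ n, K n).Nonempty := by
    refine IsCompact.nonempty_iInter_of_sequence_nonempty_isCompact_isClosed K ?_ ?_ ?_ ?_
    · rintro n v ⟨h1, h2⟩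
      exact ⟨h1, (hmono n v).trans h2⟩
    · intro n
      obtain ⟨u, hu⟩ := hs n w
      have hu0 : u ≠ 0 := by
        rintro rfl
        rw [map_zero] at hu
        exact hw hu.symm
      have hun : ‖u‖ ≠ 0 := norm_ne_zero_iff.2 hu0
      refine ⟨‖u‖⁻¹ • u, ?_, ?_⟩
      · rw [norm_smul, norm_inv, norm_norm, inv_mul_cancel₀ hun]
      · rw [map_smul, hu, hqh]
        exact mul_nonpos_of_nonneg_of_nonpos (sq_nonneg _) hqw
    · have h1 : K 0 ⊆ Metric.sphere (0 : V2) 1 := by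
        rintro v ⟨h1, -⟩
        simpa using h1
      refine (isCompact_sphere (0 : V2) 1).of_isClosed_subset ?_ h1
      exact (isClosed_eq continuous_norm continuous_const).inter
        (isClosed_le (hqc.comp (P 0).continuous) continuous_const)
    · intro n
      exact (isClosed_eq continuous_norm continuous_const).inter
        (isClosed_le (hqc.comp (P n).continuous) continuous_const)
  obtain ⟨v, hv⟩ := hne
  rw [mem_iInter] at hv
  have hv0 : v ≠ 0 := by
    rintro rfl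
    have := (hv 0).1
    rw [norm_zero] at this
    exact zero_ne_one this
  have h0 : ∀ n, q (P 0 v) ≤ q (P n v) := by
    intro n
    induction n with
    | zero => exact le_rfl
    | succ n ih => exact ih.trans (hmono n v)
  refine ⟨v, hv0, ‖P 0 v‖ ^ 2 / η + 1, fun n => ?_⟩
  have h1 := h n v
  have h2 := (hv (n + 1)).2
  have h3 := h0 n
  have h4 := (neg_le_abs _).trans (hq (P 0 v))
  have h5 : ‖P n v‖ ^ 2 ≤ ‖P 0 v‖ ^ 2 / η := by
    rw [le_div_iff₀ hη]; linarith
  nlinarith [sq_nonneg (‖P n v‖ - 1), norm_nonneg (P n v)]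

end Pool.Agent.H365R4
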