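import Mathlib
import Pool.Agent.H365R3.TorusE
import Pool.Agent.H365R4.Shadow

set_option autoImplicit false

open scoped Manifold ContDiff Topology
open Set Filter Bundle

noncomputable section

namespace Pool.Agent.H365R4

open Pool.Agent.H365R3

/-- The two-dimensional torus. -/
abbrev T2 : Type := Circle × Circle

/-- The model with corners of the torus. -/
abbrev I2 := (𝓡 1).prod (𝓡 1)

/-- The covering map. -/
def E2 (z : V2) : T2 := (Circle.exp (2 * Real.pi * z.1), Circle.exp (2 * Real.pi * z.2))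

/-- A section of the covering map. -/
def S2 (X : T2) : V2 :=
  (Complex.arg (X.1 : ℂ) / (2 * Real.pi), Complex.arg (X.2 : ℂ) / (2 * Real.pi))

theorem tp_pos : 0 < 2 * Real.pi := by positivity

theorem tp_ne : 2 * Real.pi ≠ 0 := tp_pos.ne'

theorem E2_S2 (X : T2) : E2 (S2 X) = X := by
  simp only [E2, S2, mul_div_cancel₀ _ tp_ne, Circle.exp_arg]

theorem E2_surj (X : T2) : ∃ z, E2 z = X := ⟨S2 X, E2_S2 X⟩

theorem E2_add (z w : V2) : E2 (z + w) = E2 z * E2 w := by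
  simp only [E2, Prod.fst_add, Prod.snd_add, mul_add, Circle.exp_add]; rfl

/-- Integer vectors. -/
def ofZ (k : ℤ × ℤ) : V2 := ((k.1 : ℝ), (k.2 : ℝ))

theorem E2_eq_iff (z z' : V2) : E2 z = E2 z' ↔ ∃ k, z = z' + ofZ k := by
  constructor
  · intro h
    simp only [E2, Prod.mk.injEq, Circle.exp_eq_exp] at h
    obtain ⟨⟨a, ha⟩, ⟨b, hb⟩⟩ := h
    refine ⟨(a, b), ?_⟩
    have ha' : 2 * Real.pi * z.1 = 2 * Real.pi * (z'.1 + a) := by rw [ha]; ring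
    have hb' : 2 * Real.pi * z.2 = 2 * Real.pi * (z'.2 + b) := by rw [hb]; ring
    exact Prod.ext (mul_left_cancel₀ tp_ne ha') (mul_left_cancel₀ tp_ne hb')
  · rintro ⟨k, rfl⟩
    simp only [E2, Prod.mk.injEq, Circle.exp_eq_exp]
    exact ⟨⟨k.1, by simp only [ofZ, Prod.fst_add]; ring⟩,
      ⟨k.2, by simp only [ofZ, Prod.snd_add]; ring⟩⟩

theorem E2_ofZ (z : V2) (k : ℤ × ℤ) : E2 (z + ofZ k) = E2 z := (E2_eq_iff _ _).2 ⟨k, rfl⟩

theorem E2_smooth {m : WithTop ℕ∞} : ContMDiff 𝓘(ℝ, V2) I2 m E2 := by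
  have h1 : ContMDiff 𝓘(ℝ, V2) (𝓡 1) m (fun z : V2 => Circle.exp (2 * Real.pi * z.1)) :=
    contMDiff_circleExp.comp (contDiff_const.mul contDiff_fst).contMDiff
  have h2 : ContMDiff 𝓘(ℝ, V2) (𝓡 1) m (fun z : V2 => Circle.exp (2 * Real.pi * z.2)) :=
    contMDiff_circleExp.comp (contDiff_const.mul contDiff_snd).contMDiff
  exact h1.prodMk h2

theorem E2_cont : Continuous E2 := (E2_smooth (m := 0)).continuous

theorem abs_lt_pi {x : ℝ} (h : |x| < 1 / 2) : |2 * Real.pi * x| < Real.pi := by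
  rw [abs_mul, abs_of_pos tp_pos]
  have := Real.pi_pos
  nlinarith

/-- The chart of the torus centred at `E2 t`. -/
def cht2 (t : V2) : Cht I2 T2 V2 where
  src := dom1 (2 * Real.pi * t.1) ×ˢ dom1 (2 * Real.pi * t.2)
  tgt := {z | |z.1| < 1 / 2 ∧ |z.2| < 1 / 2}
  φ X := (ag (2 * Real.pi * t.1) X.1 / (2 * Real.pi), ag (2 * Real.pi * t.2) X.2 / (2 * Real.pi))
  ψ z := E2 (t + z)
  open_src := (isOpen_dom1 _).prod (isOpen_dom1 _)
  open_tgt := (isOpen_lt (continuous_abs.comp continuous_fst) continuous_const).inter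
    (isOpen_lt (continuous_abs.comp continuous_snd) continuous_const)
  φ_mem X hX := by
    have hp := Real.pi_pos
    constructor
    · change |ag (2 * Real.pi * t.1) X.1 / (2 * Real.pi)| < 1 / 2
      rw [abs_div, abs_of_pos tp_pos, div_lt_iff₀ tp_pos]
      have := ag_lt hX.1
      linarith
    · change |ag (2 * Real.pi * t.2) X.2 / (2 * Real.pi)| < 1 / 2
      rw [abs_div, abs_of_pos tp_pos, div_lt_iff₀ tp_pos]
      have := ag_lt hX.2
      linarith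
  ψ_mem z hz := by
    constructor
    · change Circle.exp (2 * Real.pi * (t.1 + z.1)) ∈ dom1 (2 * Real.pi * t.1)
      rw [mul_add]; exact exp_mem_dom1 (abs_lt_pi hz.1)
    · change Circle.exp (2 * Real.pi * (t.2 + z.2)) ∈ dom1 (2 * Real.pi * t.2)
      rw [mul_add]; exact exp_mem_dom1 (abs_lt_pi hz.2)
  ψφ X _ := by
    simp only [E2, Prod.fst_add, Prod.snd_add, mul_add, mul_div_cancel₀ _ tp_ne, exp_ag]
  φψ z hz := by
    simp only [E2, Prod.fst_add, Prod.snd_add, mul_add, ag_exp (abs_lt_pi hz.1),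
      ag_exp (abs_lt_pi hz.2), mul_div_cancel_left₀ _ tp_ne]
  smooth_φ := by
    have h1 : ContMDiffOn I2 𝓘(ℝ, ℝ) 1 (fun X : T2 => ag (2 * Real.pi * t.1) X.1)
        (dom1 (2 * Real.pi * t.1) ×ˢ dom1 (2 * Real.pi * t.2)) :=
      (ag_smooth (2 * Real.pi * t.1)).comp contMDiffOn_fst fun X hX => hX.1
    have h2 : ContMDiffOn I2 𝓘(ℝ, ℝ) 1 (fun X : T2 => ag (2 * Real.pi * t.2) X.2)
        (dom1 (2 * Real.pi * t.1) ×ˢ dom1 (2 * Real.pi * t.2)) :=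
      (ag_smooth (2 * Real.pi * t.2)).comp contMDiffOn_snd fun X hX => hX.2
    have h3 : ContMDiff 𝓘(ℝ, ℝ) 𝓘(ℝ, ℝ) 1 (fun x : ℝ => x / (2 * Real.pi)) :=
      (contDiff_id.div_const _).contMDiff
    exact (h3.comp_contMDiffOn h1).prodMk_space (h3.comp_contMDiffOn h2)
  smooth_ψ := by
    have h1 : ContMDiff 𝓘(ℝ, V2) 𝓘(ℝ, V2) 1 (fun z : V2 => t + z) :=
      (contDiff_const.add contDiff_id).contMDiff
    exact (E2_smooth.comp h1).contMDiffOn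

theorem cht2_φ (t : V2) (X : T2) : E2 (t + (cht2 t).φ X) = X := by
  change E2 (t + (ag (2 * Real.pi * t.1) X.1 / (2 * Real.pi),
    ag (2 * Real.pi * t.2) X.2 / (2 * Real.pi))) = X
  simp only [E2, Prod.fst_add, Prod.snd_add, mul_add, mul_div_cancel₀ _ tp_ne, exp_ag]

theorem ψ2_eq (t z : V2) : (cht2 t).ψ z = E2 (t + z) := rfl

theorem ψ2_zero (t : V2) : (cht2 t).ψ 0 = E2 t := by rw [ψ2_eq, add_zero]

theorem zero_mem_tgt2 (t : V2) : (0 : V2) ∈ (cht2 t).tgt := by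
  constructor <;> norm_num

theorem mem_src2 (t : V2) : E2 t ∈ (cht2 t).src := by
  rw [← ψ2_zero]; exact (cht2 t).ψ_mem 0 (zero_mem_tgt2 t)

theorem φ2_zero (t : V2) : (cht2 t).φ (E2 t) = 0 := by
  rw [← ψ2_zero]; exact (cht2 t).φψ 0 (zero_mem_tgt2 t)

theorem mem_tgt2_of_norm (t : V2) {z : V2} (hz : ‖z‖ < 1 / 2) : z ∈ (cht2 t).tgt :=
  ⟨(norm_fst_le z).trans_lt hz, (norm_snd_le z).trans_lt hz⟩

theorem expr2_of (t t' z u : V2) (g : T2 → T2) (hg : g (E2 (t + z)) = E2 (t' + u))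
    (hu : u ∈ (cht2 t').tgt) :
    g ((cht2 t).ψ z) ∈ (cht2 t').src ∧ (cht2 t').φ (g ((cht2 t).ψ z)) = u := by
  rw [ψ2_eq, hg]
  exact ⟨(cht2 t').ψ_mem u hu, (cht2 t').φψ u hu⟩

/-- The covering map is open. -/
theorem E2_open (t : V2) {ε : ℝ} (hε : 0 < ε) : {Y | ∃ y, E2 y = Y ∧ ‖y - t‖ < ε} ∈ 𝓝 (E2 t) := by
  have h1 : ContinuousAt (cht2 t).φ (E2 t) := ((cht2 t).φ_at (mem_src2 t)).continuousAt
  have h2 : Metric.ball (0 : V2) ε ∈ 𝓝 ((cht2 t).φ (E2 t)) := by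
    rw [φ2_zero]; exact Metric.ball_mem_nhds _ hε
  filter_upwards [h1 h2] with Y hY
  refine ⟨t + (cht2 t).φ Y, cht2_φ t Y, ?_⟩
  rw [add_sub_cancel_left]
  simpa using hY

/-- Maps with `C¹` lifts are `C¹`. -/
theorem smooth_of_lift2 (h : T2 → T2) (g : V2 → V2) (hg : ContDiff ℝ 1 g)
    (hlift : ∀ z, h (E2 z) = E2 (g z)) : ContMDiff I2 I2 1 h := by
  intro X
  let t := S2 X
  have hXs : X ∈ (cht2 t).src := by
    have := mem_src2 t
    rwa [E2_S2] at this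
  have h1 : h = fun Y => E2 (g (t + (cht2 t).φ Y)) := by
    funext Y
    rw [← hlift, cht2_φ]
  rw [h1]
  have h2 : ContMDiffAt I2 𝓘(ℝ, V2) 1 (cht2 t).φ X := (cht2 t).φ_at hXs
  have h3 : ContMDiff 𝓘(ℝ, V2) 𝓘(ℝ, V2) 1 (fun z => g (t + z)) :=
    (hg.comp (contDiff_const.add contDiff_id)).contMDiff
  exact (E2_smooth.comp h3).contMDiffAt.comp X h2

/-- A diffeomorphism of the torus from a diffeomorphism of the universal cover. -/
def ofLift2 (g : V2 ≃ V2) (h1 : ContDiff ℝ 1 g) (h2 : ContDiff ℝ 1 g.symm)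
    (e1 : ∀ z z', E2 z = E2 z' → E2 (g z) = E2 (g z'))
    (e2 : ∀ z z', E2 z = E2 z' → E2 (g.symm z) = E2 (g.symm z')) : T2 ≃ₘ^1⟮I2, I2⟯ T2 where
  toFun X := E2 (g (S2 X))
  invFun X := E2 (g.symm (S2 X))
  left_inv X := by
    have : E2 (g.symm (S2 (E2 (g (S2 X))))) = E2 (g.symm (g (S2 X))) :=
      e2 _ _ (E2_S2 _)
    beta_reduce
    rw [this, g.symm_apply_apply, E2_S2]
  right_inv X := by
    have : E2 (g (S2 (E2 (g.symm (S2 X))))) = E2 (g (g.symm (S2 X))) :=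
      e1 _ _ (E2_S2 _)
    beta_reduce
    rw [this, g.apply_symm_apply, E2_S2]
  contMDiff_toFun := smooth_of_lift2 _ g h1 fun z => e1 _ _ (E2_S2 _)
  contMDiff_invFun := smooth_of_lift2 _ g.symm h2 fun z => e2 _ _ (E2_S2 _)

theorem ofLift2_E2 (g : V2 ≃ V2) (h1 : ContDiff ℝ 1 g) (h2 : ContDiff ℝ 1 g.symm)
    (e1 : ∀ z z', E2 z = E2 z' → E2 (g z) = E2 (g z'))
    (e2 : ∀ z z', E2 z = E2 z' → E2 (g.symm z) = E2 (g.symm z')) (z : V2) :
    ofLift2 g h1 h2 e1 e2 (E2 z) = E2 (g z) := e1 _ _ (E2_S2 _)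

/-- The tangent vector of the torus at `E2 t` represented by `v`. -/
def τ (t v : V2) : TangentBundle I2 T2 := ⟨E2 t, mfderiv 𝓘(ℝ, V2) I2 E2 t v⟩

theorem τ_proj (t v : V2) : (τ t v).1 = E2 t := rfl

theorem mdiff_E2 (t : V2) : MDifferentiableAt 𝓘(ℝ, V2) I2 E2 t :=
  (E2_smooth (m := 1)).mdifferentiable one_ne_zero t

theorem τ_map (f : T2 → T2) (g : V2 → V2) (t v : V2) (hf : MDifferentiableAt I2 I2 f (E2 t))
    (hg : DifferentiableAt ℝ g t) (h : ∀ z, f (E2 z) = E2 (g z)) :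
    tangentMap I2 I2 f (τ t v) = τ (g t) (fderiv ℝ g t v) := by
  have h1 : f ∘ E2 = E2 ∘ g := funext h
  have h2 : tangentMap 𝓘(ℝ, V2) I2 (f ∘ E2) (⟨t, v⟩ : TangentBundle 𝓘(ℝ, V2) V2)
      = tangentMap 𝓘(ℝ, V2) I2 (E2 ∘ g) ⟨t, v⟩ := by rw [h1]
  rw [tangentMap_comp_at (⟨t, v⟩ : TangentBundle 𝓘(ℝ, V2) V2) (I' := I2) hf (mdiff_E2 t),
    tangentMap_comp_at (⟨t, v⟩ : TangentBundle 𝓘(ℝ, V2) V2) (I' := 𝓘(ℝ, V2)) (mdiff_E2 (g t))
      hg.mdifferentiableAt] at h2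
  have h3 : tangentMap 𝓘(ℝ, V2) 𝓘(ℝ, V2) g (⟨t, v⟩ : TangentBundle 𝓘(ℝ, V2) V2)
      = ⟨g t, fderiv ℝ g t v⟩ := by
    rw [tangentMap, mfderiv_eq_fderiv]
    rfl
  rw [h3] at h2
  exact h2

theorem τ_ofZ (t v : V2) (k : ℤ × ℤ) : τ (t + ofZ k) v = τ t v := by
  have h := τ_map id (fun z => z + ofZ k) t v mdifferentiableAt_id
    (differentiableAt_id.add_const _) (fun z => (E2_ofZ z k).symm)
  rw [tangentMap_id, fderiv_add_const, fderiv_fun_id] at h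
  exact h.symm

theorem τ_dψ (t v : V2) : (cht2 t).dψ (0, v) = τ t v := by
  have h2 : tangentMap 𝓘(ℝ, V2) I2 (E2 ∘ fun z => t + z) (⟨0, v⟩ : TangentBundle 𝓘(ℝ, V2) V2)
      = τ t v := by
    rw [tangentMap_comp_at (⟨0, v⟩ : TangentBundle 𝓘(ℝ, V2) V2) (I' := 𝓘(ℝ, V2))
      (mdiff_E2 (t + 0)) (differentiableAt_id.const_add t).mdifferentiableAt]
    have h3 : tangentMap 𝓘(ℝ, V2) 𝓘(ℝ, V2) (fun z => t + z)
        (⟨0, v⟩ : TangentBundle 𝓘(ℝ, V2) V2) = ⟨t, v⟩ := by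
      rw [tangentMap, mfderiv_eq_fderiv, fderiv_const_add, fderiv_fun_id]
      change (⟨t + 0, v⟩ : TangentBundle 𝓘(ℝ, V2) V2) = ⟨t, v⟩
      rw [add_zero]
    rw [h3]; rfl
  exact h2

theorem τ_surj (z : TangentBundle I2 T2) (t : V2) (ht : E2 t = z.1) : ∃ v, z = τ t v := by
  have hz : z.1 ∈ (cht2 t).src := by rw [← ht]; exact mem_src2 t
  have h1 := (cht2 t).dψ_dφ z hz
  refine ⟨((cht2 t).dφ z).2, ?_⟩
  rw [← τ_dψ]
  conv_lhs => rw [← h1]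
  congr 1
  refine Prod.ext ?_ rfl
  change (cht2 t).φ z.1 = 0
  rw [← ht, φ2_zero]

theorem τ_inj (t : V2) {v w : V2} (h : τ t v = τ t w) : v = w := by
  rw [← τ_dψ, ← τ_dψ] at h
  have h1 := congrArg (cht2 t).dφ h
  rw [(cht2 t).dφ_dψ (0, v) (zero_mem_tgt2 t), (cht2 t).dφ_dψ (0, w) (zero_mem_tgt2 t)] at h1
  exact congrArg Prod.snd h1

/-! ### A fibre norm on the torus -/

/-- The inclusion of the torus. -/
def inc2 (X : T2) : ℂ × ℂ := ((X.1 : ℂ), (X.2 : ℂ))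

theorem inc2_smooth : ContMDiff I2 𝓘(ℝ, ℂ × ℂ) 1 inc2 := by
  have h1 : ContMDiff I2 𝓘(ℝ, ℂ) 1 (fun X : T2 => (X.1 : ℂ)) := contMDiff_coeC.comp contMDiff_fst
  have h2 : ContMDiff I2 𝓘(ℝ, ℂ) 1 (fun X : T2 => (X.2 : ℂ)) := contMDiff_coeC.comp contMDiff_snd
  exact h1.prodMk_space h2

/-- The model vector space. -/
abbrev EE2 : Type := EuclideanSpace ℝ (Fin 1) × EuclideanSpace ℝ (Fin 1)

/-- The derivative of the inclusion. -/
def incD2 (X : T2) : EE2 →L[ℝ] ℂ × ℂ := mfderiv I2 𝓘(ℝ, ℂ × ℂ) inc2 X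

/-- The fibre norm. -/
def NN2 (z : TangentBundle I2 T2) : ℝ := ‖incD2 z.1 z.2‖

theorem NN2_continuous : Continuous NN2 := by
  have h1 : Continuous (tangentMap I2 𝓘(ℝ, ℂ × ℂ) inc2) := inc2_smooth.continuous_tangentMap le_rfl
  have h2 : Continuous (fun z => ((tangentBundleModelSpaceHomeomorph 𝓘(ℝ, ℂ × ℂ))
      (tangentMap I2 𝓘(ℝ, ℂ × ℂ) inc2 z))) :=
    (tangentBundleModelSpaceHomeomorph 𝓘(ℝ, ℂ × ℂ)).continuous.comp h1
  exact (continuous_snd.comp h2).norm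

theorem inc2_E2 (z : V2) : inc2 (E2 z) = (Complex.exp ((2 * Real.pi * z.1 : ℝ) * Complex.I),
    Complex.exp ((2 * Real.pi * z.2 : ℝ) * Complex.I)) := by
  simp only [inc2, E2, Circle.coe_exp]

theorem exp_deriv (x : ℝ) : HasDerivAt (fun x : ℝ => Complex.exp ((2 * Real.pi * x : ℝ) * Complex.I))
    (Complex.exp ((2 * Real.pi * x : ℝ) * Complex.I) * ((2 * Real.pi : ℝ) * Complex.I)) x := by
  have h1 : HasDerivAt (fun x : ℝ => 2 * Real.pi * x) (2 * Real.pi) x := by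
    simpa using (hasDerivAt_id x).const_mul (2 * Real.pi)
  have h2 : HasDerivAt (fun x : ℝ => ((2 * Real.pi * x : ℝ) : ℂ)) ((2 * Real.pi : ℝ) : ℂ) x :=
    h1.ofReal_comp
  exact (h2.mul_const Complex.I).cexp

theorem NN2_τ (t v : V2) : NN2 (τ t v) = 2 * Real.pi * ‖v‖ := by
  have h1 : incD2 (τ t v).1 (τ t v).2 = fderiv ℝ (inc2 ∘ E2) t v := by
    rw [← mfderiv_eq_fderiv, mfderiv_comp t (I' := I2) (inc2_smooth.mdifferentiable one_ne_zero _)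
      (mdiff_E2 t)]
    rfl
  have h2 : inc2 ∘ E2 = fun z : V2 => (Complex.exp ((2 * Real.pi * z.1 : ℝ) * Complex.I),
      Complex.exp ((2 * Real.pi * z.2 : ℝ) * Complex.I)) := funext inc2_E2
  have h3 : HasFDerivAt (inc2 ∘ E2)
      ((((ContinuousLinearMap.fst ℝ ℝ ℝ).smulRight (Complex.exp ((2 * Real.pi * t.1 : ℝ) * Complex.I)
        * ((2 * Real.pi : ℝ) * Complex.I)))).prod
      (((ContinuousLinearMap.snd ℝ ℝ ℝ).smulRight (Complex.exp ((2 * Real.pi * t.2 : ℝ) * Complex.I)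
        * ((2 * Real.pi : ℝ) * Complex.I))))) t := by
    rw [h2]
    refine HasFDerivAt.prodMk ?_ ?_
    · have := (exp_deriv t.1).hasFDerivAt.comp t (hasFDerivAt_fst (𝕜 := ℝ) (E := ℝ) (F := ℝ))
      refine this.congr_fderiv ?_
      ext <;> simp
    · have := (exp_deriv t.2).hasFDerivAt.comp t (hasFDerivAt_snd (𝕜 := ℝ) (E := ℝ) (F := ℝ))
      refine this.congr_fderiv ?_
      ext <;> simp
  rw [NN2, h1, h3.fderiv]
  have h4 : ∀ (x y : ℝ), ‖x • (Complex.exp ((2 * Real.pi * y : ℝ) * Complex.I)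
        * ((2 * Real.pi : ℝ) * Complex.I))‖ = 2 * Real.pi * |x| := by
    intro x y
    rw [norm_smul, norm_mul, norm_mul, Complex.norm_exp_ofReal_mul_I, Complex.norm_I, mul_one,
      one_mul, Complex.norm_real, Real.norm_eq_abs, Real.norm_eq_abs, abs_of_pos tp_pos, mul_comm]
  change ‖(v.1 • (Complex.exp ((2 * Real.pi * t.1 : ℝ) * Complex.I)
        * ((2 * Real.pi : ℝ) * Complex.I)), v.2 • (Complex.exp ((2 * Real.pi * t.2 : ℝ) * Complex.I)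
        * ((2 * Real.pi : ℝ) * Complex.I)))‖ = _
  rw [Prod.norm_def, h4, h4, Prod.norm_def, Real.norm_eq_abs, Real.norm_eq_abs,
    mul_max_of_nonneg _ _ tp_pos.le]

theorem inc2_inj (X : T2) (v : TangentSpace I2 X) (h : NN2 ⟨X, v⟩ = 0) : v = 0 := by
  obtain ⟨t, rfl⟩ := E2_surj X
  obtain ⟨w, hw⟩ := τ_surj ⟨E2 t, v⟩ t rfl
  rw [hw, NN2_τ] at h
  have h1 : w = 0 := by
    rcases mul_eq_zero.1 h with h | h
    · exact absurd h tp_ne
    · exact norm_eq_zero.1 h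
  rw [h1] at hw
  have h2 : v = mfderiv 𝓘(ℝ, V2) I2 E2 t 0 := TotalSpace.mk_inj.1 hw
  rw [h2]; exact map_zero (mfderiv 𝓘(ℝ, V2) I2 E2 t)

theorem NN2_norm : IsFibreNorm (M := T2) NN2 where
  continuous := NN2_continuous
  pos x v hv := (norm_nonneg _).lt_of_ne fun h => hv (inc2_inj x v h.symm)
  smul x a v := by
    have h1 : incD2 x (a • v) = a • incD2 x v := (incD2 x).map_smul a v
    change ‖incD2 x (a • v)‖ = |a| * ‖incD2 x v‖
    rw [h1, norm_smul, Real.norm_eq_abs]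
  add x v w := by
    have h1 : incD2 x (v + w) = incD2 x v + incD2 x w := (incD2 x).map_add v w
    change ‖incD2 x (v + w)‖ ≤ ‖incD2 x v‖ + ‖incD2 x w‖
    rw [h1]
    exact norm_add_le _ _

end Pool.Agent.H365R4
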