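import Mathlib
import Pool.Agent.H365R3.Good
import Pool.Agent.H365R4.Torus2
import Pool.Agent.H365R4.Split

set_option autoImplicit false

open scoped Manifold ContDiff Topology
open Set Filter Bundle

noncomputable section

namespace Pool.Agent.H365R4

open Pool.Agent.H365R3

/-- The standing assumptions on the diffeomorphism `f` of the torus with lift `g`. -/
structure QSys (f : T2 ≃ₘ^1⟮I2, I2⟯ T2) (g h : V2 → V2) (p q : T2) (C D : Set T2) (η B : ℝ) :
    Prop where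
  smooth_g : ContDiff ℝ 1 g
  smooth_h : ContDiff ℝ 1 h
  hg : ∀ z, h (g z) = z
  gh : ∀ z, g (h z) = z
  lift : ∀ z, f (E2 z) = E2 (g z)
  ηpos : 0 < η
  ηle : η ≤ 1 / 2
  Bone : 1 ≤ B
  bound : ∀ z v, ‖fderiv ℝ g z v‖ ≤ B * ‖v‖
  ucont : ∀ w0 : ℝ, 0 < w0 → ∃ δ : ℝ, 0 < δ ∧ ∀ z z', ‖z - z'‖ ≤ δ →
    ‖fderiv ℝ g z - fderiv ℝ g z'‖ ≤ w0
  hp : Attr f p C
  hq : Attr f⁻¹ q D
  disj : Disjoint C D
  cond : ∀ z v, f (E2 z) ∉ C → f⁻¹ (E2 z) ∉ D → η * ‖v‖ ^ 2 ≤ Q (fderiv ℝ g z v) - Q v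

/-- An orbit leads from near `a` to near `b`. -/
def Lk (f : T2 ≃ₘ^1⟮I2, I2⟯ T2) (a b : T2) : Prop :=
  ∀ U ∈ 𝓝 a, ∀ V ∈ 𝓝 b, ∃ u ∈ U, ∃ n : ℕ, 1 ≤ n ∧ f^[n] u ∈ V

/-- The points at which orbits may be joined. -/
def GG (f : T2 ≃ₘ^1⟮I2, I2⟯ T2) (C D : Set T2) : Set T2 := {x | x ∉ C ∧ f⁻¹ x ∉ D}

namespace QSys

variable {f : T2 ≃ₘ^1⟮I2, I2⟯ T2} {g h : V2 → V2} {p q : T2} {C D : Set T2} {η B : ℝ}

theorem GG_open (S : QSys f g h p q C D η B) : IsOpen (GG f C D) :=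
  S.hp.closed.isOpen_compl.inter
    (S.hq.closed.isOpen_compl.preimage (f⁻¹).contMDiff.continuous)

theorem lift_inv (S : QSys f g h p q C D η B) (z : V2) : f⁻¹ (E2 z) = E2 (h z) := by
  have h1 : f (E2 (h z)) = E2 z := by rw [S.lift, S.gh]
  rw [← h1]
  exact d1_self_inv f _

/-- Along a segment from a joint to a joint the condition holds. -/
theorem seg (S : QSys f g h p q C D η B) {u : T2} {n i : ℕ} (hi : i < n)
    (hu : f⁻¹ u ∉ D) (hv : f^[n] u ∉ C) : f (f^[i] u) ∉ C ∧ f⁻¹ (f^[i] u) ∉ D := by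
  constructor
  · intro hC
    apply hv
    have h1 := S.hp.iter hC (n - (i + 1))
    rw [← Function.iterate_succ_apply' f, ← Function.iterate_add_apply] at h1
    have h2 : n - (i + 1) + (i + 1) = n := by omega
    rwa [h2] at h1
  · intro hD
    apply hu
    have h1 := S.hq.iter hD i
    rw [← Function.iterate_succ_apply, Function.iterate_succ_apply', inv_iter] at h1
    exact h1

/-- The closing lemma for cyclic chains. -/
theorem closing (S : QSys f g h p q C D η B) {J : Type} [Fintype J] (ρ : Equiv.Perm J)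
    (a : J → T2) (hLk : ∀ j, Lk f (a j) (a (ρ j))) (hG : ∀ j, a j ∈ GG f C D) (j₀ : J) :
    a j₀ ∈ closure (Function.periodicPts f) := by
  classical
  rw [mem_closure_iff_nhds]
  intro U₀ hU₀
  obtain ⟨r, hr, hrU⟩ : ∃ r > 0, ∀ y, ‖y - S2 (a j₀)‖ < r → E2 y ∈ U₀ := by
    have h1 : E2 ⁻¹' U₀ ∈ 𝓝 (S2 (a j₀)) := E2_cont.continuousAt (by rw [E2_S2]; exact hU₀)
    obtain ⟨r, hr, h2⟩ := Metric.mem_nhds_iff.1 h1
    exact ⟨r, hr, fun y hy => h2 (by rwa [Metric.mem_ball, dist_eq_norm])⟩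
  have hη := S.ηpos
  have hB := S.Bone
  obtain ⟨K, hKdef⟩ : ∃ K, K = (2 / η) * (1 + 2 * B ^ 2 / η) + 1 := ⟨_, rfl⟩
  have hK0 : 0 ≤ (2 / η) * (1 + 2 * B ^ 2 / η) := by positivity
  have hK1 : 1 ≤ K := by linarith
  have hKpos : 0 < K := by linarith
  have hK2 : (2 / η) * (1 + 2 * B ^ 2 / η) ≤ K ^ 2 := by nlinarith
  obtain ⟨δ₀, hδ₀, huc⟩ := S.ucont (1 / (2 * K)) (by positivity)
  obtain ⟨δ, hδdef⟩ : ∃ δ, δ = min δ₀ (r / 4) := ⟨_, rfl⟩
  have hδ : 0 < δ := by rw [hδdef]; exact lt_min hδ₀ (by positivity)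
  have hδδ₀ : δ ≤ δ₀ := by rw [hδdef]; exact min_le_left _ _
  have hδr : δ ≤ r / 4 := by rw [hδdef]; exact min_le_right _ _
  obtain ⟨c, hc⟩ : ∃ c : ℝ, c = (Fintype.card J : ℝ) + 1 := ⟨_, rfl⟩
  have hc1 : 1 ≤ c := by rw [hc]; simp
  have hc0 : 0 < c := by linarith
  obtain ⟨ε, hεdef⟩ : ∃ ε, ε = min (r / 4) (δ / (4 * K * c)) := ⟨_, rfl⟩
  have hε : 0 < ε := by rw [hεdef]; exact lt_min (by positivity) (by positivity)
  have hεr : ε ≤ r / 4 := by rw [hεdef]; exact min_le_left _ _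
  have hεK : ε ≤ δ / (4 * K * c) := by rw [hεdef]; exact min_le_right _ _
  -- the neighbourhoods
  let U : J → Set T2 := fun j => {Y | ∃ y, E2 y = Y ∧ ‖y - S2 (a j)‖ < ε} ∩ GG f C D
  have hU : ∀ j, U j ∈ 𝓝 (a j) := by
    intro j
    have h1 := E2_open (S2 (a j)) hε
    rw [E2_S2] at h1
    exact inter_mem h1 (S.GG_open.mem_nhds (hG j))
  have h1 : ∀ j, ∃ u ∈ U j, ∃ n : ℕ, 1 ≤ n ∧ f^[n] u ∈ U (ρ j) := fun j =>
    hLk j (U j) (hU j) (U (ρ j)) (hU (ρ j))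
  choose u hu n hn hv using h1
  -- the index type
  let ι : Type := {i : J × ℕ // i.2 < n i.1}
  have hfin : Finite ι := by
    refine Finite.of_injective (β := Σ j, Fin (n j)) (fun i => ⟨i.1.1, ⟨i.1.2, i.2⟩⟩) ?_
    rintro ⟨⟨j, i⟩, hi⟩ ⟨⟨j', i'⟩, hi'⟩ h
    simp only [Sigma.mk.injEq] at h
    obtain ⟨h1, h2⟩ := h
    subst h1
    have h3 := eq_of_heq h2
    simp only [Fin.mk.injEq] at h3
    subst h3
    rfl
  have : Fintype ι := Fintype.ofFinite ι
  have hne : Nonempty ι := ⟨⟨(j₀, 0), hn j₀⟩⟩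
  let s : ι → ι := fun i => if hi : i.1.2 + 1 < n i.1.1 then ⟨(i.1.1, i.1.2 + 1), hi⟩
    else ⟨(ρ i.1.1, 0), hn _⟩
  have hs1 : ∀ i : ι, (hi : i.1.2 + 1 < n i.1.1) → (s i).1 = (i.1.1, i.1.2 + 1) := by
    intro i hi
    change (if hi : i.1.2 + 1 < n i.1.1 then (⟨(i.1.1, i.1.2 + 1), hi⟩ : ι)
      else ⟨(ρ i.1.1, 0), hn _⟩).1 = _
    rw [dif_pos hi]
  have hs2 : ∀ i : ι, ¬ (i.1.2 + 1 < n i.1.1) → (s i).1 = (ρ i.1.1, 0) := by
    intro i hi
    change (if hi : i.1.2 + 1 < n i.1.1 then (⟨(i.1.1, i.1.2 + 1), hi⟩ : ι)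
      else ⟨(ρ i.1.1, 0), hn _⟩).1 = _
    rw [dif_neg hi]
  have hsinj : Function.Injective s := by
    intro i i' hii
    have hii' : (s i).1 = (s i').1 := congrArg Subtype.val hii
    apply Subtype.ext
    by_cases hi : i.1.2 + 1 < n i.1.1
    · by_cases hi' : i'.1.2 + 1 < n i'.1.1
      · rw [hs1 i hi, hs1 i' hi'] at hii'
        simp only [Prod.mk.injEq, Nat.add_right_cancel_iff] at hii'
        exact Prod.ext hii'.1 hii'.2
      · rw [hs1 i hi, hs2 i' hi'] at hii'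
        simp only [Prod.mk.injEq] at hii'
        omega
    · by_cases hi' : i'.1.2 + 1 < n i'.1.1
      · rw [hs2 i hi, hs1 i' hi'] at hii'
        simp only [Prod.mk.injEq] at hii'
        omega
      · rw [hs2 i hi, hs2 i' hi'] at hii'
        simp only [Prod.mk.injEq, EmbeddingLike.apply_eq_iff_eq, and_true] at hii'
        refine Prod.ext hii' ?_
        have e1 := i.2
        have e2 := i'.2
        rw [hii'] at e1 hi
        omega
  let σ : Equiv.Perm ι := Equiv.ofBijective s ((Finite.injective_iff_bijective).1 hsinj)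
  have hσ : ∀ i, σ i = s i := fun i => rfl
  let x : ι → V2 := fun i => S2 (f^[i.1.2] (u i.1.1))
  have hx : ∀ i, E2 (x i) = f^[i.1.2] (u i.1.1) := fun i => E2_S2 _
  have hx1 : ∀ i, E2 (g (x i)) = f^[i.1.2 + 1] (u i.1.1) := by
    intro i
    rw [← S.lift, hx, Function.iterate_succ_apply']
  let e : ι → ℝ := fun i => if i.1.2 + 1 < n i.1.1 then 0 else 2 * ε
  have hk : ∀ i, ∃ k : ℤ × ℤ, ‖g (x i) - ofZ k - x (σ i)‖ ≤ e i := by
    intro i
    by_cases hi : i.1.2 + 1 < n i.1.1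
    · have h2 : E2 (g (x i)) = E2 (x (σ i)) := by
        rw [hx1, hx, hσ, hs1 i hi]
      obtain ⟨k, hk⟩ := (E2_eq_iff _ _).1 h2
      refine ⟨k, ?_⟩
      have h3 : e i = 0 := if_pos hi
      rw [h3, hk, add_sub_cancel_right, sub_self, norm_zero]
    · have h3 : e i = 2 * ε := if_neg hi
      have h4 : i.1.2 + 1 = n i.1.1 := by
        have := i.2
        omega
      obtain ⟨⟨y1, hy1, hy1'⟩, -⟩ := hv i.1.1
      obtain ⟨⟨y2, hy2, hy2'⟩, -⟩ := hu (ρ i.1.1)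
      have h5 : E2 (g (x i)) = E2 y1 := by rw [hx1, h4, hy1]
      have h6 : E2 (x (σ i)) = E2 y2 := by
        rw [hx, hσ, hs2 i hi, hy2]; rfl
      obtain ⟨k1, hk1⟩ := (E2_eq_iff _ _).1 h5
      obtain ⟨k2, hk2⟩ := (E2_eq_iff _ _).1 h6
      refine ⟨k1 - k2, ?_⟩
      have h7 : ofZ (k1 - k2) = ofZ k1 - ofZ k2 := by
        ext <;> simp [ofZ]
      have h8 : g (x i) - ofZ (k1 - k2) - x (σ i) = (y1 - S2 (a (ρ i.1.1)))
          - (y2 - S2 (a (ρ i.1.1))) := by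
        rw [hk1, hk2, h7]; abel
      rw [h3, h8]
      refine (norm_sub_le _ _).trans ?_
      linarith
  choose k hk using hk
  have hxcond : ∀ i v, η * ‖v‖ ^ 2 ≤ Q (fderiv ℝ g (x i) v) - Q v := by
    intro i v
    have h2 := S.seg (u := u i.1.1) (n := n i.1.1) (i := i.1.2) i.2 (hu i.1.1).2.2 (hv i.1.1).2.1
    rw [← hx] at h2
    exact S.cond (x i) v h2.1 h2.2
  have hsum : ∑ i, ‖(fun i z => g z - ofZ (k i)) i (x i) - x (σ i)‖ ^ 2 ≤ (δ / (2 * K)) ^ 2 := by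
    have h2 : ∀ i, ‖(fun i z => g z - ofZ (k i)) i (x i) - x (σ i)‖ ^ 2
        ≤ if i.1.2 + 1 < n i.1.1 then 0 else (2 * ε) ^ 2 := by
      intro i
      have h3 := pow_le_pow_left₀ (norm_nonneg _) (hk i) 2
      refine h3.trans (le_of_eq ?_)
      change (if i.1.2 + 1 < n i.1.1 then (0 : ℝ) else 2 * ε) ^ 2 = _
      split_ifs <;> simp
    refine (Finset.sum_le_sum fun i _ => h2 i).trans ?_
    rw [Finset.sum_ite, Finset.sum_const_zero, zero_add, Finset.sum_const, nsmul_eq_mul]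
    have h3 : ((Finset.univ.filter fun i : ι => ¬ (i.1.2 + 1 < n i.1.1)).card : ℝ) ≤ c := by
      have h4 : (Finset.univ.filter fun i : ι => ¬ (i.1.2 + 1 < n i.1.1)).card ≤ Fintype.card J := by
        refine Finset.card_le_card_of_injOn (fun i => i.1.1) (fun _ _ => Finset.mem_univ _) ?_
        intro i hi i' hi' hii
        simp only [Finset.coe_filter, Finset.mem_univ, true_and, mem_ofPred_eq] at hi hi'
        apply Subtype.ext
        refine Prod.ext hii ?_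
        have e1 := i.2
        have e2 := i'.2
        beta_reduce at hii
        rw [hii] at e1 hi
        omega
      rw [hc]
      have : ((Finset.univ.filter fun i : ι => ¬ (i.1.2 + 1 < n i.1.1)).card : ℝ)
        ≤ Fintype.card J := by exact_mod_cast h4
      linarith
    have h5 : 2 * ε ≤ δ / (2 * K) / c := by
      have : δ / (2 * K) / c = 2 * (δ / (4 * K * c)) := by field_simp; ring
      rw [this]; linarith
    have h6 : (2 * ε) ^ 2 ≤ (δ / (2 * K) / c) ^ 2 := pow_le_pow_left₀ (by positivity) h5 2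
    calc _ ≤ c * (2 * ε) ^ 2 := mul_le_mul_of_nonneg_right h3 (sq_nonneg _)
      _ ≤ c * (δ / (2 * K) / c) ^ 2 := mul_le_mul_of_nonneg_left h6 hc0.le
      _ = (δ / (2 * K)) ^ 2 / c := by field_simp
      _ ≤ (δ / (2 * K)) ^ 2 := div_le_self (sq_nonneg _) hc1
  obtain ⟨y, hy1, -, hy2⟩ := shadow σ (fun i z => g z - ofZ (k i)) x (fun i => fderiv ℝ g (x i)) η B K
    δ (1 / (2 * K)) hη (by linarith) hKpos hK2 hxcond (fun i v => S.bound _ _) hδ (by positivity)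
    (by rw [mul_one_div, div_le_iff₀ (by positivity)]; linarith) (by
      intro i v v' hv hv'
      have h2 : ∀ z ∈ Metric.closedBall (x i) δ,
          HasFDerivWithinAt g (fderiv ℝ g z) (Metric.closedBall (x i) δ) z := fun z _ =>
        ((S.smooth_g.differentiable one_ne_zero z).hasFDerivAt).hasFDerivWithinAt
      have h3 : ∀ z ∈ Metric.closedBall (x i) δ, ‖fderiv ℝ g z - fderiv ℝ g (x i)‖ ≤ 1 / (2 * K) := by
        intro z hz
        refine huc z (x i) ?_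
        rw [Metric.mem_closedBall, dist_eq_norm] at hz
        exact hz.trans hδδ₀
      have h4 := (convex_closedBall (x i) δ).norm_image_sub_le_of_norm_hasFDerivWithin_le' h2 h3
        (x := x i + v') (y := x i + v) (by simpa using hv') (by simpa using hv)
      have h5 : x i + v - (x i + v') = v - v' := by abel
      rw [h5] at h4
      have h6 : g (x i + v) - ofZ (k i) - (g (x i + v') - ofZ (k i)) - fderiv ℝ g (x i) (v - v')
          = g (x i + v) - g (x i + v') - fderiv ℝ g (x i) (v - v') := by abel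
      rw [h6]; exact h4) hsum
  have hfy : ∀ i, f (E2 (y i)) = E2 (y (σ i)) := by
    intro i
    rw [S.lift, ← hy1 i]
    have h2 : g (y i) = (g (y i) - ofZ (k i)) + ofZ (k i) := by abel
    conv_lhs => rw [h2]
    exact E2_ofZ _ _
  have hfyn : ∀ (m : ℕ) i, f^[m] (E2 (y i)) = E2 (y ((σ ^ m) i)) := by
    intro m
    induction m with
    | zero => intro i; rfl
    | succ m ih =>
      intro i
      rw [Function.iterate_succ_apply, hfy, ih, pow_succ, Equiv.Perm.mul_apply]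
  let i₀ : ι := ⟨(j₀, 0), hn j₀⟩
  refine ⟨E2 (y i₀), ?_, ⟨orderOf σ, orderOf_pos σ, ?_⟩⟩
  · obtain ⟨⟨y2, hy2', hy3⟩, -⟩ := hu j₀
    have h6 : E2 (x i₀) = E2 y2 := by
      rw [hx, hy2']; rfl
    obtain ⟨k2, hk2⟩ := (E2_eq_iff _ _).1 h6
    have h7 : E2 (y i₀) = E2 (y i₀ - ofZ k2) := by
      rw [← E2_ofZ (y i₀ - ofZ k2) k2, sub_add_cancel]
    rw [h7]
    apply hrU
    have h8 : y i₀ - ofZ k2 - S2 (a j₀) = (y i₀ - x i₀) + (y2 - S2 (a j₀)) := by
      rw [hk2]; abel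
    rw [h8]
    refine (norm_add_le _ _).trans_lt ?_
    have := hy2 i₀
    linarith
  · rw [Function.IsPeriodicPt, Function.IsFixedPt, hfyn, pow_orderOf_eq_one]
    rfl

end QSys

end Pool.Agent.H365R4
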