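import Mathlib
import Pool.Agent.H365R3.Nbhd

set_option autoImplicit false

open scoped Manifold ContDiff Topology
open Set Filter Bundle

noncomputable section

namespace Pool.Agent.H365R4

open Pool.Agent.H365R3

variable {E : Type} [NormedAddCommGroup E] [NormedSpace ℝ E] {H : Type} [TopologicalSpace H]
  {I : ModelWithCorners ℝ E H} {M : Type} [TopologicalSpace M] [ChartedSpace H M]
  {F : Type} [NormedAddCommGroup F] [NormedSpace ℝ F]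

/-- The situation: an Axiom A no-cycle diffeomorphism with the property `P`, with a sink, a
source and an orbit from the one to the other. -/
structure Gd [IsManifold I 1 M] (P : (M ≃ₘ^1⟮I, I⟯ M) → Prop) (c d : Cht I M F) (r : ℝ)
    (f : M ≃ₘ^1⟮I, I⟯ M) : Prop where
  ax : AxiomA f
  nc : NoCycles f
  ex : P f
  stab : ∀ (f f' : M ≃ₘ^1⟮I, I⟯ M) (p q : M) (C D : Set M), Pair f f' p q C D → P f → P f'
  snk : ∃ k, SinkAt c f k r
  src : ∃ k, SinkAt d f⁻¹ k r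
  disj : Disjoint (disk c r) (disk d r)
  conn : ∃ n : ℕ, ∃ y ∈ disk d r, f^[n] y ∈ disk c r

section

variable [FiniteDimensional ℝ F] [T2Space M]

variable [IsManifold I 1 M] {P : (M ≃ₘ^1⟮I, I⟯ M) → Prop} {c d : Cht I M F} {r : ℝ}
  {f : M ≃ₘ^1⟮I, I⟯ M}

theorem Gd.next (hg : Gd P c d r f) (h : M ≃ₘ^1⟮I, I⟯ M) (hsink : ∃ k, SinkAt c (f * h) k r)
    (hsrc : ∃ k, SinkAt d (f * h)⁻¹ k r)
    (hoff : ∀ x, x ∉ disk c (r / 2) → x ∉ disk d (r / 2) → h x = x)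
    (hpres : ∀ x, h x ∈ disk d r ↔ x ∈ disk d r) : Gd P c d r (f * h) := by
  obtain ⟨k1, h1⟩ := hg.snk
  obtain ⟨k2, h2⟩ := hg.src
  obtain ⟨k3, h3⟩ := hsink
  obtain ⟨k4, h4⟩ := hsrc
  have hr := h1.hr
  have hr2 : r / 2 < r := by linarith
  have hr0 : 0 < r / 2 := by linarith
  have hsub : ∀ c : Cht I M F, disk c (r / 2) ⊆ disk c r := fun c => disk_mono c hr2.le
  have hP : Pair f (f * h) (c.ψ 0) (d.ψ 0) (disk c (r / 2)) (disk d (r / 2)) := by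
    refine ⟨h1.attr hr0 hr2, h3.attr hr0 hr2, h2.attr hr0 hr2, h4.attr hr0 hr2,
      hg.disj.mono (hsub c) (hsub d), fun x hx hx' => ?_⟩
    rw [d1_mul_apply, hoff x hx hx']
  refine ⟨?_, hP.noCycles hg.nc, hg.stab _ _ _ _ _ _ hP hg.ex, hg.stab, ⟨k3, h3⟩, ⟨k4, h4⟩, hg.disj, ?_⟩
  · refine hP.axiomA ?_ ?_ hg.ax
    · intro N hN
      obtain ⟨B, hB, hh⟩ := h3.hyp hN
      exact ⟨B, k3, hB, h3.hk0, h3.hk1, fun v n => hh ⟨_, v⟩ n rfl⟩
    · intro N hN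
      obtain ⟨B, hB, hh⟩ := h4.hyp_source hN
      exact ⟨B, k4, hB, h4.hk0, h4.hk1, fun v n => hh ⟨_, v⟩ n rfl⟩
  · classical
    let n := Nat.find hg.conn
    obtain ⟨y, hy, hny⟩ := Nat.find_spec hg.conn
    have hmin : ∀ m < n, ¬ ∃ y ∈ disk d r, f^[m] y ∈ disk c r := fun m hm =>
      Nat.find_min hg.conn hm
    change f^[n] y ∈ disk c r at hny
    have hn0 : n ≠ 0 := by
      intro h0
      rw [h0] at hny
      exact hg.disj.ne_of_mem hny hy rfl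
    obtain ⟨m, hm⟩ := Nat.exists_eq_succ_of_ne_zero hn0
    have hy' : h⁻¹ y ∈ disk d r := by
      rw [← hpres, d1_inv_self]; exact hy
    refine ⟨n, h⁻¹ y, hy', ?_⟩
    have key : ∀ j ≤ m, (f * h)^[j] (f y) = f^[j] (f y) := by
      intro j
      induction j with
      | zero => intro _; rfl
      | succ j ih =>
        intro hj
        rw [Function.iterate_succ_apply', Function.iterate_succ_apply', ih (by omega),
          d1_mul_apply]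
        congr 1
        have hc : f^[j] (f y) ∉ disk c r := by
          intro hc
          rw [← Function.iterate_succ_apply] at hc
          exact hmin (j + 1) (by omega) ⟨y, hy, hc⟩
        have hd : f^[j] (f y) ∉ disk d r := by
          intro hd
          rw [← Function.iterate_succ_apply] at hd
          refine hmin (n - (j + 1)) (by omega) ⟨_, hd, ?_⟩
          rw [← Function.iterate_add_apply, Nat.sub_add_cancel (by omega)]
          exact hny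
        exact hoff _ (fun hh => hc (hsub c hh)) (fun hh => hd (hsub d hh))
    have h5 : (f * h) (h⁻¹ y) = f y := by rw [d1_mul_apply, d1_inv_self]
    rw [hm, Function.iterate_succ_apply, h5, key m le_rfl, ← Function.iterate_succ_apply, ← hm]
    exact hny

theorem Gd.pert_c (hg : Gd P c d r f) {k : ℝ} (hk : SinkAt c f k r) {ε : ℝ} {K : F ≃ F}
    (hK : Sml (r / 2) ε K) (h0 : 0 ≤ ε) (hε : k * (1 + ε) < 1) (hok : LiftOK c K) :
    Gd P c d r (f * liftD c K hok) ∧ ∀ x ∈ disk d r, (f * liftD c K hok)⁻¹ x = f⁻¹ x := by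
  have hr := hk.hr
  have hr2 : r / 2 ≤ r := by linarith
  obtain ⟨k2, h2⟩ := hg.src
  have hfix : ∀ x ∈ disk d r, (f * liftD c K hok)⁻¹ x = f⁻¹ x := by
    intro x hx
    have h3 := h2.maps_disk le_rfl hx
    have h4 : liftD c K hok (f⁻¹ x) = f⁻¹ x := by
      refine liftD_off_disk hK hok fun hc => ?_
      exact hg.disj.ne_of_mem (disk_mono c hr2 hc) h3 rfl
    rw [mul_inv_rev, d1_mul_apply]
    conv_lhs => rw [← h4]
    exact d1_self_inv _ _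
  refine ⟨hg.next _ ⟨_, hk.pert hK hr2 hε h0⟩ ⟨k2, h2.congr hfix⟩ ?_ ?_, hfix⟩
  · intro x hx _
    exact liftD_off_disk hK hok hx
  · intro x
    by_cases hx : x ∈ disk c (r / 2)
    · have h5 := (liftD_disk_iff hK hok le_rfl x).2 hx
      constructor
      · intro h6; exact absurd rfl (hg.disj.ne_of_mem (disk_mono c hr2 h5) h6)
      · intro h6; exact absurd rfl (hg.disj.ne_of_mem (disk_mono c hr2 hx) h6)
    · rw [liftD_off_disk hK hok hx]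

theorem Gd.pert_d (hg : Gd P c d r f) {k : ℝ} (hk : SinkAt d f⁻¹ k r) {ε : ℝ} {K : F ≃ F}
    (hK : Sml (r / 2) ε K) (h0 : ε < 1) (hε : k / (1 - ε) < 1) (hok : LiftOK d K) :
    Gd P c d r (f * liftD d K hok) ∧ ∀ x ∈ disk c r, (f * liftD d K hok) x = f x := by
  have hr := hk.hr
  have hr2 : r / 2 ≤ r := by linarith
  obtain ⟨k2, h2⟩ := hg.snk
  have hfix : ∀ x ∈ disk c r, (f * liftD d K hok) x = f x := by
    intro x hx
    have h4 : liftD d K hok x = x := by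
      refine liftD_off_disk hK hok fun hc => ?_
      exact hg.disj.ne_of_mem hx (disk_mono d hr2 hc) rfl
    rw [d1_mul_apply, h4]
  refine ⟨hg.next _ ⟨k2, h2.congr hfix⟩ ⟨_, hk.pert_source hK hr2 hε h0⟩ ?_ ?_, hfix⟩
  · intro x _ hx
    exact liftD_off_disk hK hok hx
  · intro x
    exact liftD_disk_iff hK hok hr2 x

end

section

variable [FiniteDimensional ℝ F] [T2Space M] [IsManifold I ∞ M] [IsManifold I 1 M]
  [FiniteDimensional ℝ E] [LocallyConnectedSpace H] {P : (M ≃ₘ^1⟮I, I⟯ M) → Prop}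
  {c d : Cht I M F} {r : ℝ} {f : M ≃ₘ^1⟮I, I⟯ M}

theorem Gd.near_c (hg : Gd P c d r f) {W : Set (M ≃ₘ^1⟮I, I⟯ M)} (hW : W ∈ 𝓝 f) :
    ∃ ε : ℝ, 0 < ε ∧ ε ≤ 1 / 2 ∧ ∀ (K : F ≃ F) (_ : Sml (r / 2) ε K) (hok : LiftOK c K),
      Gd P c d r (f * liftD c K hok) ∧ f * liftD c K hok ∈ W ∧
      ∀ x ∈ disk d r, (f * liftD c K hok)⁻¹ x = f⁻¹ x := by
  obtain ⟨k, hk⟩ := hg.snk
  have hr2 : r / 2 ≤ r := by linarith [hk.hr]
  obtain ⟨ε, hε, hh⟩ := near_one c (hk.sub' hr2) (near_mul hW)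
  have hk0 := hk.hk0
  have hk1 := hk.hk1
  let ε' := min ε (min (1 / 2) ((1 - k) / 2))
  have h1 : 0 < ε' := lt_min hε (lt_min (by norm_num) (by linarith))
  have h2 : ε' ≤ (1 - k) / 2 := (min_le_right _ _).trans (min_le_right _ _)
  have h3 : ε' ≤ 1 / 2 := (min_le_right _ _).trans (min_le_left _ _)
  refine ⟨ε', h1, h3, fun K hK hok => ?_⟩
  obtain ⟨h4, h5⟩ := hg.pert_c hk hK h1.le (by nlinarith) hok
  exact ⟨h4, hh K (hK.mono le_rfl (min_le_left _ _)), h5⟩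

theorem Gd.near_d (hg : Gd P c d r f) {W : Set (M ≃ₘ^1⟮I, I⟯ M)} (hW : W ∈ 𝓝 f) :
    ∃ ε : ℝ, 0 < ε ∧ ε ≤ 1 / 2 ∧ ∀ (K : F ≃ F) (_ : Sml (r / 2) ε K) (hok : LiftOK d K),
      Gd P c d r (f * liftD d K hok) ∧ f * liftD d K hok ∈ W ∧
      ∀ x ∈ disk c r, (f * liftD d K hok) x = f x := by
  obtain ⟨k, hk⟩ := hg.src
  have hr2 : r / 2 ≤ r := by linarith [hk.hr]
  obtain ⟨ε, hε, hh⟩ := near_one d (hk.sub' hr2) (near_mul hW)
  have hk0 := hk.hk0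
  have hk1 := hk.hk1
  let ε' := min ε (min (1 / 2) ((1 - k) / 2))
  have h1 : 0 < ε' := lt_min hε (lt_min (by norm_num) (by linarith))
  have h2 : ε' ≤ (1 - k) / 2 := (min_le_right _ _).trans (min_le_right _ _)
  have h3 : ε' ≤ 1 / 2 := (min_le_right _ _).trans (min_le_left _ _)
  refine ⟨ε', h1, h3, fun K hK hok => ?_⟩
  obtain ⟨h4, h5⟩ := hg.pert_d hk hK (by linarith)
    (by rw [div_lt_one (by linarith)]; linarith) hok
  exact ⟨h4, hh K (hK.mono le_rfl (min_le_left _ _)), h5⟩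

theorem Gd.lin_c (hg : Gd P c d r f) {W : Set (M ≃ₘ^1⟮I, I⟯ M)} (hW : W ∈ 𝓝 f)
    (L : F ≃L[ℝ] F) (hL : HasFDerivAt (fun z => c.φ (f (c.ψ z))) (L : F →L[ℝ] F) 0) :
    ∃ f' ∈ W, Gd P c d r f' ∧ (∃ s > 0, ∀ z, ‖z‖ < s → f' (c.ψ z) = c.ψ (L z)) ∧
      ∀ x ∈ disk d r, f'⁻¹ x = f⁻¹ x := by
  obtain ⟨ε, hε, hε2, hh⟩ := hg.near_c hW
  obtain ⟨k, hk⟩ := hg.snk
  have hr := hk.hr
  have hfp : f (c.ψ 0) ∈ c.src := by rw [hk.fix]; exact hk.p_src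
  have hfp' : f⁻¹ (c.ψ 0) ∈ c.src := by rw [inv_fix hk.fix]; exact hk.p_src
  obtain ⟨L', hL', hL''⟩ := equiv_expr c c f hk.zero_mem hfp
  rw [hk.fix, hk.φp] at hL''
  have hLL : L' = L := ContinuousLinearEquiv.coe_injective (hL'.unique hL)
  subst hLL
  let J : F → F := fun z => c.φ (f⁻¹ (c.ψ (L' z)))
  have hJ0 : J 0 = 0 := by
    simp only [J]; rw [map_zero, inv_fix hk.fix, hk.φp]
  have hsm : ContDiffAt ℝ 1 (fun w => c.φ (f⁻¹ (c.ψ w))) (L' 0) := by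
    rw [map_zero]; exact smooth_expr c c f⁻¹ hk.zero_mem hfp'
  have hJc : ContDiffAt ℝ 1 J 0 := hsm.comp 0 L'.contDiff.contDiffAt
  have hJd : HasFDerivAt J (ContinuousLinearMap.id ℝ F) 0 := by
    have h1 : HasFDerivAt (fun w => c.φ (f⁻¹ (c.ψ w))) (L'.symm : F →L[ℝ] F) (L' 0) := by
      rw [map_zero]; exact hL''
    have h2 := h1.comp 0 (L' : F →L[ℝ] F).hasFDerivAt
    have h3 : (L'.symm : F →L[ℝ] F).comp (L' : F →L[ℝ] F) = ContinuousLinearMap.id ℝ F := by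
      ext x; simp
    rw [h3] at h2
    exact h2
  obtain ⟨K, hK1, hK2, hK3, ⟨s1, hs1, hK4⟩, hK5⟩ :=
    exists_patch_equiv J 0 hJ0 hJc hJd ε (r / 2) hε hε2 (by linarith)
  have hK : Sml (r / 2) ε K := ⟨hK1, hK2, fun z hz => hK3 z (by simpa using hz), hK5, by
    rw [hK4 0 (by simpa using hs1), hJ0]⟩
  obtain ⟨h1, h2, h3⟩ := hh K hK (hK.ok c (hk.sub' (by linarith)))
  refine ⟨_, h2, h1, ?_, h3⟩
  have hev : ∀ᶠ z in 𝓝 (0 : F), ‖z‖ < s1 ∧ z ∈ c.tgt ∧ f⁻¹ (c.ψ (L' z)) ∈ c.src := by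
    have e1 : ∀ᶠ w in 𝓝 (L' 0), f⁻¹ (c.ψ w) ∈ c.src := by
      rw [map_zero]
      filter_upwards [ev_expr c c f⁻¹ hk.zero_mem hfp'] with w hw using hw.2
    have e2 : ContinuousAt L' 0 := L'.continuous.continuousAt
    filter_upwards [Metric.ball_mem_nhds (0 : F) hs1, c.open_tgt.mem_nhds hk.zero_mem,
      e2.eventually e1] with z a b d
    exact ⟨by simpa using a, b, d⟩
  obtain ⟨s, hs, hball⟩ := Metric.eventually_nhds_iff_ball.1 hev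
  refine ⟨s, hs, fun z hz => ?_⟩
  obtain ⟨a, b, d⟩ := hball z (by simpa using hz)
  rw [d1_mul_apply, liftD_src c _ (c.ψ_mem z b), c.φψ z b, hK4 z (by simpa using a)]
  simp only [J]
  rw [c.ψφ _ d, d1_inv_self]

theorem Gd.lin_d (hg : Gd P c d r f) {W : Set (M ≃ₘ^1⟮I, I⟯ M)} (hW : W ∈ 𝓝 f)
    (L : F ≃L[ℝ] F) (hL : HasFDerivAt (fun z => d.φ (f⁻¹ (d.ψ z))) (L : F →L[ℝ] F) 0) :
    ∃ f' ∈ W, Gd P c d r f' ∧ (∃ s > 0, ∀ z, ‖z‖ < s → f'⁻¹ (d.ψ z) = d.ψ (L z)) ∧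
      ∀ x ∈ disk c r, f' x = f x := by
  obtain ⟨ε, hε, hε2, hh⟩ := hg.near_d hW
  obtain ⟨k, hk⟩ := hg.src
  have hr := hk.hr
  have hfp' : f⁻¹ (d.ψ 0) ∈ d.src := by rw [hk.fix]; exact hk.p_src
  let J : F → F := fun z => d.φ (f⁻¹ (d.ψ (L.symm z)))
  have hJ0 : J 0 = 0 := by
    simp only [J]; rw [map_zero, hk.fix, hk.φp]
  have hsm : ContDiffAt ℝ 1 (fun w => d.φ (f⁻¹ (d.ψ w))) (L.symm 0) := by
    rw [map_zero]; exact smooth_expr d d f⁻¹ hk.zero_mem hfp'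
  have hJc : ContDiffAt ℝ 1 J 0 := hsm.comp 0 L.symm.contDiff.contDiffAt
  have hJd : HasFDerivAt J (ContinuousLinearMap.id ℝ F) 0 := by
    have h1 : HasFDerivAt (fun w => d.φ (f⁻¹ (d.ψ w))) (L : F →L[ℝ] F) (L.symm 0) := by
      rw [map_zero]; exact hL
    have h2 := h1.comp 0 (L.symm : F →L[ℝ] F).hasFDerivAt
    have h3 : (L : F →L[ℝ] F).comp (L.symm : F →L[ℝ] F) = ContinuousLinearMap.id ℝ F := by
      ext x; simp
    rw [h3] at h2
    exact h2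
  obtain ⟨K, hK1, hK2, hK3, ⟨s1, hs1, hK4⟩, hK5⟩ :=
    exists_patch_equiv J 0 hJ0 hJc hJd ε (r / 2) hε hε2 (by linarith)
  have hK : Sml (r / 2) ε K := ⟨hK1, hK2, fun z hz => hK3 z (by simpa using hz), hK5, by
    rw [hK4 0 (by simpa using hs1), hJ0]⟩
  have hok := hK.ok d (hk.sub' (by linarith))
  obtain ⟨h1, h2, h3⟩ := hh K hK hok
  refine ⟨_, h2, h1, ?_, h3⟩
  have hev : ∀ᶠ z in 𝓝 (0 : F), ‖L z‖ < s1 ∧ f⁻¹ (d.ψ z) ∈ d.src := by
    have e2 : ContinuousAt (fun z => ‖L z‖) 0 := L.continuous.norm.continuousAt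
    have e3 : ∀ᶠ z in 𝓝 (0 : F), ‖L z‖ < s1 :=
      e2.eventually_lt continuousAt_const (by simpa using hs1)
    filter_upwards [e3, ev_expr d d f⁻¹ hk.zero_mem hfp'] with z a b using ⟨a, b.2⟩
  obtain ⟨s, hs, hball⟩ := Metric.eventually_nhds_iff_ball.1 hev
  refine ⟨s, hs, fun z hz => ?_⟩
  obtain ⟨a, b⟩ := hball z (by simpa using hz)
  have h4 : K (L z) = d.φ (f⁻¹ (d.ψ z)) := by
    rw [hK4 (L z) (by simpa using a)]
    simp only [J]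
    rw [L.symm_apply_apply]
  rw [mul_inv_rev, liftD_inv, d1_mul_apply, liftD_src d _ b, ← h4, K.symm_apply_apply]
theorem Gd.conn_lin (hg : Gd P c d r f) {W : Set (M ≃ₘ^1⟮I, I⟯ M)} (hW : W ∈ 𝓝 f)
    (L L' : F ≃L[ℝ] F) {s : ℝ} (hs : 0 < s) (hlc : ∀ z, ‖z‖ < s → f (c.ψ z) = c.ψ (L z))
    (hld : ∀ z, ‖z‖ < s → f⁻¹ (d.ψ z) = d.ψ (L' z)) (hsr : s ≤ r / 2) :
    ∃ f' ∈ W, Gd P c d r f' ∧ ∃ (A : F ≃L[ℝ] F) (k t ρ : ℝ) (b a : F) (N : ℕ),
      Conn c d f' L L' A r k s t ρ b a N := by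
  obtain ⟨ε, hε, hε2, hh⟩ := hg.near_d hW
  obtain ⟨k1, hk1⟩ := hg.snk
  obtain ⟨k2, hk2⟩ := hg.src
  obtain ⟨n, y, hy, hny⟩ := hg.conn
  have hr := hk1.hr
  have hLk1 : ∀ z, ‖L z‖ ≤ k1 * ‖z‖ := hk1.lin_norm (L := (L : F →L[ℝ] F)) hs hlc
  have hLk2 : ∀ z, ‖L' z‖ ≤ k2 * ‖z‖ := hk2.lin_norm (L := (L' : F →L[ℝ] F)) hs hld
  let k := max k1 k2
  have hk0 : 0 < k := hk1.hk0.trans_le (le_max_left _ _)
  have hk1' : k < 1 := max_lt hk1.hk1 hk2.hk1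
  have hLk : ∀ z, ‖L z‖ ≤ k * ‖z‖ := fun z =>
    (hLk1 z).trans (mul_le_mul_of_nonneg_right (le_max_left _ _) (norm_nonneg _))
  have hLk' : ∀ z, ‖L' z‖ ≤ k * ‖z‖ := fun z =>
    (hLk2 z).trans (mul_le_mul_of_nonneg_right (le_max_right _ _) (norm_nonneg _))
  -- move deep into the linear regions
  obtain ⟨m, hm⟩ : ∃ m : ℕ, k2 ^ m * r < s := by
    have : Tendsto (fun m : ℕ => k2 ^ m * r) atTop (𝓝 (0 * r)) :=
      (tendsto_pow_atTop_nhds_zero_of_lt_one hk2.hk0.le hk2.hk1).mul_const r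
    rw [zero_mul] at this
    exact (this.eventually_lt_const hs).exists
  obtain ⟨m', hm'⟩ : ∃ m : ℕ, k1 ^ m * r < s := by
    have : Tendsto (fun m : ℕ => k1 ^ m * r) atTop (𝓝 (0 * r)) :=
      (tendsto_pow_atTop_nhds_zero_of_lt_one hk1.hk0.le hk1.hk1).mul_const r
    rw [zero_mul] at this
    exact (this.eventually_lt_const hs).exists
  let y1 := (⇑f⁻¹)^[m] y
  obtain ⟨hy1s, hy1n, -⟩ := hk2.iter hy.1 hy.2 m
  change y1 ∈ d.src at hy1s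
  change ‖d.φ y1‖ ≤ _ at hy1n
  let b := d.φ y1
  have hb : ‖b‖ < s := by
    refine (hy1n.trans ?_).trans_lt hm
    exact mul_le_mul_of_nonneg_left hy.2 (pow_nonneg hk2.hk0.le m)
  let N := m' + (n + m)
  have hN : f^[N] y1 = f^[m'] (f^[n] y) := by
    simp only [N]
    rw [Function.iterate_add_apply, Function.iterate_add_apply]
    simp only [y1]
    rw [iter_inv]
  obtain ⟨hNs, hNn, -⟩ := hk1.iter hny.1 hny.2 m'
  rw [← hN] at hNs hNn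
  have hNn' : ‖c.φ (f^[N] y1)‖ < s := by
    refine (hNn.trans ?_).trans_lt hm'
    exact mul_le_mul_of_nonneg_left hny.2 (pow_nonneg hk1.hk0.le m')
  have hmemc : f^[N] y1 ∈ disk c r := ⟨hNs, by linarith⟩
  have hmemd : y1 ∈ disk d r := ⟨hy1s, by change ‖b‖ ≤ r; linarith⟩
  have hb0 : b ≠ 0 := by
    intro h0
    have h1 : y1 = d.ψ 0 := hk2.eq_p hy1s h0
    have h2 : f (d.ψ 0) = d.ψ 0 := by
      have := inv_fix hk2.fix
      rwa [inv_inv] at this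
    rw [h1, iter_fix h2, ← h1] at hmemc
    exact hg.disj.ne_of_mem hmemc hmemd rfl
  have hbpos : 0 < ‖b‖ := norm_pos_iff.2 hb0
  have hN0 : N ≠ 0 := by
    intro h0
    rw [h0] at hmemc
    exact hg.disj.ne_of_mem hmemc hmemd rfl
  obtain ⟨N', hN'⟩ := Nat.exists_eq_succ_of_ne_zero hN0
  let g : M ≃ₘ^1⟮I, I⟯ M := f ^ N
  have hgx : ∀ x, g x = f^[N] x := fun x => d1_pow_apply f N x
  have hbt : b ∈ d.tgt := d.φ_mem _ hy1s
  have hψb : d.ψ b = y1 := d.ψφ _ hy1s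
  have hgb : g (d.ψ b) ∈ c.src := by rw [hgx, hψb]; exact hNs
  obtain ⟨A, hA, hA'⟩ := equiv_expr d c g hbt hgb
  let a := c.φ (g (d.ψ b))
  change HasFDerivAt _ _ a at hA'
  have hat : a ∈ c.tgt := c.φ_mem _ hgb
  have hψa : c.ψ a = g (d.ψ b) := c.ψφ _ hgb
  have hga : g⁻¹ (c.ψ a) ∈ d.src := by rw [hψa, d1_self_inv]; exact d.ψ_mem b hbt
  have hna : ‖a‖ < s := by simp only [a]; rw [hgx, hψb]; exact hNn'
  let J : F → F := fun x => d.φ (g⁻¹ (c.ψ (a + A (x - b))))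
  have haff : a + A (b - b) = a := by simp
  have hJb : J b = b := by
    simp only [J]; rw [haff, hψa, d1_self_inv, d.φψ b hbt]
  have hJc : ContDiffAt ℝ 1 J b := by
    have h1 : ContDiffAt ℝ 1 (fun w => d.φ (g⁻¹ (c.ψ w))) (a + A (b - b)) := by
      rw [haff]; exact smooth_expr c d g⁻¹ hat hga
    have h2 : ContDiffAt ℝ 1 (fun x => a + A (x - b)) b :=
      contDiffAt_const.add (A.contDiff.contDiffAt.comp b (contDiffAt_id.sub contDiffAt_const))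
    exact ContDiffAt.comp b (g := fun w => d.φ (g⁻¹ (c.ψ w))) (f := fun x => a + A (x - b)) h1 h2
  have hJd : HasFDerivAt J (ContinuousLinearMap.id ℝ F) b := by
    have h1 : HasFDerivAt (fun w => d.φ (g⁻¹ (c.ψ w))) (A.symm : F →L[ℝ] F) (a + A (b - b)) := by
      rw [haff]; exact hA'
    have h0 : HasFDerivAt (fun x => a + A (x - b)) (A : F →L[ℝ] F) b := by
      have e1 : HasFDerivAt (fun x : F => x - b) (ContinuousLinearMap.id ℝ F) b :=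
        (hasFDerivAt_id b).sub_const b
      have e3 : HasFDerivAt (fun y : F => (A : F →L[ℝ] F) y) (A : F →L[ℝ] F)
        ((fun x : F => x - b) b) := (A : F →L[ℝ] F).hasFDerivAt
      have e2 := HasFDerivAt.comp (f := fun x : F => x - b) b e3 e1
      exact e2.const_add a
    have h2 := h1.comp b h0
    have h3 : (A.symm : F →L[ℝ] F).comp (A : F →L[ℝ] F) = ContinuousLinearMap.id ℝ F := by
      ext x; simp
    rw [h3] at h2
    exact h2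
  obtain ⟨ρ', hρ', hρ1, hρ2⟩ : ∃ ρ' : ℝ, 0 < ρ' ∧ ‖b‖ + ρ' < s ∧
      k * (‖b‖ + ρ') < ‖b‖ - ρ' := by
    refine ⟨min ((s - ‖b‖) / 2) (‖b‖ * (1 - k) / 4), lt_min (by linarith) ?_, ?_, ?_⟩
    · have : 0 < 1 - k := by linarith
      positivity
    · have := min_le_left ((s - ‖b‖) / 2) (‖b‖ * (1 - k) / 4)
      linarith
    · have h1 := min_le_right ((s - ‖b‖) / 2) (‖b‖ * (1 - k) / 4)
      have h0 : 0 < min ((s - ‖b‖) / 2) (‖b‖ * (1 - k) / 4) := lt_min (by linarith) (by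
        have : 0 < 1 - k := by linarith
        positivity)
      have h2 : 0 < ‖b‖ * (1 - k) := mul_pos hbpos (by linarith)
      nlinarith
  obtain ⟨K, hK1, hK2, hK3, ⟨s1, hs1, hK4⟩, hK5⟩ :=
    exists_patch_equiv J b hJb hJc hJd ε ρ' hε hε2 hρ'
  have hρb : ρ' ≤ ‖b‖ := by nlinarith
  have hK : Sml (r / 2) ε K := ⟨hK1, hK2, fun z hz => hK3 z (by
    have := norm_sub_norm_le z b
    linarith), hK5, hK3 0 (by simpa using hρb)⟩
  have hok := hK.ok d (hk2.sub' (by linarith))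
  obtain ⟨h1, h2, h3⟩ := hh K hK hok
  -- points outside the support
  let S : Set M := {x | x ∈ d.src ∧ ‖d.φ x - b‖ < ρ'}
  have hlS : ∀ x, x ∉ S → liftD d K hok x = x := by
    intro x hx
    apply liftD_off
    intro hxs
    apply hK3
    by_contra hcon
    exact hx ⟨hxs, not_le.1 hcon⟩
  have hSd : ∀ x, x ∈ S → ‖d.φ x‖ < ‖b‖ + ρ' ∧ ‖b‖ - ρ' < ‖d.φ x‖ := by
    intro x hx
    have e1 := norm_sub_norm_le (d.φ x) b
    have e2 := norm_sub_norm_le b (d.φ x)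
    rw [norm_sub_rev] at e2
    have e3 := hx.2
    constructor <;> linarith
  have hret : ∀ x ∈ S, ∀ j : ℕ, f^[j + 1] x ∉ S := by
    intro x hx j hxj
    have e1 := hSd x hx
    have e2 := hSd _ hxj
    let v' := d.φ (f^[j + 1] x)
    have e3 : (⇑f⁻¹)^[j + 1] (d.ψ v') = d.ψ (((L' : F →L[ℝ] F) ^ (j + 1)) v') :=
      lin_iter (L := (L' : F →L[ℝ] F)) hld
        (fun z => (hLk' z).trans (by nlinarith [norm_nonneg z])) _ _ (by
          change ‖d.φ (f^[j + 1] x)‖ < s; linarith)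
    have e4 : d.ψ v' = f^[j + 1] x := d.ψφ _ hxj.1
    rw [e4, inv_iter] at e3
    have e5 := pow_norm_le hk0.le (L := (L' : F →L[ℝ] F)) hLk' (j + 1) v'
    have e6 : d.φ x = ((L' : F →L[ℝ] F) ^ (j + 1)) v' := by
      rw [e3, d.φψ]
      refine hk2.tgt ?_
      have : k ^ (j + 1) ≤ 1 := pow_le_one₀ hk0.le hk1'.le
      have h7 : k ^ (j + 1) * ‖v'‖ ≤ 1 * ‖v'‖ := mul_le_mul_of_nonneg_right this (norm_nonneg _)
      have h8 : ‖v'‖ < ‖b‖ + ρ' := e2.1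
      linarith
    rw [← e6] at e5
    have h7 : k ^ (j + 1) ≤ k := by
      calc k ^ (j + 1) ≤ k ^ 1 := pow_le_pow_of_le_one hk0.le hk1'.le (by omega)
        _ = k := pow_one k
    have h8 : k ^ (j + 1) * ‖v'‖ ≤ k * (‖b‖ + ρ') :=
      mul_le_mul h7 e2.1.le (norm_nonneg _) hk0.le
    linarith [e1.2]
  have hiter : ∀ x ∈ S, ∀ j : ℕ, (f * liftD d K hok)^[j] (f x) = f^[j] (f x) := by
    intro x hx j
    induction j with
    | zero => rfl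
    | succ j ih =>
      rw [Function.iterate_succ_apply', Function.iterate_succ_apply', ih, d1_mul_apply, hlS]
      rw [← Function.iterate_succ_apply]
      exact hret x hx j
  have hev : ∀ᶠ u in 𝓝 b, ‖u - b‖ < s1 ∧ ‖u - b‖ < ρ' ∧ ‖a + A (u - b)‖ < s ∧
      g⁻¹ (c.ψ (a + A (u - b))) ∈ d.src := by
    have e0 : ContinuousAt (fun u => a + A (u - b)) b :=
      (continuous_const.add (A.continuous.comp (continuous_id.sub continuous_const))).continuousAt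
    have e1 : ∀ᶠ w in 𝓝 (a + A (b - b)), g⁻¹ (c.ψ w) ∈ d.src := by
      rw [haff]
      filter_upwards [ev_expr c d g⁻¹ hat hga] with w hw using hw.2
    have e2 : ∀ᶠ u in 𝓝 b, ‖a + A (u - b)‖ < s :=
      e0.norm.eventually_lt continuousAt_const (by rw [haff]; exact hna)
    filter_upwards [Metric.ball_mem_nhds b hs1, Metric.ball_mem_nhds b hρ', e2,
      e0.eventually e1] with u p1 p2 p3 p4
    exact ⟨by simpa [dist_eq_norm] using p1, by simpa [dist_eq_norm] using p2, p3, p4⟩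
  obtain ⟨s2, hs2, hball⟩ := Metric.eventually_nhds_iff_ball.1 hev
  have hρmin : 0 < min (s2 / 2) (ρ' / 2) := lt_min (by linarith) (by linarith)
  have hρl := min_le_left (s2 / 2) (ρ' / 2)
  have hρr := min_le_right (s2 / 2) (ρ' / 2)
  refine ⟨_, h2, h1, A, k, ‖b‖ + ρ', min (s2 / 2) (ρ' / 2), b, a, N, ?_, ?_, hs, hsr, by linarith,
    hk0, hk1', hLk, hLk', hρmin, by linarith, by nlinarith, ?_⟩
  · intro z hz
    rw [h3 _ ⟨c.ψ_mem z (hk1.tgt (by linarith)), by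
      rw [c.φψ z (hk1.tgt (by linarith))]; linarith⟩, hlc z hz]
  · intro z hz
    have e1 : ‖L' z‖ ≤ k * ‖z‖ := hLk' z
    have e2 : k * ‖z‖ ≤ k * (‖b‖ + ρ') := mul_le_mul_of_nonneg_left hz.le hk0.le
    have e3 : d.ψ (L' z) ∉ S := by
      intro hS
      have e4 := (hSd _ hS).2
      rw [d.φψ _ (hk2.tgt (by linarith))] at e4
      linarith
    have e5 := hlS _ e3
    rw [mul_inv_rev, d1_mul_apply, hld z (by linarith)]
    conv_lhs => rw [← e5]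
    exact d1_self_inv _ _
  · intro u hu
    have hu' : u ∈ Metric.ball b s2 := by
      rw [Metric.mem_ball, dist_eq_norm]; linarith
    obtain ⟨p1, p2, p3, p4⟩ := hball u hu'
    refine ⟨p3, ?_⟩
    have hut : u ∈ d.tgt := hk2.tgt (by
      have := norm_sub_norm_le u b
      linarith)
    have hKu : ‖K u - b‖ < ρ' := center_lt hK3 p2
    have hKut : K u ∈ d.tgt := hk2.tgt (by
      have := norm_sub_norm_le (K u) b
      linarith)
    have hS : d.ψ (K u) ∈ S := ⟨d.ψ_mem _ hKut, by rw [d.φψ _ hKut]; exact hKu⟩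
    have e1 : (f * liftD d K hok) (d.ψ u) = f (d.ψ (K u)) := by
      rw [d1_mul_apply, liftD_src d hok (d.ψ_mem u hut), d.φψ u hut]
    rw [hN', Function.iterate_succ_apply, e1, hiter _ hS, ← Function.iterate_succ_apply, ← hN',
      ← hgx, hK4 u p1]
    simp only [J]
    rw [d.ψφ _ p4, d1_inv_self]

theorem Gd.near_cd (hg : Gd P c d r f) {W : Set (M ≃ₘ^1⟮I, I⟯ M)} (hW : W ∈ 𝓝 f) :
    ∃ ε : ℝ, 0 < ε ∧ ε ≤ 1 / 2 ∧ ∀ (K₁ K₂ : F ≃ F) (_ : Sml (r / 2) ε K₁)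
      (_ : Sml (r / 2) ε K₂) (h₁ : LiftOK c K₁) (h₂ : LiftOK d K₂),
      Gd P c d r (f * (liftD c K₁ h₁ * liftD d K₂ h₂)) ∧
        f * (liftD c K₁ h₁ * liftD d K₂ h₂) ∈ W := by
  obtain ⟨k1, hk1⟩ := hg.snk
  obtain ⟨k2, hk2⟩ := hg.src
  have hr2 : r / 2 ≤ r := by linarith [hk1.hr]
  have hWm := near_mul hW
  have hcont : ContinuousAt (fun p : (M ≃ₘ^1⟮I, I⟯ M) × (M ≃ₘ^1⟮I, I⟯ M) => p.1 * p.2) (1, 1) :=
    continuous_mul.continuousAt
  have hpre : (fun p : (M ≃ₘ^1⟮I, I⟯ M) × (M ≃ₘ^1⟮I, I⟯ M) => p.1 * p.2) ⁻¹' {h | f * h ∈ W}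
      ∈ 𝓝 ((1 : M ≃ₘ^1⟮I, I⟯ M), (1 : M ≃ₘ^1⟮I, I⟯ M)) := by
    refine hcont ?_
    simpa using hWm
  rw [nhds_prod_eq, mem_prod_iff] at hpre
  obtain ⟨V1, hV1, V2, hV2, hV⟩ := hpre
  obtain ⟨ε1, hε1, hh1⟩ := near_one c (hk1.sub' hr2) hV1
  obtain ⟨ε2, hε2, hh2⟩ := near_one d (hk2.sub' hr2) hV2
  have a1 := hk1.hk0
  have a2 := hk1.hk1
  have b1 := hk2.hk0
  have b2 := hk2.hk1
  let ε' := min (min ε1 ε2) (min (1 / 2) (min ((1 - k1) / 2) ((1 - k2) / 2)))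
  have h1 : 0 < ε' := lt_min (lt_min hε1 hε2) (lt_min (by norm_num)
    (lt_min (by linarith) (by linarith)))
  have h2 : ε' ≤ (1 - k1) / 2 :=
    (min_le_right _ _).trans ((min_le_right _ _).trans (min_le_left _ _))
  have h2' : ε' ≤ (1 - k2) / 2 :=
    (min_le_right _ _).trans ((min_le_right _ _).trans (min_le_right _ _))
  have h3 : ε' ≤ 1 / 2 := (min_le_right _ _).trans (min_le_left _ _)
  refine ⟨ε', h1, h3, fun K₁ K₂ hK₁ hK₂ h₁ h₂ => ?_⟩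
  obtain ⟨g1, g2⟩ := hg.pert_c hk1 hK₁ h1.le (by nlinarith) h₁
  have hk2' : SinkAt d (f * liftD c K₁ h₁)⁻¹ k2 r := hk2.congr g2
  obtain ⟨g3, g4⟩ := g1.pert_d hk2' hK₂ (by linarith)
    (by rw [div_lt_one (by linarith)]; linarith) h₂
  rw [mul_assoc] at g3
  refine ⟨g3, ?_⟩
  exact hV (mk_mem_prod (hh1 K₁ (hK₁.mono le_rfl ((min_le_left _ _).trans (min_le_left _ _))))
    (hh2 K₂ (hK₂.mono le_rfl ((min_le_left _ _).trans (min_le_right _ _)))))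

theorem Gd.final (hg : Gd P c d r f) {W : Set (M ≃ₘ^1⟮I, I⟯ M)} (hW : W ∈ 𝓝 f)
    {L L' A : F ≃L[ℝ] F} {k s t ρ : ℝ} {b a : F} {N : ℕ}
    (hc : Conn c d f L L' A r k s t ρ b a N) (w : F) (hw : w ≠ 0) (C : ℝ)
    (hC1 : ∀ n : ℕ, ‖((L' : F →L[ℝ] F) ^ n) w‖ * ‖(L'.symm : F →L[ℝ] F) ^ n‖ ≤ C)
    (hC2 : ∀ n : ℕ, ‖((L : F →L[ℝ] F) ^ n) (A w)‖ * ‖(L.symm : F →L[ℝ] F) ^ n‖ ≤ C) :
    ∃ f' ∈ W, AxiomA f' ∧ NoCycles f' ∧ P f' ∧ ¬ TrivialCentralizer f' := by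
  obtain ⟨ε, hε, hε2, hnear⟩ := hg.near_cd hW
  obtain ⟨k1, hk1⟩ := hg.snk
  obtain ⟨k2, hk2⟩ := hg.src
  have hC0 : 0 ≤ C := le_trans (by positivity) (hC1 0)
  obtain ⟨σ, κ, hσc, hκc, hσs, hκs, hσe, hκe, hκ1, hσb, hσn, hrel⟩ :=
    exists_action w hw b ρ hc.ρ0
  let a' : ℝ := 1 + ‖(A.symm : F →L[ℝ] F)‖
  have ha' : 0 < a' := by positivity
  let δ : ℝ := ε / (1 + C * a')
  have hδ : 0 < δ := by positivity
  have hCδ : C * a' * δ ≤ ε := by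
    have h1 : (1 + C * a') * δ = ε := by
      have : (1 + C * a') ≠ 0 := by positivity
      simp only [δ]; field_simp
    nlinarith
  have evσ : ∀ ε' > 0, ∃ η > 0, ∀ s, |s| < η → ∀ x, ‖fderiv ℝ (σ s) x‖ ≤ ε' := by
    intro ε' hε'
    obtain ⟨η, hη, h⟩ := Metric.eventually_nhds_iff.1 (hσe ε' hε')
    exact ⟨η, hη, fun s hs => h (by simpa [Real.dist_eq] using hs)⟩
  have evκ : ∀ ε' > 0, ∃ η > 0, ∀ l, |l - 1| < η → ∀ x, ‖fderiv ℝ (κ l) x‖ ≤ ε' := by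
    intro ε' hε'
    obtain ⟨η, hη, h⟩ := Metric.eventually_nhds_iff.1 (hκe ε' hε')
    exact ⟨η, hη, fun s hs => h (by simpa [Real.dist_eq] using hs)⟩
  obtain ⟨η1, hη1, hσ1⟩ := evσ δ hδ
  obtain ⟨η2, hη2, hκ2⟩ := evκ δ hδ
  obtain ⟨m, hm⟩ := exists_nat_gt (4 + 1 / η1 + 1 / η2)
  have i1 : 0 < 1 / η1 := by positivity
  have i2 : 0 < 1 / η2 := by positivity
  have hm4 : (4 : ℝ) < m := by linarith
  have hmη1 : 1 / η1 < m := by linarith
  have hmη2 : 1 / η2 < m := by linarith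
  -- the parameters
  let sj : ℤ → ℝ := fun j => 1 / ((m : ℝ) + (DD N j : ℝ))
  let lj : ℤ → ℝ := fun j => sj (j + 1) / sj j
  have hD0 : ∀ j, (0 : ℝ) ≤ (DD N j : ℝ) := fun j => by exact_mod_cast DD_nonneg N j
  have hpos : ∀ j, (0 : ℝ) < (m : ℝ) + (DD N j : ℝ) := fun j => by linarith [hD0 j]
  have hspos : ∀ j, 0 < sj j := fun j => one_div_pos.2 (hpos j)
  have hsle : ∀ j, sj j < 1 / 4 := by
    intro j
    have h1 := hpos j
    rw [div_lt_div_iff₀ h1 (by norm_num)]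
    linarith [hD0 j]
  have hsη : ∀ j, |sj j| < η1 := by
    intro j
    rw [abs_of_pos (hspos j), div_lt_iff₀ (hpos j)]
    have h1 : 1 = η1 * (1 / η1) := by field_simp
    have h2 : η1 * (1 / η1) < η1 * ((m : ℝ) + (DD N j : ℝ)) :=
      mul_lt_mul_of_pos_left (by linarith [hD0 j]) hη1
    linarith
  have hl1 : ∀ j, |lj j - 1| ≤ 1 / ((m : ℝ) + (DD N (j + 1) : ℝ)) := by
    intro j
    have h1 := hpos j
    have h2 := hpos (j + 1)
    have h3 : lj j - 1 = ((DD N j : ℝ) - DD N (j + 1)) / ((m : ℝ) + (DD N (j + 1) : ℝ)) := by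
      simp only [lj, sj]
      field_simp
      ring
    rw [h3, abs_div, abs_of_pos h2]
    refine div_le_div_of_nonneg_right ?_ h2.le
    have h4 : |(DD N (j + 1) : ℝ) - DD N j| ≤ 1 := by exact_mod_cast DD_step N j
    rwa [abs_sub_comm] at h4
  have hl2 : ∀ j, |lj j - 1| ≤ 1 / 4 := by
    intro j
    refine (hl1 j).trans ?_
    rw [div_le_div_iff₀ (hpos _) (by norm_num)]
    linarith [hD0 (j + 1)]
  have hlη : ∀ j, |lj j - 1| < η2 := by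
    intro j
    refine (hl1 j).trans_lt ?_
    rw [div_lt_iff₀ (hpos _)]
    have h1 : 1 = η2 * (1 / η2) := by field_simp
    have h2 : η2 * (1 / η2) < η2 * ((m : ℝ) + (DD N (j + 1) : ℝ)) :=
      mul_lt_mul_of_pos_left (by linarith [hD0 (j + 1)]) hη2
    linarith
  have hlim : ∀ η > 0, ∃ N₀ : ℤ, ∀ j : ℤ, N₀ ≤ |j| → sj j < η ∧
      1 / ((m : ℝ) + (DD N (j + 1) : ℝ)) < η := by
    intro η hη
    obtain ⟨m', hm'⟩ := exists_nat_gt (1 / η)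
    refine ⟨(m' : ℤ) + N + 1, fun j hj => ?_⟩
    have e1 : (m' : ℤ) ≤ DD N j := by
      have := DD_ge N j
      omega
    have e2 : (m' : ℤ) ≤ DD N (j + 1) := by
      have h1 := DD_ge N (j + 1)
      have h2 : |j| ≤ |j + 1| + 1 := by
        have := abs_sub (j + 1) 1
        simpa using this
      omega
    have e1' : (m' : ℝ) ≤ (DD N j : ℝ) := by exact_mod_cast e1
    have e2' : (m' : ℝ) ≤ (DD N (j + 1) : ℝ) := by exact_mod_cast e2
    have h1 : 1 = η * (1 / η) := by field_simp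
    constructor
    · change 1 / ((m : ℝ) + (DD N j : ℝ)) < η
      rw [div_lt_iff₀ (hpos _)]
      have h2 : η * (1 / η) < η * ((m : ℝ) + (DD N j : ℝ)) :=
        mul_lt_mul_of_pos_left (by linarith) hη
      linarith
    · rw [div_lt_iff₀ (hpos _)]
      have h2 : η * (1 / η) < η * ((m : ℝ) + (DD N (j + 1) : ℝ)) :=
        mul_lt_mul_of_pos_left (by linarith) hη
      linarith
  -- the diffeomorphism `K`
  obtain ⟨T1, T2, hT1, hT2, hTT⟩ := build c d hc hk1.sub hk2.sub w C hC1 hC2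
    (fun j => κ (lj j)) (fun j => hκc _ (hl2 j)) (fun j x hx => hκs _ x hx)
    (by
      intro j h0 hN x
      have h1 : lj j = 1 := by
        obtain ⟨e1, e2⟩ := DD_zero N j h0 hN
        simp only [lj, sj]
        rw [e1, e2]
        have : (m : ℝ) + ((0 : ℤ) : ℝ) ≠ 0 := by simp; intro h; rw [h] at hm4; norm_num at hm4
        field_simp
      rw [h1]; exact hκ1 x)
    δ ε (fun j x => hκ2 _ (hlη j) x)
    (by
      intro ε' hε'
      obtain ⟨η, hη, h⟩ := evκ ε' hε'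
      obtain ⟨N₀, hN₀⟩ := hlim η hη
      exact ⟨N₀, fun j hj x => h _ ((hl1 j).trans_lt (hN₀ j hj).2) x⟩)
    hCδ hε2
  have hsr := hc.sr
  have htr := hc.tr
  have hS1 : Sml (r / 2) ε T1 := hT1.mono hsr le_rfl
  have hS2 : Sml (r / 2) ε T2 := hT2.mono htr le_rfl
  have hr := hk1.hr
  have hok1 : LiftOK c T1 := hS1.ok c (hk1.sub' (by linarith))
  have hok2 : LiftOK d T2 := hS2.ok d (hk2.sub' (by linarith))
  obtain ⟨hgood, hfW⟩ := hnear T1 T2 hS1 hS2 hok1 hok2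
  obtain ⟨hK1, hK2⟩ := hTT hok1 hok2
  -- the diffeomorphism `G`
  let g : M ≃ₘ^1⟮I, I⟯ M := f ^ N
  let e := c.pull g
  have hcomm : ∀ x, g⁻¹ (f x) = f (g⁻¹ x) := by
    intro x
    have : g⁻¹ * f = f * g⁻¹ := (Commute.pow_self f N).inv_left.eq
    exact DFunLike.congr_fun this x
  have hce : Conn e d f L L' A r k s t ρ b a 0 := by
    refine ⟨?_, hc.lind, hc.s0, hc.sr, hc.tr, hc.k0, hc.k1, hc.Lk, hc.Lk', hc.ρ0, hc.bt, hc.bk, ?_⟩
    · intro z hz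
      change f (g⁻¹ (c.ψ z)) = g⁻¹ (c.ψ (L z))
      rw [← hcomm, hc.linc z hz]
    · intro u hu
      obtain ⟨e1, e2⟩ := hc.trans u hu
      refine ⟨e1, ?_⟩
      change d.ψ u = g⁻¹ (c.ψ (a + A (u - b)))
      rw [← e2, ← d1_pow_apply]
      exact (d1_self_inv g _).symm
  obtain ⟨T3, T4, hT3, hT4, hTG⟩ := build e d hce hk1.sub hk2.sub w C hC1 hC2
    (fun j => σ (sj j))
    (fun j => hσc _ (by rw [abs_of_pos (hspos j)]; linarith [hsle j]))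
    (fun j x hx => hσs _ x hx) (by intro j h0 h1; exact absurd h1 (not_lt.2 (by simpa using h0)))
    δ ε (fun j x => hσ1 _ (hsη j) x)
    (by
      intro ε' hε'
      obtain ⟨η, hη, h⟩ := evσ ε' hε'
      obtain ⟨N₀, hN₀⟩ := hlim η hη
      exact ⟨N₀, fun j hj x => h _ (by rw [abs_of_pos (hspos j)]; exact (hN₀ j hj).1) x⟩)
    hCδ hε2
  have hok3 : LiftOK e T3 := hT3.ok e ((hk1.sub' (by linarith) : _ ⊆ c.tgt))
  have hok4 : LiftOK d T4 := hT4.ok d (hk2.sub' (by linarith))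
  obtain ⟨hG1, hG2⟩ := hTG hok3 hok4
  generalize hKdef : liftD c T1 hok1 * liftD d T2 hok2 = K at hK1 hK2 hgood hfW
  generalize hGdef : liftD e T3 hok3 * liftD d T4 hok4 = G at hG1 hG2
  have hfj : ∀ (j : ℤ) (x : M), f ((f ^ j) x) = (f ^ (j + 1)) x := by
    intro j x
    rw [add_comm, zpow_add, zpow_one]; rfl
  refine ⟨f * K, hfW, hgood.ax, hgood.nc, hgood.ex, fun htriv => ?_⟩
  have hcommG : G * (f * K) = (f * K) * G := by
    apply Diffeomorph.ext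
    intro x
    rw [d1_mul_apply, d1_mul_apply, d1_mul_apply, d1_mul_apply]
    by_cases hx : ∃ (j : ℤ) (u : F), ‖u - b‖ ≤ ρ ∧ x = (f ^ j) (d.ψ u)
    · obtain ⟨j, u, hu, rfl⟩ := hx
      obtain ⟨p1, p2⟩ := hK1 j u hu
      obtain ⟨q1, q2⟩ := hG1 j u hu
      obtain ⟨p3, p4⟩ := hK1 j _ q1
      obtain ⟨q3, q4⟩ := hG1 (j + 1) _ p1
      beta_reduce at p1 p2 p3 p4 q1 q2 q3 q4
      rw [p2, q2, p4, hfj, hfj, q4]
      have hsj : sj (j + 1) = lj j * sj j := by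
        simp only [lj]
        rw [div_mul_cancel₀ _ (hspos j).ne']
      have hr1 := hrel (lj j) (sj j) u (hl2 j)
        (by rw [abs_of_pos (hspos j)]; linarith [hsle j])
      rw [← hsj] at hr1
      congr 2
      have e1 : u + κ (lj j) u • w + σ (sj (j + 1)) (u + κ (lj j) u • w) • w
          = u + (σ (sj (j + 1)) (u + κ (lj j) u • w) + κ (lj j) u) • w := by
        rw [add_smul]; abel
      have e2 : u + σ (sj j) u • w + κ (lj j) (u + σ (sj j) u • w) • w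
          = u + (κ (lj j) (u + σ (sj j) u • w) + σ (sj j) u) • w := by
        rw [add_smul]; abel
      rw [e1, e2, hr1]
    · have hx' : ∀ (j : ℤ) (u : F), ‖u - b‖ ≤ ρ → x ≠ (f ^ j) (d.ψ u) :=
        fun j u hu heq => hx ⟨j, u, hu, heq⟩
      have hfx : ∀ (j : ℤ) (u : F), ‖u - b‖ ≤ ρ → f x ≠ (f ^ j) (d.ψ u) := by
        intro j u hu heq
        apply hx' (j - 1) u hu
        have h1 : f⁻¹ (f x) = f⁻¹ ((f ^ j) (d.ψ u)) := by rw [heq]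
        rw [d1_self_inv] at h1
        rw [h1]
        have : f ^ (j - 1) = f⁻¹ * f ^ j := by
          rw [sub_eq_neg_add, zpow_add, zpow_neg, zpow_one]
        rw [this]; rfl
      rw [hK2 x hx', hG2 x hx', hK2 x hx', hG2 _ hfx]
  obtain ⟨n, hn⟩ := htriv G hcommG
  obtain ⟨k3, hk3⟩ := hgood.src
  have hρ0 := hc.ρ0
  have hbt := hc.bt
  have hbk := hc.bk
  have hk0 := hc.k0
  have hb0 : 0 < ‖b‖ := by
    by_contra hcon
    have h1 : ‖b‖ = 0 := le_antisymm (not_lt.1 hcon) (norm_nonneg _)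
    rw [h1] at hbk
    nlinarith
  have hbρ : 0 < ‖b‖ - ρ := by nlinarith
  rcases eq_or_ne n 0 with h0 | h0
  · -- `G` is not the identity
    rw [h0, zpow_zero] at hn
    obtain ⟨p1, p2⟩ := hG1 0 b (by simpa using hρ0.le)
    rw [hn, zpow_zero] at p2
    have p3 : d.ψ b = d.ψ (b + σ (sj 0) b • w) := p2
    have p4 := congrArg d.φ p3
    have hbm : b ∈ d.tgt := hk2.tgt (by linarith)
    have hbm' : b + σ (sj 0) b • w ∈ d.tgt := hk2.tgt (by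
      beta_reduce at p1
      have := norm_sub_norm_le (b + σ (sj 0) b • w) b
      linarith)
    rw [d.φψ b hbm, d.φψ _ hbm'] at p4
    have p5 : σ (sj 0) b • w = 0 := by
      have := p4.symm
      rwa [add_eq_left] at this
    rcases smul_eq_zero.1 p5 with h | h
    · exact hσb (sj 0) (by rw [abs_of_pos (hspos 0)]; linarith [hsle 0]) (hspos 0).ne' h
    · exact hw h
  · -- a wandering fixed point of `G`
    let u := b + (ρ / ‖b‖) • b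
    have hu1 : ‖u - b‖ = ρ := by
      have h1 : u - b = (ρ / ‖b‖) • b := by simp only [u, add_sub_cancel_left]
      rw [h1, norm_smul, Real.norm_eq_abs, abs_of_pos (div_pos hρ0 hb0),
        div_mul_cancel₀ _ hb0.ne']
    obtain ⟨-, p2⟩ := hG1 0 u hu1.le
    have hσ0 : σ (sj 0) u = 0 := hσs _ _ hu1.ge
    beta_reduce at p2
    rw [hσ0, zero_smul, add_zero, zpow_zero, hn] at p2
    have p3 : ((f * K) ^ n) (d.ψ u) = d.ψ u := p2
    have hΩ : d.ψ u ∈ Omega (f * K) := by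
      have key : ∀ m : ℕ, m ≠ 0 → (f * K)^[m] (d.ψ u) = d.ψ u → d.ψ u ∈ Omega (f * K) := by
        intro m hm h U hU
        exact ⟨m, Nat.one_le_iff_ne_zero.2 hm, d.ψ u, ⟨d.ψ u, mem_of_mem_nhds hU, h⟩,
          mem_of_mem_nhds hU⟩
      obtain ⟨m, rfl | rfl⟩ := n.eq_nat_or_neg
      · refine key m (by simpa using h0) ?_
        rw [iter_zpow]; exact p3
      · refine key m (by simpa using h0) ?_
        have h1 : ((f * K) ^ (m : ℤ)) (((f * K) ^ (-(m : ℤ))) (d.ψ u)) = d.ψ u := by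
          rw [zpow_add_apply, add_neg_cancel, zpow_zero]; rfl
        rw [p3] at h1
        rw [iter_zpow]; exact h1
    have hut : ‖u‖ < r := by
      have := norm_sub_norm_le u b
      linarith
    have hum : u ∈ d.tgt := hk2.tgt hut.le
    have h1 := hk3.omega (x := d.ψ u) (d.ψ_mem u hum) (by rw [d.φψ u hum]; exact hut)
      (by rw [Omega_inv]; exact hΩ)
    have h2 := congrArg d.φ h1
    rw [d.φψ u hum, hk3.φp] at h2
    have h3 := norm_sub_norm_le b u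
    rw [norm_sub_rev, hu1, h2, norm_zero] at h3
    linarith

/-- The perturbation theorem. -/
theorem Gd.main (hg : Gd P c d r f) {W : Set (M ≃ₘ^1⟮I, I⟯ M)} (hW : W ∈ 𝓝 f)
    (L L' : F ≃L[ℝ] F) (hL : HasFDerivAt (fun z => c.φ (f (c.ψ z))) (L : F →L[ℝ] F) 0)
    (hL' : HasFDerivAt (fun z => d.φ (f⁻¹ (d.ψ z))) (L' : F →L[ℝ] F) 0)
    (hal : ∀ A : F ≃L[ℝ] F, ∃ (w : F) (C : ℝ), w ≠ 0 ∧
      (∀ n : ℕ, ‖((L' : F →L[ℝ] F) ^ n) w‖ * ‖(L'.symm : F →L[ℝ] F) ^ n‖ ≤ C) ∧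
      ∀ n : ℕ, ‖((L : F →L[ℝ] F) ^ n) (A w)‖ * ‖(L.symm : F →L[ℝ] F) ^ n‖ ≤ C) :
    ∃ f' ∈ W, AxiomA f' ∧ NoCycles f' ∧ P f' ∧ ¬ TrivialCentralizer f' := by
  obtain ⟨k1, hk1⟩ := hg.snk
  obtain ⟨k2, hk2⟩ := hg.src
  have hr := hk1.hr
  obtain ⟨f1, hf1V, hg1, ⟨s1, hs1, hlin1⟩, heq1⟩ := hg.lin_c (interior_mem_nhds.2 hW) L hL
  have hL1 : HasFDerivAt (fun z => d.φ (f1⁻¹ (d.ψ z))) (L' : F →L[ℝ] F) 0 := by
    refine hL'.congr_of_eventuallyEq ?_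
    filter_upwards [Metric.closedBall_mem_nhds (0 : F) hr] with z hz
    have hz' : ‖z‖ ≤ r := by simpa using hz
    rw [heq1 (d.ψ z) ⟨d.ψ_mem z (hk2.tgt hz'), by rw [d.φψ z (hk2.tgt hz')]; exact hz'⟩]
  obtain ⟨f2, hf2V, hg2, ⟨s2, hs2, hlin2⟩, heq2⟩ := hg1.lin_d
    (isOpen_interior.mem_nhds hf1V) L' hL1
  let s := min (min s1 s2) (r / 2)
  have hs : 0 < s := lt_min (lt_min hs1 hs2) (by linarith)
  have hsr : s ≤ r / 2 := min_le_right _ _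
  have hss1 : s ≤ s1 := (min_le_left _ _).trans (min_le_left _ _)
  have hss2 : s ≤ s2 := (min_le_left _ _).trans (min_le_right _ _)
  have hlc : ∀ z, ‖z‖ < s → f2 (c.ψ z) = c.ψ (L z) := by
    intro z hz
    have hz' : ‖z‖ ≤ r := by linarith
    rw [heq2 (c.ψ z) ⟨c.ψ_mem z (hk1.tgt hz'), by rw [c.φψ z (hk1.tgt hz')]; exact hz'⟩]
    exact hlin1 z (hz.trans_le hss1)
  have hld : ∀ z, ‖z‖ < s → f2⁻¹ (d.ψ z) = d.ψ (L' z) := fun z hz =>
    hlin2 z (hz.trans_le hss2)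
  obtain ⟨f3, hf3V, hg3, A, k, t, ρ, b, a, N, hconn⟩ := hg2.conn_lin
    (isOpen_interior.mem_nhds hf2V) L L' hs hlc hld hsr
  obtain ⟨w, C, hw, hC1, hC2⟩ := hal A
  obtain ⟨f', hf', h1, h2, hex, h3⟩ := hg3.final (isOpen_interior.mem_nhds hf3V) hconn w hw C hC1 hC2
  exact ⟨f', interior_subset hf', h1, h2, hex, h3⟩

end

/-- The general criterion: near `f` all Axiom A diffeomorphisms without cycles are limits of such
diffeomorphisms with nontrivial centralizer. -/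
theorem criterion' {P : (M ≃ₘ^1⟮I, I⟯ M) → Prop} [FiniteDimensional ℝ E] [IsManifold I ∞ M] [IsManifold I 1 M] [T2Space M]
    [LocallyConnectedSpace H] [FiniteDimensional ℝ F] {c d : Cht I M F} {f : M ≃ₘ^1⟮I, I⟯ M}
    {k₁ k₂ r : ℝ}
    (hst : ∀ (f f' : M ≃ₘ^1⟮I, I⟯ M) (p q : M) (C D : Set M), Pair f f' p q C D → P f → P f')
    (hc : SinkAt c f k₁ r) (hd : SinkAt d f⁻¹ k₂ r)
    (hne : c.ψ 0 ≠ d.ψ 0) (y : M) (hy1 : Tendsto (fun n : ℕ => f^[n] y) atTop (𝓝 (c.ψ 0)))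
    (hy2 : Tendsto (fun n : ℕ => (⇑f⁻¹)^[n] y) atTop (𝓝 (d.ψ 0))) (ε : ℝ) (hε : 0 < ε)
    (hal : ∀ L L' : F ≃L[ℝ] F,
      ‖(L : F →L[ℝ] F) - fderiv ℝ (fun z => c.φ (f (c.ψ z))) 0‖ ≤ ε →
      ‖(L' : F →L[ℝ] F) - fderiv ℝ (fun z => d.φ (f⁻¹ (d.ψ z))) 0‖ ≤ ε →
      ∀ A : F ≃L[ℝ] F, ∃ (w : F) (C : ℝ), w ≠ 0 ∧
      (∀ n : ℕ, ‖((L' : F →L[ℝ] F) ^ n) w‖ * ‖(L'.symm : F →L[ℝ] F) ^ n‖ ≤ C) ∧
      ∀ n : ℕ, ‖((L : F →L[ℝ] F) ^ n) (A w)‖ * ‖(L.symm : F →L[ℝ] F) ^ n‖ ≤ C) :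
    ∀ᶠ g : M ≃ₘ^1⟮I, I⟯ M in 𝓝 f, g ∈ OSet I M ∧ P g → ∀ W ∈ 𝓝 g,
      ∃ g' ∈ W, (g' ∈ OSet I M ∧ P g') ∧ ¬ TrivialCentralizer g' := by
  have hr := hc.hr
  -- small radius
  obtain ⟨u, v, hu, hv, hcu, hdv, huv⟩ := t2_separation hne
  have hsmall : ∀ (e : Cht I M F) (k : ℝ) (h : M ≃ₘ^1⟮I, I⟯ M) (_ : SinkAt e h k r) (u : Set M)
      (_ : IsOpen u) (_ : e.ψ 0 ∈ u), ∃ r' > 0, r' ≤ r ∧ disk e r' ⊆ u := by
    intro e k h he u hu heu
    have h1 : ContinuousAt e.ψ 0 := (e.ψ_at he.zero_mem).continuousAt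
    obtain ⟨r', hr', hball⟩ := Metric.eventually_nhds_iff_ball.1 (h1 (hu.mem_nhds heu))
    refine ⟨min (r' / 2) r, lt_min (by linarith) hr, min_le_right _ _, fun x hx => ?_⟩
    have h2 : ‖e.φ x‖ < r' := by
      have := hx.2.trans (min_le_left _ _)
      linarith
    have h3 := hball (e.φ x) (by simpa using h2)
    have h4 : e.ψ (e.φ x) ∈ u := h3
    rwa [e.ψφ x hx.1] at h4
  obtain ⟨r1, hr1, hr1r, hdc⟩ := hsmall c k₁ f hc u hu hcu
  obtain ⟨r2, hr2, hr2r, hdd⟩ := hsmall d k₂ f⁻¹ hd v hv hdv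
  let ρ := min r1 r2
  have hρ : 0 < ρ := lt_min hr1 hr2
  have hdisj : Disjoint (disk c ρ) (disk d ρ) := by
    refine huv.mono ?_ ?_
    · exact (disk_mono c (min_le_left _ _)).trans hdc
    · exact (disk_mono d (min_le_right _ _)).trans hdd
  have hc' : SinkAt c f k₁ ρ := hc.mono hρ ((min_le_left _ _).trans hr1r)
  have hd' : SinkAt d f⁻¹ k₂ ρ := hd.mono hρ ((min_le_right _ _).trans hr2r)
  -- a connecting orbit
  have hopen : ∀ e : Cht I M F, IsOpen {x | x ∈ e.src ∧ ‖e.φ x‖ < ρ / 4} := by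
    intro e
    have h1 : ContinuousOn (fun x => ‖e.φ x‖) e.src := e.smooth_φ.continuousOn.norm
    have h2 := h1.isOpen_inter_preimage e.open_src (isOpen_Iio (a := ρ / 4))
    exact h2
  have hm1 : c.ψ 0 ∈ {x | x ∈ c.src ∧ ‖c.φ x‖ < ρ / 4} :=
    ⟨hc'.p_src, by rw [hc'.φp, norm_zero]; linarith⟩
  have hm2 : d.ψ 0 ∈ {x | x ∈ d.src ∧ ‖d.φ x‖ < ρ / 4} :=
    ⟨hd'.p_src, by rw [hd'.φp, norm_zero]; linarith⟩
  obtain ⟨n1, hn1⟩ := (hy1.eventually ((hopen c).mem_nhds hm1)).exists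
  obtain ⟨n2, hn2⟩ := (hy2.eventually ((hopen d).mem_nhds hm2)).exists
  let y' := (⇑f⁻¹)^[n2] y
  have hfy : f^[n1 + n2] y' ∈ {x | x ∈ c.src ∧ ‖c.φ x‖ < ρ / 4} := by
    rw [Function.iterate_add_apply]
    simp only [y']
    rw [iter_inv]; exact hn1
  have hev1 : ∀ᶠ g : M ≃ₘ^1⟮I, I⟯ M in 𝓝 f,
      g^[n1 + n2] y' ∈ {x | x ∈ c.src ∧ ‖c.φ x‖ < ρ / 4} := by
    have h1 : Continuous fun g : M ≃ₘ^1⟮I, I⟯ M => (g ^ (n1 + n2)) y' :=
      (H365R3.continuous_apply y').comp (continuous_pow (n1 + n2))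
    have h2 : (f ^ (n1 + n2)) y' ∈ {x | x ∈ c.src ∧ ‖c.φ x‖ < ρ / 4} := by
      rw [d1_pow_apply]; exact hfy
    have h3 := h1.continuousAt.eventually ((hopen c).mem_nhds h2)
    filter_upwards [h3] with g hg
    rwa [← d1_pow_apply]
  have hev2 := sink_near hc' ε hε
  have hev3 : ∀ᶠ g : M ≃ₘ^1⟮I, I⟯ M in 𝓝 f, ∃ a : F, ‖a‖ ≤ ε ∧ ‖a‖ ≤ ρ / 4 ∧
      SinkAt (d.shift a) g⁻¹ ((1 + k₂) / 2) (ρ / 2) ∧
      ‖fderiv ℝ (fun z => (d.shift a).φ (g⁻¹ ((d.shift a).ψ z))) 0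
        - fderiv ℝ (fun z => d.φ (f⁻¹ (d.ψ z))) 0‖ ≤ ε :=
    continuous_inv.continuousAt.eventually (sink_near hd' ε hε)
  have hdsub : ∀ (e : Cht I M F) (a : F), ‖a‖ ≤ ρ / 4 → disk (e.shift a) (ρ / 2) ⊆ disk e ρ := by
    intro e a ha x hx
    refine ⟨hx.1, ?_⟩
    have h1 : ‖e.φ x - a‖ ≤ ρ / 2 := hx.2
    have h2 := norm_sub_norm_le (e.φ x) a
    linarith
  have hdsub' : ∀ (e : Cht I M F) (a : F) (x : M), ‖a‖ ≤ ρ / 4 → x ∈ e.src → ‖e.φ x‖ < ρ / 4 →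
      x ∈ disk (e.shift a) (ρ / 2) := by
    intro e a x ha hx hx2
    refine ⟨hx, ?_⟩
    change ‖e.φ x - a‖ ≤ ρ / 2
    have := norm_sub_le (e.φ x) a
    linarith
  filter_upwards [hev1, hev2, hev3] with g hg1 hg2 hg3 hgO W hW
  obtain ⟨a, -, ha2, ha3, ha4⟩ := hg2
  obtain ⟨a', -, hb2, hb3, hb4⟩ := hg3
  have hgood : Gd P (c.shift a) (d.shift a') (ρ / 2) g := by
    refine ⟨hgO.1.1, hgO.1.2, hgO.2, hst, ⟨_, ha3⟩, ⟨_, hb3⟩, hdisj.mono (hdsub c a ha2) (hdsub d a' hb2),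
      n1 + n2, y', hdsub' d a' y' hb2 hn2.1 hn2.2, hdsub' c a _ ha2 hg1.1 hg1.2⟩
  obtain ⟨L, hL, -⟩ := equiv_expr (c.shift a) (c.shift a) g ha3.zero_mem
    (by rw [ha3.fix]; exact ha3.p_src)
  obtain ⟨L', hL', -⟩ := equiv_expr (d.shift a') (d.shift a') g⁻¹ hb3.zero_mem
    (by rw [hb3.fix]; exact hb3.p_src)
  obtain ⟨g', hg', h1, h2, hex, h3⟩ := hgood.main hW L L' hL hL'
    (hal L L' (by rw [← hL.fderiv]; exact ha4) (by rw [← hL'.fderiv]; exact hb4))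
  exact ⟨g', hg', ⟨⟨h1, h2⟩, hex⟩, h3⟩

end Pool.Agent.H365R4
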