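import Mathlib
import Pool.Agent.H365R4.Close

set_option autoImplicit false

open scoped Manifold ContDiff Topology
open Set Filter Bundle

noncomputable section

namespace Pool.Agent.H365R4

open Pool.Agent.H365R3

variable {f : T2 ≃ₘ^1⟮I2, I2⟯ T2} {g h : V2 → V2} {p q : T2} {C D : Set T2} {η B : ℝ}

/-- A link between two joints. -/
def RR (f : T2 ≃ₘ^1⟮I2, I2⟯ T2) (C D : Set T2) (a b : T2) : Prop :=
  Lk f a b ∧ a ∈ GG f C D ∧ b ∈ GG f C D

theorem chain_of_transGen {X : Type} {R : X → X → Prop} {a b : X} (h : Relation.TransGen R a b) :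
    ∃ (m : ℕ) (c : ℕ → X), c 0 = a ∧ c (m + 1) = b ∧ ∀ j ≤ m, R (c j) (c (j + 1)) := by
  induction h with
  | single hab =>
    rename_i b
    refine ⟨0, fun n => if n = 0 then a else b, rfl, rfl, fun j hj => ?_⟩
    have : j = 0 := by omega
    subst this
    exact hab
  | tail hab hbc ih =>
    rename_i b c'
    obtain ⟨m, c, h0, hm, hR⟩ := ih
    refine ⟨m + 1, fun n => if n ≤ m + 1 then c n else c', ?_, ?_, fun j hj => ?_⟩
    · beta_reduce
      rw [if_pos (by omega)]; exact h0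
    · beta_reduce
      rw [if_neg (by omega)]
    · beta_reduce
      rcases Nat.lt_or_ge j (m + 1) with hj' | hj'
      · rw [if_pos (by omega), if_pos (by omega)]; exact hR j (by omega)
      · have : j = m + 1 := by omega
        subst this
        rw [if_pos le_rfl, if_neg (by omega), hm]
        exact hbc

theorem per_omega {f : T2 ≃ₘ^1⟮I2, I2⟯ T2} : Function.periodicPts f ⊆ Omega f := by
  rintro x ⟨n, hn, hx⟩
  intro U hU
  exact ⟨n, hn, x, ⟨x, mem_of_mem_nhds hU, hx⟩, mem_of_mem_nhds hU⟩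

theorem omega_closed {f : T2 ≃ₘ^1⟮I2, I2⟯ T2} : IsClosed (Omega f) := by
  rw [← isOpen_compl_iff, isOpen_iff_mem_nhds]
  intro x hx
  have h1 : ∃ U ∈ 𝓝 x, ¬ ∃ n : ℕ, 1 ≤ n ∧ ((f^[n]) '' U ∩ U).Nonempty := by
    by_contra hcon
    push Not at hcon
    exact hx fun U hU => hcon U hU
  obtain ⟨U, hU, hn⟩ := h1
  obtain ⟨V, hVU, hVo, hxV⟩ := mem_nhds_iff.1 hU
  filter_upwards [hVo.mem_nhds hxV] with y hy hyΩ
  obtain ⟨n, hn1, z, ⟨w, hw, hwz⟩, hz⟩ := hyΩ V (hVo.mem_nhds hy)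
  exact hn ⟨n, hn1, z, ⟨w, hVU hw, hwz⟩, hVU hz⟩

theorem lk_self {x : T2} (hx : x ∈ Omega f) : Lk f x x := by
  intro U hU V hV
  obtain ⟨n, hn, y, ⟨z, hz, hzy⟩, hy⟩ := hx _ (inter_mem hU hV)
  exact ⟨z, hz.1, n, hn, by rw [hzy]; exact hy.2⟩

/-- A cluster point of the forward orbit in the limit set. -/
theorem cluster_stable {y : T2} {Λ : Set T2} (hΛ : IsClosed Λ) (hy : y ∈ StableSet f Λ) :
    ∃ a ∈ Λ, MapClusterPt a atTop fun n : ℕ => f^[n] y := by
  obtain ⟨a, -, ha⟩ := (isCompact_univ (X := T2)).exists_mapClusterPt_of_frequently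
    (l := atTop) (f := fun n : ℕ => f^[n] y) (Frequently.of_forall fun n => mem_univ _)
  refine ⟨a, ?_, ha⟩
  by_contra haΛ
  obtain ⟨U, V, hU, hV, hΛU, haV, hUV⟩ := SeparatedNhds.of_isCompact_isCompact hΛ.isCompact
    (isCompact_singleton (x := a)) (disjoint_singleton_right.2 haΛ)
  have h1 := hy U hU hΛU
  have h2 := ha.frequently (hV.mem_nhds (haV rfl))
  obtain ⟨n, hn1, hn2⟩ := (h2.and_eventually h1).exists
  exact hUV.ne_of_mem hn2 hn1 rfl

theorem lk_forward {y : T2} {Λ : Set T2} (hΛ : IsClosed Λ) (hy : y ∈ StableSet f Λ) :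
    ∃ a ∈ Λ, Lk f y a := by
  obtain ⟨a, ha, hc⟩ := cluster_stable hΛ hy
  refine ⟨a, ha, fun U hU V hV => ?_⟩
  obtain ⟨n, hn1, hn2⟩ := ((hc.frequently hV).and_eventually (eventually_ge_atTop 1)).exists
  exact ⟨y, mem_of_mem_nhds hU, n, hn2, hn1⟩

theorem lk_backward {y : T2} {Λ : Set T2} (hΛ : IsClosed Λ) (hy : y ∈ UnstableSet f Λ) :
    ∃ a ∈ Λ, Lk f a y := by
  obtain ⟨a, ha, hc⟩ := cluster_stable (f := f⁻¹) hΛ hy
  refine ⟨a, ha, fun U hU V hV => ?_⟩
  obtain ⟨n, hn1, hn2⟩ := ((hc.frequently hU).and_eventually (eventually_ge_atTop 1)).exists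
  exact ⟨_, hn1, n, hn2, by rw [iter_inv]; exact mem_of_mem_nhds hV⟩

theorem iter_zpow' (f : T2 ≃ₘ^1⟮I2, I2⟯ T2) (n : ℕ) (m : ℤ) (x : T2) :
    f^[n] ((f ^ m) x) = (f ^ (m + n)) x := by
  rw [← d1_pow_apply, ← d1_mul_apply, ← zpow_natCast, ← zpow_add, add_comm]

/-- Points in the closure of one orbit are linked. -/
theorem lk_trans_set {x : T2} (hx : x ∈ closure (Function.periodicPts f)) {a b : T2}
    (ha : a ∈ closure (range fun n : ℤ => (f ^ n) x))
    (hb : b ∈ closure (range fun n : ℤ => (f ^ n) x)) : Lk f a b := by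
  intro U hU V hV
  obtain ⟨_, hxa, ⟨n1, rfl⟩⟩ := mem_closure_iff_nhds.1 ha (interior U) (interior_mem_nhds.2 hU)
  obtain ⟨_, hxb, ⟨n2, rfl⟩⟩ := mem_closure_iff_nhds.1 hb (interior V) (interior_mem_nhds.2 hV)
  have hW : (⇑(f ^ n1)) ⁻¹' interior U ∩ (⇑(f ^ n2)) ⁻¹' interior V ∈ 𝓝 x :=
    inter_mem ((f ^ n1).contMDiff.continuous.continuousAt (isOpen_interior.mem_nhds hxa))
      ((f ^ n2).contMDiff.continuous.continuousAt (isOpen_interior.mem_nhds hxb))
  obtain ⟨z, hz, ⟨P, hP, hzP⟩⟩ := mem_closure_iff_nhds.1 hx _ hW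
  obtain ⟨N, hN⟩ : ∃ N : ℕ, n1 < n2 + N * P := by
    refine ⟨(n1 - n2).toNat + 1, ?_⟩
    have h1 : n1 - n2 ≤ ((n1 - n2).toNat : ℤ) := Int.self_le_toNat _
    have h2 : (1 : ℤ) ≤ P := by exact_mod_cast hP
    have h3 : (0 : ℤ) ≤ ((n1 - n2).toNat : ℤ) := Int.natCast_nonneg _
    push_cast
    nlinarith
  refine ⟨(f ^ n1) z, interior_subset hz.1, (n2 + N * P - n1).toNat, ?_, ?_⟩
  · omega
  · have h1 : ((n2 + N * P - n1).toNat : ℤ) = n2 + N * P - n1 := Int.toNat_of_nonneg (by omega)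
    rw [iter_zpow', h1]
    have h2 : n1 + (n2 + N * P - n1) = n2 + ((N * P : ℕ) : ℤ) := by push_cast; ring
    rw [h2, zpow_add, d1_mul_apply, zpow_natCast, d1_pow_apply]
    have h3 : f^[N * P] z = z := by
      have : Function.IsPeriodicPt f (N * P) z := hzP.const_mul N
      exact this
    rw [h3]
    exact interior_subset hz.2

namespace QSys

theorem closing' (S : QSys f g h p q C D η B) {a : T2} (h : Relation.TransGen (RR f C D) a a) :
    a ∈ closure (Function.periodicPts f) := by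
  obtain ⟨m, c, h0, hm, hR⟩ := chain_of_transGen h
  have h1 := S.closing (finRotate (m + 1)) (fun j => c j) (fun j => ?_) (fun j => ?_) 0
  · rwa [Fin.val_zero, h0] at h1
  · rw [finRotate_apply]
    have h2 := (hR j (by omega)).1
    by_cases hj : j = Fin.last m
    · subst hj
      have e1 : ((Fin.last m + 1 : Fin (m + 1)) : ℕ) = 0 := by simp
      rw [e1, h0, ← hm]
      exact h2
    · have e1 : ((j + 1 : Fin (m + 1)) : ℕ) = j + 1 := Fin.val_add_one_of_lt
        (lt_of_le_of_ne (Fin.le_last j) hj)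
      rw [e1]; exact h2
  · exact (hR j (by omega)).2.1

theorem fixq (S : QSys f g h p q C D η B) : f q = q := by
  have := inv_fix S.hq.fix
  rwa [inv_inv] at this

theorem D_omega (S : QSys f g h p q C D η B) {x : T2} (hx : x ∈ D) (hΩ : x ∈ Omega f) : x = q :=
  S.hq.omega x hx (by rwa [Omega_inv])

theorem omega_GG (S : QSys f g h p q C D η B) {x : T2} (hx : x ∈ Omega f) (hp : x ≠ p)
    (hq : x ≠ q) : x ∈ GG f C D := by
  refine ⟨fun hC => hp (S.hp.omega x hC hx), fun hD => ?_⟩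
  have h1 := S.D_omega hD (omega_map_inv hx)
  apply hq
  rw [← d1_inv_self f x, h1, S.fixq]

theorem dense (S : QSys f g h p q C D η B) : Omega f ⊆ closure (Function.periodicPts f) := by
  intro x hx
  by_cases hp : x = p
  · subst hp; exact subset_closure ⟨1, one_pos, S.hp.fix⟩
  by_cases hq : x = q
  · subst hq; exact subset_closure ⟨1, one_pos, S.fixq⟩
  have h1 := S.omega_GG hx hp hq
  exact S.closing' (Relation.TransGen.single ⟨lk_self hx, h1, h1⟩)

theorem noCycles (S : QSys f g h p q C D η B) : NoCycles f := by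
  rintro k Λ hS ⟨m, i, hm, him, hcyc⟩
  have hsub : ∀ i, Λ i ⊆ Omega f := fun i => by rw [← hS.union]; exact subset_iUnion _ i
  have hA : ∀ j < m, p ∉ Λ (i j) := by
    intro j hj hpj
    have h1 := Pair.single hS S.hp.nhds S.hp.fix S.hp.omega hpj
    obtain ⟨x, ⟨hx1, -⟩, hx2⟩ := hcyc j hj
    rw [h1] at hx1
    have := Pair.no_unstable S.hp hx1
    exact hx2 (this ▸ omega_of_fix S.hp.fix)
  have hB : ∀ j < m, q ∉ Λ (i (j + 1)) := by
    intro j hj hpj
    have h1 := Pair.single hS S.hq.nhds S.fixq (fun x hx hΩ => S.D_omega hx hΩ) hpj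
    obtain ⟨x, ⟨-, hx1⟩, hx2⟩ := hcyc j hj
    rw [h1] at hx1
    have hx3 : x ∈ StableSet (f⁻¹)⁻¹ {q} := by rwa [inv_inv]
    have := Pair.no_unstable S.hq hx3
    exact hx2 (this ▸ omega_of_fix S.fixq)
  have hA' : ∀ j ≤ m, p ∉ Λ (i j) := by
    intro j hj
    rcases hj.lt_or_eq with h1 | h1
    · exact hA j h1
    · rw [h1, him]; exact hA 0 hm
  have hB' : ∀ j ≤ m, q ∉ Λ (i j) := by
    intro j hj
    rcases Nat.eq_zero_or_pos j with h1 | h1
    · rw [h1, ← him]
      have := hB (m - 1) (by omega)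
      rwa [Nat.sub_add_cancel hm] at this
    · have := hB (j - 1) (by omega)
      rwa [Nat.sub_add_cancel h1] at this
  have hGG : ∀ j ≤ m, Λ (i j) ⊆ GG f C D := by
    intro j hj x hx
    exact S.omega_GG (hsub _ hx) (fun h => hA' j hj (h ▸ hx)) (fun h => hB' j hj (h ▸ hx))
  choose! y hy hyΩ using hcyc
  -- the points are joints
  have hyG : ∀ j < m, y j ∈ GG f C D := by
    intro j hj
    constructor
    · intro hC
      obtain ⟨a, haΛ, hc⟩ := cluster_stable (hS.closed (i (j + 1))) (hy j hj).2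
      have haC : a ∈ C := by
        by_contra haC
        obtain ⟨n, hn⟩ := (hc.frequently (S.hp.closed.isOpen_compl.mem_nhds haC)).exists
        exact hn (S.hp.iter hC n)
      exact (hGG (j + 1) (by omega) haΛ).1 haC
    · intro hD
      obtain ⟨a, haΛ, hc⟩ := cluster_stable (f := f⁻¹) (hS.closed (i j)) (hy j hj).1
      have haD : a ∈ D := by
        by_contra haD
        obtain ⟨n, hn1, hn2⟩ := ((hc.frequently (S.hq.closed.isOpen_compl.mem_nhds
          haD)).and_eventually (eventually_ge_atTop 1)).exists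
        obtain ⟨l, rfl⟩ := Nat.exists_eq_add_of_le hn2
        rw [add_comm, Function.iterate_succ_apply] at hn1
        exact hn1 (S.hq.iter hD l)
      exact (hGG j (by omega) haΛ).2 (S.hq.maps a haD)
  have hstep : ∀ j < m, ∃ a ∈ Λ (i (j + 1)), RR f C D (y j) a := by
    intro j hj
    obtain ⟨a, ha, hlk⟩ := lk_forward (hS.closed (i (j + 1))) (hy j hj).2
    exact ⟨a, ha, hlk, hyG j hj, hGG (j + 1) (by omega) ha⟩
  have hstep' : ∀ j < m, ∃ b ∈ Λ (i j), RR f C D b (y j) := by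
    intro j hj
    obtain ⟨a, ha, hlk⟩ := lk_backward (hS.closed (i j)) (hy j hj).1
    exact ⟨a, ha, hlk, hGG j (by omega) ha, hyG j hj⟩
  have hin : ∀ j ≤ m, ∀ a ∈ Λ (i j), ∀ b ∈ Λ (i j), RR f C D a b := by
    intro j hj a ha b hb
    obtain ⟨x, hx, hx2⟩ := hS.transitive (i j)
    exact ⟨lk_trans_set (S.dense (hsub _ hx)) (hx2 ha) (hx2 hb), hGG j hj ha, hGG j hj hb⟩
  have hfin : ∀ j < m, ∀ a ∈ Λ (i (j + 1)), Relation.TransGen (RR f C D) (y 0) a := by
    intro j
    induction j with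
    | zero =>
      intro hj a ha
      obtain ⟨a', ha', h1⟩ := hstep 0 hj
      exact (Relation.TransGen.single h1).tail (hin (0 + 1) (by omega) a' ha' a ha)
    | succ j ih =>
      intro hj a ha
      obtain ⟨b, hb, h1⟩ := hstep' (j + 1) hj
      obtain ⟨a', ha', h2⟩ := hstep (j + 1) hj
      have h3 := ih (by omega) b hb
      exact ((h3.tail h1).tail h2).tail (hin (j + 1 + 1) (by omega) a' ha' a ha)
  obtain ⟨b, hb, h1⟩ := hstep' 0 (by omega)
  have h2 : b ∈ Λ (i (m - 1 + 1)) := by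
    rw [Nat.sub_add_cancel hm, him]; exact hb
  have h3 := (hfin (m - 1) (by omega) b h2).tail h1
  have h4 := S.closing' h3
  have h5 : y 0 ∈ Omega f := closure_minimal per_omega omega_closed h4
  exact hyΩ 0 (by omega) h5

end QSys

end Pool.Agent.H365R4
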