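import Mathlib
import Pool.Agent.H365R4.Cyc

set_option autoImplicit false

open scoped Manifold ContDiff Topology
open Set Filter Bundle

noncomputable section

namespace Pool.Agent.H365R4

open Pool.Agent.H365R3

/-- The forward orbit of a tangent vector is bounded. -/
def Bd (f : T2 ≃ₘ^1⟮I2, I2⟯ T2) (z : TangentBundle I2 T2) : Prop :=
  ∃ B : ℝ, ∀ n : ℕ, NN2 ((tangentMap I2 I2 f)^[n] z) ≤ B

theorem iter_lin (f : T2 ≃ₘ^1⟮I2, I2⟯ T2) (x : T2) (n : ℕ) : ∃ L : EE2 →L[ℝ] EE2, ∀ v : EE2,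
    (tangentMap I2 I2 f)^[n] (⟨x, v⟩ : TangentBundle I2 T2) = ⟨f^[n] x, L v⟩ := by
  induction n with
  | zero => exact ⟨ContinuousLinearMap.id ℝ EE2, fun v => rfl⟩
  | succ n ih =>
    obtain ⟨L, hL⟩ := ih
    let A : EE2 →L[ℝ] EE2 := mfderiv I2 I2 f (f^[n] x)
    refine ⟨A.comp L, fun v => ?_⟩
    rw [Function.iterate_succ_apply', hL, Function.iterate_succ_apply']
    rfl

/-- The vectors with bounded forward orbit. -/
def EB (f : T2 ≃ₘ^1⟮I2, I2⟯ T2) : SubFam I2 T2 := fun x =>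
  { carrier := {v | Bd f (⟨x, v⟩ : TangentBundle I2 T2)}
    add_mem' := by
      rintro v w ⟨B, hB⟩ ⟨B', hB'⟩
      refine ⟨B + B', fun n => ?_⟩
      obtain ⟨L, hL⟩ := iter_lin f x n
      have h1 := hB n
      have h2 := hB' n
      have h3 : (tangentMap I2 I2 f)^[n] (⟨x, v + w⟩ : TangentBundle I2 T2)
          = ⟨f^[n] x, L v + L w⟩ := by
        rw [← map_add]; exact hL _
      have h1' : NN2 ⟨f^[n] x, L v⟩ ≤ B := by rw [← hL v]; exact h1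
      have h2' : NN2 ⟨f^[n] x, L w⟩ ≤ B' := by rw [← hL w]; exact h2
      rw [h3]
      exact (NN2_norm.add _ _ _).trans (add_le_add h1' h2')
    zero_mem' := by
      refine ⟨0, fun n => ?_⟩
      obtain ⟨L, hL⟩ := iter_lin f x n
      have h3 : (tangentMap I2 I2 f)^[n] (⟨x, 0⟩ : TangentBundle I2 T2)
          = ⟨f^[n] x, 0⟩ := by
        have h2 := hL 0
        rw [map_zero] at h2
        exact h2
      rw [h3]
      have h4 := NN2_norm.smul (f^[n] x) 0 0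
      rw [zero_smul, abs_zero, zero_mul] at h4
      exact h4.le
    smul_mem' := by
      rintro c v ⟨B, hB⟩
      refine ⟨|c| * B, fun n => ?_⟩
      obtain ⟨L, hL⟩ := iter_lin f x n
      have h1 := hB n
      have h3 : (tangentMap I2 I2 f)^[n] (⟨x, c • v⟩ : TangentBundle I2 T2)
          = ⟨f^[n] x, c • L v⟩ := by
        rw [← map_smul]; exact hL _
      have h1' : NN2 ⟨f^[n] x, L v⟩ ≤ B := by rw [← hL v]; exact h1
      rw [h3]
      refine (NN2_norm.smul _ _ _).le.trans ?_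
      exact mul_le_mul_of_nonneg_left h1' (abs_nonneg c) }

theorem mem_EB (f : T2 ≃ₘ^1⟮I2, I2⟯ T2) (x : T2) (v : TangentSpace I2 x) :
    v ∈ EB f x ↔ Bd f ⟨x, v⟩ := Iff.rfl

theorem Bd_map {f : T2 ≃ₘ^1⟮I2, I2⟯ T2} {z : TangentBundle I2 T2} (h : Bd f z) :
    Bd f (tangentMap I2 I2 f z) := by
  obtain ⟨B, hB⟩ := h
  refine ⟨B, fun n => ?_⟩
  rw [← Function.iterate_succ_apply]
  exact hB _

theorem tangentMap_self_inv (f : T2 ≃ₘ^1⟮I2, I2⟯ T2) (z : TangentBundle I2 T2) :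
    tangentMap I2 I2 f (tangentMap I2 I2 (⇑f⁻¹) z) = z := by
  have := tangentMap_inv (f⁻¹) z
  rwa [inv_inv] at this

theorem Bd_map_inv {f : T2 ≃ₘ^1⟮I2, I2⟯ T2} {z : TangentBundle I2 T2} (h : Bd f⁻¹ z) :
    Bd f⁻¹ (tangentMap I2 I2 f z) := by
  obtain ⟨B, hB⟩ := h
  refine ⟨max B (NN2 (tangentMap I2 I2 f z)), fun n => ?_⟩
  rcases Nat.eq_zero_or_pos n with rfl | hn
  · exact le_max_right _ _
  · obtain ⟨m, rfl⟩ := Nat.exists_eq_add_of_le hn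
    rw [add_comm, Function.iterate_succ_apply, tangentMap_inv]
    exact (hB m).trans (le_max_left _ _)

/-- The derivative of the iterates of a lift. -/
def PP (g : V2 → V2) (t : V2) : ℕ → (V2 →L[ℝ] V2)
  | 0 => ContinuousLinearMap.id ℝ V2
  | n + 1 => (fderiv ℝ g (g^[n] t)).comp (PP g t n)

theorem PP_succ (g : V2 → V2) (t : V2) (n : ℕ) (v : V2) :
    PP g t (n + 1) v = fderiv ℝ g (g^[n] t) (PP g t n v) := rfl

theorem PP_zero (g : V2 → V2) (t : V2) (v : V2) : PP g t 0 v = v := rfl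

theorem τ_iter (f : T2 ≃ₘ^1⟮I2, I2⟯ T2) (g : V2 → V2) (hg : ContDiff ℝ 1 g)
    (hl : ∀ z, f (E2 z) = E2 (g z)) (t v : V2) (n : ℕ) :
    (tangentMap I2 I2 f)^[n] (τ t v) = τ (g^[n] t) (PP g t n v) := by
  induction n with
  | zero => rfl
  | succ n ih =>
    rw [Function.iterate_succ_apply', ih, τ_map f g _ _
      (f.contMDiff.mdifferentiable one_ne_zero _) (hg.differentiable one_ne_zero _) hl,
      Function.iterate_succ_apply']
    rfl

theorem lift_iter (f : T2 ≃ₘ^1⟮I2, I2⟯ T2) (g : V2 → V2)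
    (hl : ∀ z, f (E2 z) = E2 (g z)) (t : V2) (n : ℕ) : E2 (g^[n] t) = f^[n] (E2 t) := by
  induction n with
  | zero => rfl
  | succ n ih => rw [Function.iterate_succ_apply', ← hl, ih, Function.iterate_succ_apply']

theorem Bd_iff (f : T2 ≃ₘ^1⟮I2, I2⟯ T2) (g : V2 → V2) (hg : ContDiff ℝ 1 g)
    (hl : ∀ z, f (E2 z) = E2 (g z)) (t v : V2) :
    Bd f (τ t v) ↔ ∃ B : ℝ, ∀ n, ‖PP g t n v‖ ≤ B := by
  constructor
  · rintro ⟨B, hB⟩
    refine ⟨B / (2 * Real.pi), fun n => ?_⟩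
    have := hB n
    rw [τ_iter f g hg hl, NN2_τ] at this
    rwa [le_div_iff₀ tp_pos, mul_comm]
  · rintro ⟨B, hB⟩
    refine ⟨2 * Real.pi * B, fun n => ?_⟩
    rw [τ_iter f g hg hl, NN2_τ]
    exact mul_le_mul_of_nonneg_left (hB n) tp_pos.le

theorem rate {κ a b : ℝ} (hκ : 0 < κ) (hκ1 : κ < 1) (n : ℕ) (hb : 0 ≤ b)
    (h : κ * a ^ 2 ≤ (1 - κ) ^ n * b ^ 2) : a ≤ √(1 / κ) * √(1 - κ) ^ n * b := by
  refine le_of_sq_le_sq ?_ (by positivity)
  have h1 : (√(1 / κ) * √(1 - κ) ^ n * b) ^ 2 = (1 / κ) * ((1 - κ) ^ n * b ^ 2) := by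
    rw [mul_pow, mul_pow, ← pow_mul, mul_comm n 2, pow_mul, Real.sq_sqrt (by positivity),
      Real.sq_sqrt (by linarith)]
    ring
  rw [h1, one_div, ← div_eq_inv_mul, le_div_iff₀ hκ]
  linarith

namespace QSys

variable {f : T2 ≃ₘ^1⟮I2, I2⟯ T2} {g h : V2 → V2} {p q : T2} {C D : Set T2} {η B : ℝ}

theorem mapp (S : QSys f g h p q C D η B) {x : T2} (hx : x ≠ p) : f x ≠ p := by
  intro hfx
  exact hx (f.injective (hfx.trans S.hp.fix.symm))

theorem mapq (S : QSys f g h p q C D η B) {x : T2} (hx : x ≠ q) : f x ≠ q := by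
  intro hfx
  exact hx (f.injective (hfx.trans S.fixq.symm))

theorem good_iter (S : QSys f g h p q C D η B) {x : T2} (hx : x ∈ Omega f) (hp : x ≠ p)
    (hq : x ≠ q) (n : ℕ) : f^[n] x ∈ Omega f ∧ f^[n] x ≠ p ∧ f^[n] x ≠ q := by
  induction n with
  | zero => exact ⟨hx, hp, hq⟩
  | succ n ih =>
    rw [Function.iterate_succ_apply']
    exact ⟨omega_map ih.1, S.mapp ih.2.1, S.mapq ih.2.2⟩

theorem good_inv (S : QSys f g h p q C D η B) {x : T2} (hx : x ∈ Omega f) (hp : x ≠ p)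
    (hq : x ≠ q) : f⁻¹ x ∈ Omega f ∧ f⁻¹ x ≠ p ∧ f⁻¹ x ≠ q := by
  refine ⟨omega_map_inv hx, fun h => hp ?_, fun h => hq ?_⟩
  · rw [← d1_inv_self f x, h, S.hp.fix]
  · rw [← d1_inv_self f x, h, S.fixq]

theorem good_inv_iter (S : QSys f g h p q C D η B) {x : T2} (hx : x ∈ Omega f) (hp : x ≠ p)
    (hq : x ≠ q) (n : ℕ) : (⇑f⁻¹)^[n] x ∈ Omega f ∧ (⇑f⁻¹)^[n] x ≠ p ∧ (⇑f⁻¹)^[n] x ≠ q := by
  induction n with
  | zero => exact ⟨hx, hp, hq⟩
  | succ n ih =>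
    rw [Function.iterate_succ_apply']
    exact S.good_inv ih.1 ih.2.1 ih.2.2

theorem κle (S : QSys f g h p q C D η B) : η / B ^ 2 ≤ η := by
  refine div_le_self S.ηpos.le ?_
  nlinarith [S.Bone]

theorem condF (S : QSys f g h p q C D η B) {t : V2} (hx : E2 t ∈ Omega f) (hp : E2 t ≠ p)
    (hq : E2 t ≠ q) (n : ℕ) (v : V2) :
    η / B ^ 2 * ‖PP g t n v‖ ^ 2 ≤ Q (PP g t (n + 1) v) - Q (PP g t n v) := by
  refine le_trans (mul_le_mul_of_nonneg_right S.κle (sq_nonneg _)) ?_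
  rw [PP_succ]
  obtain ⟨h1, h2, h3⟩ := S.good_iter hx hp hq n
  refine S.cond _ _ ?_ ?_
  · rw [lift_iter f g S.lift]
    exact (S.omega_GG (omega_map h1) (S.mapp h2) (S.mapq h3)).1
  · rw [lift_iter f g S.lift]
    exact (S.omega_GG h1 h2 h3).2

theorem fderiv_gh (S : QSys f g h p q C D η B) (z w : V2) :
    fderiv ℝ g (h z) (fderiv ℝ h z w) = w := by
  have h1 : HasFDerivAt g (fderiv ℝ g (h z)) (h z) :=
    (S.smooth_g.differentiable one_ne_zero _).hasFDerivAt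
  have h2 : HasFDerivAt h (fderiv ℝ h z) z := (S.smooth_h.differentiable one_ne_zero _).hasFDerivAt
  have h3 := h1.comp z h2
  have h4 : g ∘ h = id := funext S.gh
  rw [h4] at h3
  exact DFunLike.congr_fun (h3.unique (hasFDerivAt_id z)) w

theorem fderiv_hg (S : QSys f g h p q C D η B) (z w : V2) :
    fderiv ℝ h (g z) (fderiv ℝ g z w) = w := by
  have h1 : HasFDerivAt h (fderiv ℝ h (g z)) (g z) :=
    (S.smooth_h.differentiable one_ne_zero _).hasFDerivAt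
  have h2 : HasFDerivAt g (fderiv ℝ g z) z := (S.smooth_g.differentiable one_ne_zero _).hasFDerivAt
  have h3 := h1.comp z h2
  have h4 : h ∘ g = id := funext S.hg
  rw [h4] at h3
  exact DFunLike.congr_fun (h3.unique (hasFDerivAt_id z)) w

theorem condB (S : QSys f g h p q C D η B) {t : V2} (hx : E2 t ∈ Omega f) (hp : E2 t ≠ p)
    (hq : E2 t ≠ q) (n : ℕ) (v : V2) :
    η / B ^ 2 * ‖PP h t n v‖ ^ 2 ≤ (-Q (PP h t (n + 1) v)) - (-Q (PP h t n v)) := by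
  rw [PP_succ]
  obtain ⟨z, hz⟩ : ∃ z, z = h^[n] t := ⟨_, rfl⟩
  obtain ⟨w, hw⟩ : ∃ w, w = PP h t n v := ⟨_, rfl⟩
  rw [← hz, ← hw]
  have hBpos : 0 < B := by linarith [S.Bone]
  obtain ⟨h1, h2, h3⟩ := S.good_inv_iter hx hp hq n
  have hEz : E2 z = (⇑f⁻¹)^[n] (E2 t) := by rw [hz, lift_iter f⁻¹ h S.lift_inv]
  rw [← hEz] at h1 h2 h3
  obtain ⟨k1, k2, k3⟩ := S.good_inv h1 h2 h3
  have e1 := S.cond (h z) (fderiv ℝ h z w) (by
    rw [← S.lift_inv, d1_inv_self]; exact (S.omega_GG h1 h2 h3).1) (by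
    rw [← S.lift_inv]; exact (S.omega_GG k1 k2 k3).2)
  rw [S.fderiv_gh] at e1
  have e2 := S.bound (h z) (fderiv ℝ h z w)
  rw [S.fderiv_gh] at e2
  have e3 : ‖w‖ ^ 2 ≤ (B * ‖fderiv ℝ h z w‖) ^ 2 := pow_le_pow_left₀ (norm_nonneg _) e2 2
  have e4 : η / B ^ 2 * ‖w‖ ^ 2 ≤ η * ‖fderiv ℝ h z w‖ ^ 2 := by
    rw [div_mul_eq_mul_div, div_le_iff₀ (by positivity)]
    have := mul_le_mul_of_nonneg_left e3 S.ηpos.le
    nlinarith
  linarith

theorem PP_surj_g (S : QSys f g h p q C D η B) (t : V2) (n : ℕ) :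
    Function.Surjective (PP g t n) := by
  induction n with
  | zero => exact fun v => ⟨v, rfl⟩
  | succ n ih =>
    intro w
    obtain ⟨v, hv⟩ := ih (fderiv ℝ h (g (g^[n] t)) w)
    refine ⟨v, ?_⟩
    rw [PP_succ, hv]
    have := S.fderiv_gh (g (g^[n] t)) w
    rwa [S.hg] at this

theorem PP_surj_h (S : QSys f g h p q C D η B) (t : V2) (n : ℕ) :
    Function.Surjective (PP h t n) := by
  induction n with
  | zero => exact fun v => ⟨v, rfl⟩
  | succ n ih =>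
    intro w
    obtain ⟨v, hv⟩ := ih (fderiv ℝ g (h (h^[n] t)) w)
    refine ⟨v, ?_⟩
    rw [PP_succ, hv]
    have := S.fderiv_hg (h (h^[n] t)) w
    rwa [S.gh] at this

theorem κpos (S : QSys f g h p q C D η B) : 0 < η / B ^ 2 := by
  have hBpos : 0 < B := by linarith [S.Bone]
  have := S.ηpos
  positivity

theorem κ1 (S : QSys f g h p q C D η B) : η / B ^ 2 < 1 := by
  have := S.κle
  have := S.ηle
  linarith

theorem decayF (S : QSys f g h p q C D η B) {t : V2} (hx : E2 t ∈ Omega f) (hp : E2 t ≠ p)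
    (hq : E2 t ≠ q) {v : V2} (hv : Bd f (τ t v)) :
    (∀ n, η / B ^ 2 * ‖PP g t n v‖ ^ 2 ≤ (1 - η / B ^ 2) ^ n * ‖v‖ ^ 2) ∧
      Q v ≤ -(η / B ^ 2 * ‖v‖ ^ 2) := by
  obtain ⟨b, hb⟩ := (Bd_iff f g S.smooth_g S.lift t v).1 hv
  exact q_decay Q abs_Q_le S.κpos S.κ1.le (fun n => PP g t n v)
    (fun n => S.condF hx hp hq n v) hb

theorem decayB (S : QSys f g h p q C D η B) {t : V2} (hx : E2 t ∈ Omega f) (hp : E2 t ≠ p)
    (hq : E2 t ≠ q) {v : V2} (hv : Bd f⁻¹ (τ t v)) :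
    (∀ n, η / B ^ 2 * ‖PP h t n v‖ ^ 2 ≤ (1 - η / B ^ 2) ^ n * ‖v‖ ^ 2) ∧
      -Q v ≤ -(η / B ^ 2 * ‖v‖ ^ 2) := by
  obtain ⟨b, hb⟩ := (Bd_iff f⁻¹ h S.smooth_h S.lift_inv t v).1 hv
  exact q_decay (fun v => -Q v) (fun v => by rw [abs_neg]; exact abs_Q_le v) S.κpos S.κ1.le
    (fun n => PP h t n v) (fun n => S.condB hx hp hq n v) hb

theorem existsF (S : QSys f g h p q C D η B) {t : V2} (hx : E2 t ∈ Omega f) (hp : E2 t ≠ p)
    (hq : E2 t ≠ q) : ∃ v : V2, v ≠ 0 ∧ Bd f (τ t v) := by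
  obtain ⟨v, hv, hb⟩ := q_exists Q Q_cont (fun c v => by
      simp only [Q, Prod.smul_fst, Prod.smul_snd, smul_eq_mul]; ring) abs_Q_le S.κpos
    ((1, 0) : V2) (by simp) (by simp [Q]) (PP g t) (S.PP_surj_g t)
    (fun n v => S.condF hx hp hq n v)
  exact ⟨v, hv, (Bd_iff f g S.smooth_g S.lift t v).2 hb⟩

theorem existsB (S : QSys f g h p q C D η B) {t : V2} (hx : E2 t ∈ Omega f) (hp : E2 t ≠ p)
    (hq : E2 t ≠ q) : ∃ v : V2, v ≠ 0 ∧ Bd f⁻¹ (τ t v) := by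
  obtain ⟨v, hv, hb⟩ := q_exists (fun v => -Q v) Q_cont.neg (fun c v => by
      simp only [Q, Prod.smul_fst, Prod.smul_snd, smul_eq_mul]; ring)
    (fun v => by rw [abs_neg]; exact abs_Q_le v) S.κpos
    ((1, 0) : V2) (by simp) (by simp [Q]) (PP h t) (S.PP_surj_h t)
    (fun n v => S.condB hx hp hq n v)
  exact ⟨v, hv, (Bd_iff f⁻¹ h S.smooth_h S.lift_inv t v).2 hb⟩

theorem isCompl (S : QSys f g h p q C D η B) {x : T2} (hx : x ∈ Omega f) (hp : x ≠ p)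
    (hq : x ≠ q) : IsCompl (EB f x) (EB f⁻¹ x) := by
  obtain ⟨t, rfl⟩ := E2_surj x
  have hτ0 : ∀ v : V2, v ≠ 0 → (τ t v).2 ≠ 0 := by
    intro v hv h0
    apply hv
    apply τ_inj t
    refine TotalSpace.ext rfl (heq_of_eq ?_)
    rw [h0]
    exact (map_zero (mfderiv 𝓘(ℝ, V2) I2 E2 t)).symm
  have hd : Disjoint (EB f (E2 t)) (EB f⁻¹ (E2 t)) := by
    rw [Submodule.disjoint_def]
    intro v hv hv'
    obtain ⟨w, hw⟩ := τ_surj ⟨E2 t, v⟩ t rfl
    have h1 : Bd f (τ t w) := by rw [← hw]; exact hv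
    have h2 : Bd f⁻¹ (τ t w) := by rw [← hw]; exact hv'
    have h3 := (S.decayF hx hp hq h1).2
    have h4 := (S.decayB hx hp hq h2).2
    have h5 : w = 0 := by
      by_contra h0
      have h6 : 0 < ‖w‖ := norm_pos_iff.2 h0
      have h7 := S.κpos
      have : 0 < η / B ^ 2 * ‖w‖ ^ 2 := by positivity
      linarith
    rw [h5] at hw
    have h2 : v = mfderiv 𝓘(ℝ, V2) I2 E2 t 0 := TotalSpace.mk_inj.1 hw
    rw [h2]; exact map_zero (mfderiv 𝓘(ℝ, V2) I2 E2 t)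
  obtain ⟨v, hv, hvB⟩ := S.existsF hx hp hq
  obtain ⟨w, hw, hwB⟩ := S.existsB hx hp hq
  have key : ∀ P P' : Submodule ℝ EE2, Disjoint P P' → (∃ a ∈ P, a ≠ 0) → (∃ a ∈ P', a ≠ 0) →
      IsCompl P P' := by
    rintro P P' hPP ⟨a, ha, ha0⟩ ⟨b, hb, hb0⟩
    refine (Submodule.isCompl_iff_disjoint P P' ?_).2 hPP
    have e1 : 0 < Module.finrank ℝ P := by
      rw [Module.finrank_pos_iff_exists_ne_zero]
      exact ⟨⟨a, ha⟩, fun h => ha0 (congrArg Subtype.val h)⟩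
    have e2 : 0 < Module.finrank ℝ P' := by
      rw [Module.finrank_pos_iff_exists_ne_zero]
      exact ⟨⟨b, hb⟩, fun h => hb0 (congrArg Subtype.val h)⟩
    have e3 : Module.finrank ℝ EE2 = 2 := by simp [EE2]
    omega
  exact key _ _ hd ⟨(τ t v).2, hvB, hτ0 v hv⟩ ⟨(τ t w).2, hwB, hτ0 w hw⟩

theorem contrF (S : QSys f g h p q C D η B) {x : T2} (hx : x ∈ Omega f) (hp : x ≠ p)
    (hq : x ≠ q) {z : TangentBundle I2 T2} (hzx : z.1 = x) (hz : Bd f z) (n : ℕ) :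
    NN2 ((tangentMap I2 I2 f)^[n] z)
      ≤ √(1 / (η / B ^ 2)) * √(1 - η / B ^ 2) ^ n * NN2 z := by
  obtain ⟨t, rfl⟩ := E2_surj x
  obtain ⟨v, rfl⟩ := τ_surj z t hzx.symm
  have h1 := rate S.κpos S.κ1 n (norm_nonneg _) ((S.decayF hx hp hq hz).1 n)
  rw [τ_iter f g S.smooth_g S.lift, NN2_τ, NN2_τ]
  have := mul_le_mul_of_nonneg_left h1 tp_pos.le
  linarith

theorem contrB (S : QSys f g h p q C D η B) {x : T2} (hx : x ∈ Omega f) (hp : x ≠ p)
    (hq : x ≠ q) {z : TangentBundle I2 T2} (hzx : z.1 = x) (hz : Bd f⁻¹ z) (n : ℕ) :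
    NN2 ((tangentMap I2 I2 (⇑f⁻¹))^[n] z)
      ≤ √(1 / (η / B ^ 2)) * √(1 - η / B ^ 2) ^ n * NN2 z := by
  obtain ⟨t, rfl⟩ := E2_surj x
  obtain ⟨v, rfl⟩ := τ_surj z t hzx.symm
  have h1 := rate S.κpos S.κ1 n (norm_nonneg _) ((S.decayB hx hp hq hz).1 n)
  rw [τ_iter f⁻¹ h S.smooth_h S.lift_inv, NN2_τ, NN2_τ]
  have := mul_le_mul_of_nonneg_left h1 tp_pos.le
  linarith

theorem Bd_iter_inv {f : T2 ≃ₘ^1⟮I2, I2⟯ T2} {z : TangentBundle I2 T2} (h : Bd f⁻¹ z) (n : ℕ) :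
    Bd f⁻¹ ((tangentMap I2 I2 f)^[n] z) := by
  induction n with
  | zero => exact h
  | succ n ih => rw [Function.iterate_succ_apply']; exact Bd_map_inv ih

theorem hyperbolic (S : QSys f g h p q C D η B)
    (hsink : ∀ N : TangentBundle I2 T2 → ℝ, IsFibreNorm N → ∃ B l : ℝ, 0 < B ∧ 0 < l ∧ l < 1 ∧
      ∀ (v : TangentSpace I2 p) (n : ℕ), N ((tangentMap I2 I2 f)^[n] ⟨p, v⟩) ≤ B * l ^ n * N ⟨p, v⟩)
    (hsource : ∀ N : TangentBundle I2 T2 → ℝ, IsFibreNorm N → ∃ B l : ℝ, 0 < B ∧ 0 < l ∧ l < 1 ∧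
      ∀ (v : TangentSpace I2 q) (n : ℕ),
        N ⟨q, v⟩ ≤ B * l ^ n * N ((tangentMap I2 I2 f)^[n] ⟨q, v⟩)) :
    IsHyperbolicSet f (Omega f) := by
  classical
  obtain ⟨B1, l1, hB1, hl10, hl11, hc1⟩ := hsink NN2 NN2_norm
  obtain ⟨B2, l2, hB2, hl20, hl21, hc2⟩ := hsource NN2 NN2_norm
  have hpq : p ≠ q := by
    intro heq
    exact (S.disj.ne_of_mem (mem_of_mem_nhds S.hp.nhds) (mem_of_mem_nhds S.hq.nhds)) heq
  obtain ⟨b, hb⟩ : ∃ b, b = √(1 / (η / B ^ 2)) := ⟨_, rfl⟩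
  obtain ⟨l, hl⟩ : ∃ l, l = √(1 - η / B ^ 2) := ⟨_, rfl⟩
  have hb0 : 0 < b := by
    rw [hb]; exact Real.sqrt_pos.2 (one_div_pos.2 S.κpos)
  have hl0 : 0 < l := by
    rw [hl]; exact Real.sqrt_pos.2 (by linarith [S.κ1])
  have hl1 : l < 1 := by
    rw [hl, Real.sqrt_lt' one_pos]
    have := S.κpos
    linarith
  let Es' : T2 → Submodule ℝ EE2 := fun x => if x = p then ⊤ else if x = q then ⊥ else EB f x
  let Eu' : T2 → Submodule ℝ EE2 := fun x => if x = p then ⊥ else if x = q then ⊤ else EB f⁻¹ x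
  have e1 : Es' p = ⊤ := if_pos rfl
  have e2 : Es' q = ⊥ := (if_neg hpq.symm).trans (if_pos rfl)
  have e3 : Eu' p = ⊥ := if_pos rfl
  have e4 : Eu' q = ⊤ := (if_neg hpq.symm).trans (if_pos rfl)
  have e5 : ∀ x, x ≠ p → x ≠ q → Es' x = EB f x := fun x h1 h2 =>
    (if_neg h1).trans (if_neg h2)
  have e6 : ∀ x, x ≠ p → x ≠ q → Eu' x = EB f⁻¹ x := fun x h1 h2 =>
    (if_neg h1).trans (if_neg h2)
  have hz0 : ∀ (x : T2) (n : ℕ), NN2 ((tangentMap I2 I2 f)^[n] (⟨x, 0⟩ : TangentBundle I2 T2)) = 0 := by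
    intro x n
    obtain ⟨L, hL⟩ := iter_lin f x n
    have h3 : (tangentMap I2 I2 f)^[n] (⟨x, 0⟩ : TangentBundle I2 T2) = ⟨f^[n] x, 0⟩ := by
      have h2 := hL 0
      rw [map_zero] at h2
      exact h2
    rw [h3]
    have h4 := NN2_norm.smul (f^[n] x) 0 0
    rwa [zero_smul, abs_zero, zero_mul] at h4
  let B' := max b (max B1 B2)
  let l' := max l (max l1 l2)
  have hB' : b ≤ B' := le_max_left _ _
  have hB1' : B1 ≤ B' := (le_max_left _ _).trans (le_max_right _ _)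
  have hB2' : B2 ≤ B' := (le_max_right _ _).trans (le_max_right _ _)
  have hl' : l ≤ l' := le_max_left _ _
  have hl1' : l1 ≤ l' := (le_max_left _ _).trans (le_max_right _ _)
  have hl2' : l2 ≤ l' := (le_max_right _ _).trans (le_max_right _ _)
  refine ⟨NN2, Es', Eu', B', l', NN2_norm, hb0.trans_le hB', hl0.trans_le hl', ?_, ?_, ?_, ?_, ?_,
    ?_⟩
  · exact max_lt hl1 (max_lt hl11 hl21)
  · intro x hx
    by_cases h1 : x = p
    · subst h1
      have : IsCompl (⊤ : Submodule ℝ EE2) ⊥ := isCompl_top_bot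
      rw [← e1, ← e3] at this
      exact this
    by_cases h2 : x = q
    · subst h2
      have : IsCompl (⊥ : Submodule ℝ EE2) ⊤ := isCompl_bot_top
      rw [← e2, ← e4] at this
      exact this
    have : @IsCompl (Submodule ℝ EE2) _ _ (EB f x) (EB f⁻¹ x) := S.isCompl hx h1 h2
    rw [← e5 x h1 h2, ← e6 x h1 h2] at this
    exact this
  · rintro ⟨x, v⟩ hx hv
    have hv' : (v : EE2) ∈ Es' x := hv
    change ((mfderiv I2 I2 f x : EE2 →L[ℝ] EE2) v) ∈ Es' (f x)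
    by_cases h1 : x = p
    · have : Es' (f x) = ⊤ := by rw [h1, S.hp.fix, e1]
      rw [this]; trivial
    by_cases h2 : x = q
    · have hv'' : (v : EE2) = 0 := zero_of_bot (by rw [h2]; exact e2 : Es' x = ⊥) hv'
      rw [hv'', map_zero]; exact Submodule.zero_mem _
    rw [e5 x h1 h2] at hv'
    rw [e5 (f x) (S.mapp h1) (S.mapq h2)]
    exact Bd_map (f := f) (z := ⟨x, v⟩) hv'
  · rintro ⟨x, v⟩ hx hv
    have hv' : (v : EE2) ∈ Eu' x := hv
    change ((mfderiv I2 I2 f x : EE2 →L[ℝ] EE2) v) ∈ Eu' (f x)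
    by_cases h1 : x = p
    · have hv'' : (v : EE2) = 0 := zero_of_bot (by rw [h1]; exact e3 : Eu' x = ⊥) hv'
      rw [hv'', map_zero]; exact Submodule.zero_mem _
    by_cases h2 : x = q
    · have : Eu' (f x) = ⊤ := by rw [h2, S.fixq, e4]
      rw [this]; trivial
    rw [e6 x h1 h2] at hv'
    rw [e6 (f x) (S.mapp h1) (S.mapq h2)]
    exact Bd_map_inv (f := f) (z := ⟨x, v⟩) hv'
  · intro x hx v hv n
    have hv' : (v : EE2) ∈ Es' x := hv
    by_cases h1 : x = p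
    · subst h1
      exact (hc1 v n).trans (pow_bound (fibreNorm_nonneg NN2_norm _ _) hB1.le hB1' hl10.le hl1' n)
    by_cases h2 : x = q
    · have hv'' : v = 0 := zero_of_bot (by rw [h2]; exact e2 : Es' x = ⊥) hv'
      subst hv''
      rw [hz0]
      have := hz0 x 0
      rw [Function.iterate_zero_apply] at this
      rw [this, mul_zero]
    rw [e5 x h1 h2] at hv'
    have h3 := S.contrF hx h1 h2 (z := ⟨x, v⟩) rfl hv' n
    rw [← hb, ← hl] at h3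
    exact h3.trans (pow_bound (fibreNorm_nonneg NN2_norm _ _) hb0.le hB' hl0.le hl' n)
  · intro x hx v hv n
    have hv' : (v : EE2) ∈ Eu' x := hv
    by_cases h1 : x = p
    · have hv'' : v = 0 := zero_of_bot (by rw [h1]; exact e3 : Eu' x = ⊥) hv'
      subst hv''
      rw [hz0]
      have := hz0 x 0
      rw [Function.iterate_zero_apply] at this
      rw [this, mul_zero]
    by_cases h2 : x = q
    · subst h2
      refine (hc2 v n).trans (pow_bound ?_ hB2.le hB2' hl20.le hl2' n)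
      exact fibreNorm_nonneg NN2_norm _ _
    rw [e6 x h1 h2] at hv'
    obtain ⟨k1, k2, k3⟩ := S.good_iter hx h1 h2 n
    have h4 : Bd f⁻¹ ((tangentMap I2 I2 f)^[n] (⟨x, v⟩ : TangentBundle I2 T2)) :=
      Bd_iter_inv (f := f) (z := ⟨x, v⟩) hv' n
    have h3 := S.contrB k1 k2 k3 (tangentMap_iter_proj f n ⟨x, v⟩) h4 n
    rw [tangentMap_inv_iter, ← hb, ← hl] at h3
    refine h3.trans (pow_bound ?_ hb0.le hB' hl0.le hl' n)
    exact fibreNorm_nonneg NN2_norm _ _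

end QSys

end Pool.Agent.H365R4
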