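import Mathlib

set_option autoImplicit false

open scoped Topology
open Set Filter

noncomputable section

namespace Pool.Agent.H365R4

/-- The square of the positive part. -/
def pos2 (x : ℝ) : ℝ := max x 0 ^ 2

theorem pos2_of_nonneg {x : ℝ} (h : 0 ≤ x) : pos2 x = x ^ 2 := by rw [pos2, max_eq_left h]

theorem pos2_of_nonpos {x : ℝ} (h : x ≤ 0) : pos2 x = 0 := by rw [pos2, max_eq_right h]; simp

theorem pos2_deriv (x : ℝ) : HasDerivAt pos2 (2 * max x 0) x := by
  rcases lt_trichotomy x 0 with h | h | h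
  · have h1 : pos2 =ᶠ[𝓝 x] fun _ => 0 := by
      filter_upwards [Iio_mem_nhds h] with y hy using pos2_of_nonpos (le_of_lt hy)
    rw [max_eq_right h.le, mul_zero]
    exact (hasDerivAt_const x (0 : ℝ)).congr_of_eventuallyEq h1
  · subst h
    rw [max_self, mul_zero, hasDerivAt_iff_tendsto_slope]
    have h1 : ∀ y : ℝ, ‖slope pos2 0 y‖ ≤ |y| := by
      intro y
      rw [slope_def_field, pos2_of_nonneg le_rfl]
      rcases le_total y 0 with hy | hy
      · rw [pos2_of_nonpos hy]; simp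
      · rw [pos2_of_nonneg hy]
        rcases hy.eq_or_lt with h0 | h0
        · rw [← h0]; simp
        · have : (y ^ 2 - 0 ^ 2) / (y - 0) = y := by field_simp; ring
          rw [this, Real.norm_eq_abs]
    refine squeeze_zero_norm h1 ?_
    have : Tendsto (fun y : ℝ => |y|) (𝓝 0) (𝓝 |0|) := continuous_abs.tendsto 0
    rw [abs_zero] at this
    exact this.mono_left nhdsWithin_le_nhds
  · have h1 : pos2 =ᶠ[𝓝 x] fun y => y ^ 2 := by
      filter_upwards [Ioi_mem_nhds h] with y hy using pos2_of_nonneg (le_of_lt hy)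
    rw [max_eq_left h.le]
    have := (hasDerivAt_pow 2 x).congr_of_eventuallyEq h1
    simpa using this

/-- The small slope. -/
def ee : ℝ := 1 / 643216

theorem ee_pos : 0 < ee := by unfold ee; norm_num

/-- The slope profile. -/
def sg (x : ℝ) : ℝ := 40 * max (x - 1 / 40) 0 - 60 * max (x - 3 / 40) 0 + 20 * max (x - 1 / 8) 0

/-- Its primitive. -/
def ch0 (x : ℝ) : ℝ := 20 * pos2 (x - 1 / 40) - 30 * pos2 (x - 3 / 40) + 10 * pos2 (x - 1 / 8)

/-- The contraction. -/
def ch (x : ℝ) : ℝ := ee * x + (1 - ee) * (ch0 x - ch0 (-x))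

/-- Its derivative. -/
def chD (x : ℝ) : ℝ := ee + (1 - ee) * (sg x + sg (-x))

theorem ch0_deriv (x : ℝ) : HasDerivAt ch0 (sg x) x := by
  have h : ∀ a : ℝ, HasDerivAt (fun x => pos2 (x - a)) (2 * max (x - a) 0) x := by
    intro a
    have := (pos2_deriv (x - a)).comp x ((hasDerivAt_id x).sub_const a)
    exact this.congr_deriv (by simp)
  have h1 := (((h (1 / 40)).const_mul 20).sub ((h (3 / 40)).const_mul 30)).add
    ((h (1 / 8)).const_mul 10)
  refine h1.congr_deriv ?_
  unfold sg; ring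

theorem ch_deriv (x : ℝ) : HasDerivAt ch (chD x) x := by
  have h1 := ch0_deriv x
  have h2 : HasDerivAt (fun x => ch0 (-x)) (-sg (-x)) x := by
    have := (ch0_deriv (-x)).comp x (hasDerivAt_neg x)
    exact this.congr_deriv (by simp)
  have h3 := ((hasDerivAt_id x).const_mul ee).add ((h1.sub h2).const_mul (1 - ee))
  refine h3.congr_deriv ?_
  unfold chD; ring

theorem sg_cont : Continuous sg := by unfold sg; fun_prop

theorem chD_cont : Continuous chD := by
  unfold chD
  exact continuous_const.add (continuous_const.mul (sg_cont.add (sg_cont.comp continuous_neg)))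

theorem ch_smooth : ContDiff ℝ 1 ch := by
  rw [contDiff_one_iff_deriv]
  refine ⟨fun x => (ch_deriv x).differentiableAt, ?_⟩
  have : deriv ch = chD := funext fun x => (ch_deriv x).deriv
  rw [this]; exact chD_cont

theorem sg_nonneg (x : ℝ) : 0 ≤ sg x := by
  unfold sg
  rcases le_total (x - 1 / 40) 0 with h1 | h1 <;> rcases le_total (x - 3 / 40) 0 with h2 | h2 <;>
  rcases le_total (x - 1 / 8) 0 with h3 | h3 <;> simp only [max_eq_left, max_eq_right, h1, h2, h3] <;>
  linarith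

theorem sg_le (x : ℝ) : sg x ≤ 2 := by
  unfold sg
  rcases le_total (x - 1 / 40) 0 with h1 | h1 <;> rcases le_total (x - 3 / 40) 0 with h2 | h2 <;>
  rcases le_total (x - 1 / 8) 0 with h3 | h3 <;> simp only [max_eq_left, max_eq_right, h1, h2, h3] <;>
  linarith

theorem sg_zero {x : ℝ} (h : x ≤ 1 / 40) : sg x = 0 := by
  unfold sg
  rw [max_eq_right (by linarith), max_eq_right (by linarith), max_eq_right (by linarith)]
  ring

theorem sg_one {x : ℝ} (h : 1 / 8 ≤ x) : sg x = 1 := by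
  unfold sg
  rw [max_eq_left (by linarith), max_eq_left (by linarith), max_eq_left (by linarith)]
  ring

theorem sg_lower {x : ℝ} (h : 1 / 40 + 1 / 20000 ≤ x) : 1 / 500 ≤ sg x := by
  unfold sg
  rcases le_total (x - 1 / 40) 0 with h1 | h1 <;> rcases le_total (x - 3 / 40) 0 with h2 | h2 <;>
  rcases le_total (x - 1 / 8) 0 with h3 | h3 <;> simp only [max_eq_left, max_eq_right, h1, h2, h3] <;>
  linarith

theorem ch0_zero {x : ℝ} (h : x ≤ 1 / 40) : ch0 x = 0 := by
  unfold ch0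
  rw [pos2_of_nonpos (by linarith), pos2_of_nonpos (by linarith), pos2_of_nonpos (by linarith)]
  ring

theorem ch0_one {x : ℝ} (h : 1 / 8 ≤ x) : ch0 x = x := by
  unfold ch0
  rw [pos2_of_nonneg (by linarith), pos2_of_nonneg (by linarith), pos2_of_nonneg (by linarith)]
  ring

theorem ch_lin {x : ℝ} (h : |x| ≤ 1 / 40) : ch x = ee * x := by
  have h1 := abs_le.1 h
  unfold ch
  rw [ch0_zero (by linarith), ch0_zero (by linarith)]
  ring

theorem ch_id {x : ℝ} (h : 1 / 8 ≤ |x|) : ch x = x := by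
  unfold ch
  rcases le_abs.1 h with h1 | h1
  · rw [ch0_one h1, ch0_zero (by linarith)]; ring
  · rw [ch0_one h1, ch0_zero (by linarith)]; ring

theorem chD_id {x : ℝ} (h : 1 / 8 ≤ |x|) : chD x = 1 := by
  unfold chD
  rcases le_abs.1 h with h1 | h1
  · rw [sg_one h1, sg_zero (by linarith)]; ring
  · rw [sg_one h1, sg_zero (by linarith)]; ring

theorem chD_zero : chD 0 = ee := by
  unfold chD
  rw [neg_zero, sg_zero (by norm_num)]; ring

theorem ee_lt : ee < 1 / 500 := by unfold ee; norm_num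

theorem chD_ge (x : ℝ) : ee ≤ chD x := by
  unfold chD
  have h1 := sg_nonneg x
  have h2 := sg_nonneg (-x)
  have h3 := ee_lt
  nlinarith

theorem chD_le (x : ℝ) : chD x ≤ 2 := by
  unfold chD
  have h1 := sg_le x
  have h2 := sg_le (-x)
  have h3 := ee_lt
  have h4 := ee_pos
  rcases le_total x 0 with h | h
  · rw [sg_zero (show x ≤ 1 / 40 by linarith)]; nlinarith
  · rw [sg_zero (show -x ≤ 1 / 40 by linarith)]; nlinarith

theorem small_of_chD {x : ℝ} (h : chD x < 17 / 10000) : |x| ≤ 1 / 40 + 1 / 20000 := by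
  by_contra hcon
  push Not at hcon
  have h3 := ee_lt
  have h4 := ee_pos
  have h5 : ee < 1 / 600000 := by unfold ee; norm_num
  have h1 := sg_nonneg x
  have h2 := sg_nonneg (-x)
  unfold chD at h
  rcases lt_abs.1 hcon with h6 | h6
  · have := sg_lower h6.le
    nlinarith
  · have := sg_lower h6.le
    nlinarith

theorem ch0_small {x : ℝ} (h : x ≤ 1 / 40 + 1 / 20000) : 0 ≤ ch0 x ∧ ch0 x ≤ 5 / 100000000 := by
  unfold ch0
  rw [pos2_of_nonpos (show x - 3 / 40 ≤ 0 by linarith), pos2_of_nonpos (show x - 1 / 8 ≤ 0 by linarith)]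
  rcases le_total (x - 1 / 40) 0 with h1 | h1
  · rw [pos2_of_nonpos h1]; norm_num
  · rw [pos2_of_nonneg h1]
    constructor
    · nlinarith [sq_nonneg (x - 1 / 40)]
    · nlinarith

theorem ch_small {x : ℝ} (h : |x| ≤ 1 / 40 + 1 / 20000) : |ch x| ≤ 1 / 10000000 := by
  have h1 := abs_le.1 h
  obtain ⟨a1, a2⟩ := ch0_small h1.2
  obtain ⟨b1, b2⟩ := ch0_small (show -x ≤ 1 / 40 + 1 / 20000 by linarith)
  have h5 : ee ≤ 1 / 600000 := by unfold ee; norm_num
  have h4 := ee_pos
  have e1 : |ee * x| ≤ 5 / 100000000 := by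
    rw [abs_mul, abs_of_pos h4]
    have := abs_nonneg x
    nlinarith
  have e2 : |(1 - ee) * (ch0 x - ch0 (-x))| ≤ 5 / 100000000 := by
    rw [abs_mul, abs_of_pos (show 0 < 1 - ee by linarith)]
    have e3 : |ch0 x - ch0 (-x)| ≤ 5 / 100000000 := by
      rw [abs_le]; constructor <;> linarith
    have := abs_nonneg (ch0 x - ch0 (-x))
    nlinarith
  unfold ch
  refine (abs_add_le _ _).trans ?_
  linarith

/-! ### The periodic map -/

/-- The periodic contraction. -/
def cc (x : ℝ) : ℝ := ⌊x + 1 / 2⌋ + ch (x - ⌊x + 1 / 2⌋)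

theorem cc_eq (k : ℤ) {u : ℝ} (h : |u| ≤ 1 / 2) : cc (k + u) = k + ch u := by
  have h1 := abs_le.1 h
  rcases h1.2.lt_or_eq with h2 | h2
  · have h3 : ⌊(k : ℝ) + u + 1 / 2⌋ = k := by
      rw [Int.floor_eq_iff]; constructor <;> linarith
    unfold cc
    rw [h3, add_sub_cancel_left]
  · have h3 : ⌊(k : ℝ) + u + 1 / 2⌋ = k + 1 := by
      rw [Int.floor_eq_iff]; push_cast; constructor <;> linarith
    unfold cc
    rw [h3, h2, ch_id (x := 1 / 2) (by norm_num [abs_of_pos])]
    have : (k : ℝ) + 1 / 2 - ((k + 1 : ℤ) : ℝ) = -(1 / 2) := by push_cast; ring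
    rw [this, ch_id (x := -(1 / 2)) (by norm_num [abs_neg, abs_of_pos])]
    push_cast; ring

theorem cc_int (k : ℤ) : cc k = k := by
  have := cc_eq k (u := 0) (by norm_num)
  rw [add_zero] at this
  rw [this, ch_lin (by norm_num)]; ring

theorem cc_id (k : ℤ) {x : ℝ} (h1 : k + 1 / 8 ≤ x) (h2 : x ≤ k + 7 / 8) : cc x = x := by
  rcases le_total x (k + 1 / 2) with h | h
  · have e1 : x = k + (x - k) := by ring
    rw [e1, cc_eq k (by rw [abs_le]; constructor <;> linarith), ch_id (by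
      rw [abs_of_nonneg (by linarith)]; linarith)]
  · have e1 : x = ((k + 1 : ℤ) : ℝ) + (x - k - 1) := by push_cast; ring
    rw [e1, cc_eq (k + 1) (by rw [abs_le]; constructor <;> linarith), ch_id (by
      rw [abs_of_nonpos (by linarith)]; linarith)]

theorem cc_add_one (x : ℝ) : cc (x + 1) = cc x + 1 := by
  have h1 : ⌊x + 1 + 1 / 2⌋ = ⌊x + 1 / 2⌋ + 1 := by
    rw [show x + 1 + 1 / 2 = x + 1 / 2 + 1 by ring, Int.floor_add_one]
  unfold cc
  rw [h1]
  push_cast
  rw [show x + 1 - ((⌊x + 1 / 2⌋ : ℝ) + 1) = x - ⌊x + 1 / 2⌋ by ring]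
  ring

theorem exists_cell (x : ℝ) : ∃ (k : ℤ) (u : ℝ), x = k + u ∧ |u| ≤ 1 / 2 := by
  refine ⟨⌊x + 1 / 2⌋, x - ⌊x + 1 / 2⌋, by ring, ?_⟩
  have h1 := Int.floor_le (x + 1 / 2)
  have h2 := Int.lt_floor_add_one (x + 1 / 2)
  rw [abs_le]; constructor <;> linarith

theorem cc_local (k : ℤ) {u : ℝ} (h : |u| ≤ 1 / 2) :
    (|u| < 1 / 2 ∧ cc =ᶠ[𝓝 (k + u)] fun y => k + ch (y - k)) ∨
      (|u| = 1 / 2 ∧ cc =ᶠ[𝓝 (k + u)] id) := by
  rcases h.lt_or_eq with h1 | h1
  · left
    refine ⟨h1, ?_⟩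
    have h2 : {y : ℝ | |y - k| < 1 / 2} ∈ 𝓝 ((k : ℝ) + u) := by
      refine (isOpen_lt ((continuous_id.sub continuous_const).abs) continuous_const).mem_nhds ?_
      change |(k : ℝ) + u - k| < 1 / 2
      rwa [add_sub_cancel_left]
    filter_upwards [h2] with y hy
    have := cc_eq k (u := y - k) (le_of_lt hy)
    rwa [add_sub_cancel] at this
  · right
    refine ⟨h1, ?_⟩
    rcases abs_cases u with ⟨h2, h3⟩ | ⟨h2, h3⟩
    · have hu : u = 1 / 2 := by linarith
      subst hu
      filter_upwards [Ioo_mem_nhds (show (k : ℝ) + 1 / 8 < k + 1 / 2 by linarith)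
        (show (k : ℝ) + 1 / 2 < k + 7 / 8 by linarith)] with y hy
      exact cc_id k hy.1.le hy.2.le
    · have hu : u = -(1 / 2) := by linarith
      subst hu
      filter_upwards [Ioo_mem_nhds (show (k : ℝ) - 1 + 1 / 8 < k + -(1 / 2) by linarith)
        (show (k : ℝ) + -(1 / 2) < k - 1 + 7 / 8 by linarith)] with y hy
      exact cc_id (k - 1) (by push_cast; exact hy.1.le) (by push_cast; exact hy.2.le)

theorem cc_deriv (k : ℤ) {u : ℝ} (h : |u| ≤ 1 / 2) : HasDerivAt cc (chD u) (k + u) := by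
  rcases cc_local k h with ⟨-, h2⟩ | ⟨h1, h2⟩
  · have h3 : HasDerivAt (fun y : ℝ => (k : ℝ) + ch (y - k)) (chD u) (k + u) := by
      have e1 : HasDerivAt ch (chD u) ((k : ℝ) + u - k) := by
        rw [add_sub_cancel_left]; exact ch_deriv u
      have := (e1.comp ((k : ℝ) + u) ((hasDerivAt_id _).sub_const (k : ℝ))).const_add (k : ℝ)
      simpa using this
    exact h3.congr_of_eventuallyEq h2
  · rw [chD_id (by rw [h1]; norm_num)]
    exact (hasDerivAt_id _).congr_of_eventuallyEq h2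

theorem cc_smooth : ContDiff ℝ 1 cc := by
  rw [contDiff_iff_contDiffAt]
  intro x
  obtain ⟨k, u, rfl, hu⟩ := exists_cell x
  rcases cc_local k hu with ⟨-, h2⟩ | ⟨-, h2⟩
  · have h3 : ContDiff ℝ 1 (fun y : ℝ => (k : ℝ) + ch (y - k)) :=
      contDiff_const.add (ch_smooth.comp (contDiff_id.sub contDiff_const))
    exact h3.contDiffAt.congr_of_eventuallyEq h2
  · exact contDiffAt_id.congr_of_eventuallyEq h2

theorem cc_deriv_ge (x : ℝ) : ee ≤ deriv cc x := by
  obtain ⟨k, u, rfl, hu⟩ := exists_cell x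
  rw [(cc_deriv k hu).deriv]; exact chD_ge u

theorem cc_deriv_le (x : ℝ) : deriv cc x ≤ 2 := by
  obtain ⟨k, u, rfl, hu⟩ := exists_cell x
  rw [(cc_deriv k hu).deriv]; exact chD_le u

theorem cc_deriv_id (k : ℤ) {x : ℝ} (h1 : k + 1 / 8 ≤ x) (h2 : x ≤ k + 7 / 8) : deriv cc x = 1 := by
  rcases le_total x (k + 1 / 2) with h | h
  · have e1 : x = k + (x - k) := by ring
    rw [e1, (cc_deriv k (by rw [abs_le]; constructor <;> linarith)).deriv, chD_id (by
      rw [abs_of_nonneg (by linarith)]; linarith)]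
  · have e1 : x = ((k + 1 : ℤ) : ℝ) + (x - k - 1) := by push_cast; ring
    rw [e1, (cc_deriv (k + 1) (by rw [abs_le]; constructor <;> linarith)).deriv, chD_id (by
      rw [abs_of_nonpos (by linarith)]; linarith)]

theorem cc_mono : StrictMono cc :=
  strictMono_of_deriv_pos fun x => ee_pos.trans_le (cc_deriv_ge x)

theorem cc_add_int (x : ℝ) (k : ℤ) : cc (x + k) = cc x + k := by
  have h1 : Function.Periodic (fun x => cc x - x) 1 := by
    intro x
    beta_reduce
    rw [cc_add_one]; ring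
  have h2 := h1.int_mul k x
  beta_reduce at h2
  rw [mul_one] at h2
  linarith

theorem cc_near (x : ℝ) : |cc x - x| ≤ 1 := by
  have h1 := Int.floor_le x
  have h2 := Int.lt_floor_add_one x
  have h3 := cc_mono.monotone h1
  have h4 := cc_mono.monotone h2.le
  rw [cc_int] at h3
  have h5 : cc ((⌊x⌋ : ℝ) + 1) = ⌊x⌋ + 1 := by rw [cc_add_one, cc_int]
  rw [h5] at h4
  rw [abs_le]; constructor <;> linarith

theorem cc_surj : Function.Surjective cc := by
  refine cc_smooth.continuous.surjective ?_ ?_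
  · refine tendsto_atTop_mono (f := fun x => x - 1) (fun x => ?_) ?_
    · have := abs_le.1 (cc_near x); linarith
    · exact tendsto_atTop_add_const_right _ _ tendsto_id
  · refine tendsto_atBot_mono (f := fun x => x + 1) (fun x => ?_) ?_
    · have := abs_le.1 (cc_near x); linarith
    · exact tendsto_atBot_add_const_right _ _ tendsto_id

/-- The periodic contraction as a homeomorphism. -/
def cH : ℝ ≃ₜ ℝ := (cc_mono.orderIsoOfSurjective cc cc_surj).toHomeomorph

theorem cH_apply (x : ℝ) : cH x = cc x := rfl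

/-- The inverse. -/
def ci (x : ℝ) : ℝ := cH.symm x

theorem cc_ci (x : ℝ) : cc (ci x) = x := cH.apply_symm_apply x

theorem ci_cc (x : ℝ) : ci (cc x) = x := cH.symm_apply_apply x

theorem ci_of {x y : ℝ} (h : cc x = y) : ci y = x := by rw [← h, ci_cc]

theorem ci_smooth : ContDiff ℝ 1 ci :=
  Homeomorph.contDiff_symm_deriv cH (f' := deriv cc)
    (fun x => (ee_pos.trans_le (cc_deriv_ge x)).ne')
    (fun x => (cc_smooth.differentiable one_ne_zero x).hasDerivAt) cc_smooth

theorem ci_deriv (x : ℝ) : HasDerivAt ci (1 / deriv cc (ci x)) x := by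
  have h1 : HasDerivAt ci (deriv ci x) x := (ci_smooth.differentiable one_ne_zero x).hasDerivAt
  have h2 : HasDerivAt cc (deriv cc (ci x)) (ci x) :=
    (cc_smooth.differentiable one_ne_zero _).hasDerivAt
  have h3 := h2.comp x h1
  have h4 : cc ∘ ci = id := funext cc_ci
  rw [h4] at h3
  have h5 := h3.unique (hasDerivAt_id x)
  have h6 : deriv cc (ci x) ≠ 0 := (ee_pos.trans_le (cc_deriv_ge _)).ne'
  refine h1.congr_deriv ?_
  field_simp
  linarith

theorem ci_mono : StrictMono ci := by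
  intro x y h
  by_contra hcon
  push Not at hcon
  have := cc_mono.monotone hcon
  rw [cc_ci, cc_ci] at this
  linarith

/-- The profile. -/
def ph (x : ℝ) : ℝ := cc (1 / 2 + ci (x - 1 / 2))

/-- The inverse of the profile. -/
def pi' (y : ℝ) : ℝ := 1 / 2 + cc (ci y - 1 / 2)

theorem pi_ph (x : ℝ) : pi' (ph x) = x := by
  unfold pi' ph
  rw [ci_cc, show 1 / 2 + ci (x - 1 / 2) - 1 / 2 = ci (x - 1 / 2) by ring, cc_ci]; ring

theorem ph_pi (y : ℝ) : ph (pi' y) = y := by
  unfold pi' ph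
  rw [show 1 / 2 + cc (ci y - 1 / 2) - 1 / 2 = cc (ci y - 1 / 2) by ring, ci_cc,
    show 1 / 2 + (ci y - 1 / 2) = ci y by ring, cc_ci]

theorem ph_smooth : ContDiff ℝ 1 ph :=
  cc_smooth.comp (contDiff_const.add (ci_smooth.comp (contDiff_id.sub contDiff_const)))

theorem pi_smooth : ContDiff ℝ 1 pi' :=
  contDiff_const.add (cc_smooth.comp (ci_smooth.sub contDiff_const))

/-- The slope. -/
def al (x : ℝ) : ℝ := deriv cc (1 / 2 + ci (x - 1 / 2)) * (1 / deriv cc (ci (x - 1 / 2)))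

theorem ph_deriv (x : ℝ) : HasDerivAt ph (al x) x := by
  have h1 : HasDerivAt (fun x => ci (x - 1 / 2)) (1 / deriv cc (ci (x - 1 / 2))) x := by
    have := (ci_deriv (x - 1 / 2)).comp x ((hasDerivAt_id x).sub_const (1 / 2))
    exact this.congr_deriv (by simp)
  have h2 : HasDerivAt cc (deriv cc (1 / 2 + ci (x - 1 / 2))) (1 / 2 + ci (x - 1 / 2)) :=
    (cc_smooth.differentiable one_ne_zero _).hasDerivAt
  exact h2.comp x (h1.const_add (1 / 2))

theorem ci_id (k : ℤ) {x : ℝ} (h1 : k + 1 / 8 ≤ x) (h2 : x ≤ k + 7 / 8) : ci x = x :=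
  ci_of (cc_id k h1 h2)

/-- Near integers. -/
theorem zone1 (k : ℤ) {x : ℝ} (h : |x - k| ≤ 3 / 8) : ph x = cc x ∧ al x = deriv cc x := by
  have h1 := abs_le.1 h
  have h2 : ci (x - 1 / 2) = x - 1 / 2 :=
    ci_id (k - 1) (by push_cast; linarith) (by push_cast; linarith)
  have h3 : deriv cc (x - 1 / 2) = 1 :=
    cc_deriv_id (k - 1) (by push_cast; linarith) (by push_cast; linarith)
  unfold ph al
  rw [h2, h3, show 1 / 2 + (x - 1 / 2) = x by ring]
  simp

/-- Near half-integers. -/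
theorem zone2 (k : ℤ) {x : ℝ} (h : |x - 1 / 2 - k| ≤ 3 / 8) :
    ph x = 1 / 2 + ci (x - 1 / 2) ∧ al x = 1 / deriv cc (ci (x - 1 / 2)) := by
  have h1 := abs_le.1 h
  have e1 : cc (k + 3 / 8) = k + 3 / 8 := cc_id k (by linarith) (by linarith)
  have e2 : cc (k - 3 / 8) = k - 3 / 8 :=
    cc_id (k - 1) (by push_cast; linarith) (by push_cast; linarith)
  have h2 : ci (x - 1 / 2) ≤ k + 3 / 8 := by
    rw [← ci_of e1]; exact ci_mono.monotone (by linarith)
  have h3 : k - 3 / 8 ≤ ci (x - 1 / 2) := by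
    rw [← ci_of e2]; exact ci_mono.monotone (by linarith)
  have h4 : cc (1 / 2 + ci (x - 1 / 2)) = 1 / 2 + ci (x - 1 / 2) :=
    cc_id k (by linarith) (by linarith)
  have h5 : deriv cc (1 / 2 + ci (x - 1 / 2)) = 1 := cc_deriv_id k (by linarith) (by linarith)
  unfold ph al
  rw [h4, h5]
  simp

theorem zones (x : ℝ) : ∃ k : ℤ, |x - k| ≤ 3 / 8 ∨ |x - 1 / 2 - k| ≤ 3 / 8 := by
  obtain ⟨k, u, rfl, hu⟩ := exists_cell x
  have h := abs_le.1 hu
  rcases le_total |u| (3 / 8) with h1 | h1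
  · exact ⟨k, Or.inl (by rwa [add_sub_cancel_left])⟩
  · rcases le_abs.1 h1 with h2 | h2
    · exact ⟨k, Or.inr (by rw [abs_le]; constructor <;> linarith)⟩
    · exact ⟨k - 1, Or.inr (by push_cast; rw [abs_le]; constructor <;> linarith)⟩

theorem al_ge (x : ℝ) : ee ≤ al x := by
  obtain ⟨k, h | h⟩ := zones x
  · rw [(zone1 k h).2]; exact cc_deriv_ge x
  · rw [(zone2 k h).2]
    have h1 := cc_deriv_le (ci (x - 1 / 2))
    have h2 := ee_pos.trans_le (cc_deriv_ge (ci (x - 1 / 2)))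
    rw [le_div_iff₀ h2]
    have h3 := ee_lt
    nlinarith [ee_pos]

theorem al_pos (x : ℝ) : 0 < al x := ee_pos.trans_le (al_ge x)

theorem al_le (x : ℝ) : al x ≤ 1 / ee := by
  obtain ⟨k, h | h⟩ := zones x
  · rw [(zone1 k h).2]
    refine (cc_deriv_le x).trans ?_
    unfold ee; norm_num
  · rw [(zone2 k h).2]
    exact one_div_le_one_div_of_le ee_pos (cc_deriv_ge _)

theorem small_slope {x : ℝ} (h : al x < 17 / 10000) : ∃ (k : ℤ) (u : ℝ), x = k + u ∧
    |u| ≤ 1 / 40 + 1 / 20000 ∧ ph x = k + ch u := by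
  obtain ⟨k, h1 | h1⟩ := zones x
  · obtain ⟨h2, h3⟩ := zone1 k h1
    have e1 : x = k + (x - k) := by ring
    have e2 : |x - k| ≤ 1 / 2 := h1.trans (by norm_num)
    have e3 := cc_deriv k e2
    rw [← e1] at e3
    rw [h3, e3.deriv] at h
    refine ⟨k, x - k, e1, small_of_chD h, ?_⟩
    rw [h2]
    conv_lhs => rw [e1]
    exact cc_eq k e2
  · exfalso
    rw [(zone2 k h1).2] at h
    have h4 := cc_deriv_le (ci (x - 1 / 2))
    have h2 := ee_pos.trans_le (cc_deriv_ge (ci (x - 1 / 2)))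
    rw [div_lt_iff₀ h2] at h
    linarith

theorem large_slope {x : ℝ} (h : 589 < al x) : ∃ (k : ℤ) (v : ℝ), x = 1 / 2 + k + v ∧
    |v| ≤ 1 / 10000000 := by
  obtain ⟨k, h1 | h1⟩ := zones x
  · exfalso
    rw [(zone1 k h1).2] at h
    have h4 := cc_deriv_le x
    linarith
  · rw [(zone2 k h1).2] at h
    have h2 := ee_pos.trans_le (cc_deriv_ge (ci (x - 1 / 2)))
    rw [lt_div_iff₀ h2] at h
    obtain ⟨k', u, hku, hu⟩ := exists_cell (ci (x - 1 / 2))
    have e3 := cc_deriv k' hu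
    rw [← hku] at e3
    rw [e3.deriv] at h
    have h5 := small_of_chD (x := u) (by linarith)
    refine ⟨k', ch u, ?_, ch_small h5⟩
    have h6 := cc_ci (x - 1 / 2)
    rw [hku, cc_eq k' hu] at h6
    linarith

theorem ci_add_int (x : ℝ) (k : ℤ) : ci (x + k) = ci x + k :=
  ci_of (by rw [cc_add_int, cc_ci])

theorem ph_add_int (x : ℝ) (k : ℤ) : ph (x + k) = ph x + k := by
  unfold ph
  rw [show x + k - 1 / 2 = x - 1 / 2 + k by ring, ci_add_int,
    show 1 / 2 + (ci (x - 1 / 2) + k) = 1 / 2 + ci (x - 1 / 2) + k by ring, cc_add_int]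

theorem pi_add_int (x : ℝ) (k : ℤ) : pi' (x + k) = pi' x + k := by
  unfold pi'
  rw [ci_add_int, show ci x + k - 1 / 2 = ci x - 1 / 2 + k by ring, cc_add_int]; ring

theorem al_add_int (x : ℝ) (k : ℤ) : al (x + k) = al x := by
  have h1 : HasDerivAt (fun y => ph (y + k)) (al (x + k)) x := by
    have := (ph_deriv (x + k)).comp x ((hasDerivAt_id x).add_const (k : ℝ))
    exact this.congr_deriv (by simp)
  have h2 : (fun y => ph (y + k)) = fun y => ph y + k := funext fun y => ph_add_int y k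
  rw [h2] at h1
  exact h1.unique ((ph_deriv x).add_const (k : ℝ))

theorem al_cont : Continuous al := by
  have h1 : Continuous (deriv cc) := cc_smooth.continuous_deriv le_rfl
  unfold al
  refine (h1.comp (continuous_const.add (ci_smooth.continuous.comp
    (continuous_id.sub continuous_const)))).mul (continuous_const.div (h1.comp
    (ci_smooth.continuous.comp (continuous_id.sub continuous_const))) fun x => ?_)
  exact (ee_pos.trans_le (cc_deriv_ge _)).ne'

theorem al_unif {w : ℝ} (hw : 0 < w) : ∃ δ : ℝ, 0 < δ ∧ ∀ x y, |x - y| ≤ δ → |al x - al y| ≤ w := by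
  have h1 := isCompact_Icc.uniformContinuousOn_of_continuous (s := Icc (-1 : ℝ) 2)
    al_cont.continuousOn
  rw [Metric.uniformContinuousOn_iff] at h1
  obtain ⟨δ, hδ, h2⟩ := h1 w hw
  refine ⟨min (δ / 2) 1, lt_min (by positivity) one_pos, fun x y hxy => ?_⟩
  have hxy1 := hxy.trans (min_le_left _ _)
  have hxy2 := abs_le.1 (hxy.trans (min_le_right _ _))
  have h3 := Int.floor_le x
  have h4 := Int.lt_floor_add_one x
  have e1 : al x = al (x - ⌊x⌋) := by
    have := al_add_int (x - ⌊x⌋) ⌊x⌋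
    rw [sub_add_cancel] at this; exact this
  have e2 : al y = al (y - ⌊x⌋) := by
    have := al_add_int (y - ⌊x⌋) ⌊x⌋
    rw [sub_add_cancel] at this; exact this
  rw [e1, e2]
  have h5 := h2 (x - ⌊x⌋) ⟨by linarith, by linarith⟩ (y - ⌊x⌋) ⟨by linarith, by linarith⟩ (by
    rw [Real.dist_eq, sub_sub_sub_cancel_right]; linarith)
  rw [Real.dist_eq] at h5
  exact h5.le

/-- Near integers the profile is linear. -/
theorem ph_lin (k : ℤ) {u : ℝ} (h : |u| ≤ 1 / 40) : ph (k + u) = k + ee * u := by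
  have h1 : |(k : ℝ) + u - k| ≤ 3 / 8 := by
    rw [add_sub_cancel_left]; linarith
  rw [(zone1 k h1).1, cc_eq k (by linarith), ch_lin h]

/-- Near half-integers the inverse of the profile is linear. -/
theorem pi_lin (k : ℤ) {u : ℝ} (h : |u| ≤ 1 / 40) : pi' (1 / 2 + k + u) = 1 / 2 + k + ee * u := by
  have h0 := abs_le.1 h
  have h1 : ci (1 / 2 + k + u) = 1 / 2 + k + u := ci_id k (by linarith) (by linarith)
  unfold pi'
  rw [h1, show (1 : ℝ) / 2 + k + u - 1 / 2 = k + u by ring, cc_eq k (by linarith), ch_lin h]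
  ring

/-- In the middle the profile is the identity. -/
theorem ph_id (k : ℤ) {x : ℝ} (h1 : k + 1 / 8 ≤ x) (h2 : x ≤ k + 3 / 8) : ph x = x := by
  rw [(zone1 k (x := x) (by rw [abs_le]; constructor <;> linarith)).1]
  exact cc_id k h1 (by linarith)

theorem ph_id' (k : ℤ) {x : ℝ} (h1 : k + 5 / 8 ≤ x) (h2 : x ≤ k + 7 / 8) : ph x = x := by
  rw [(zone1 (k + 1) (x := x) (by push_cast; rw [abs_le]; constructor <;> linarith)).1]
  exact cc_id k (by linarith) h2

theorem al_id (k : ℤ) {x : ℝ} (h1 : k + 1 / 8 ≤ x) (h2 : x ≤ k + 3 / 8) : al x = 1 := by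
  rw [(zone1 k (x := x) (by rw [abs_le]; constructor <;> linarith)).2]
  exact cc_deriv_id k h1 (by linarith)

theorem al_id' (k : ℤ) {x : ℝ} (h1 : k + 5 / 8 ≤ x) (h2 : x ≤ k + 7 / 8) : al x = 1 := by
  rw [(zone1 (k + 1) (x := x) (by push_cast; rw [abs_le]; constructor <;> linarith)).2]
  exact cc_deriv_id k (by linarith) h2

theorem al_zero : al 0 = ee := by
  rw [(zone1 0 (x := 0) (by norm_num)).2]
  have := cc_deriv 0 (u := 0) (by norm_num)
  rw [Int.cast_zero, add_zero] at this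
  rw [this.deriv, chD_zero]

end Pool.Agent.H365R4
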