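import Mathlib
import Pool.Agent.H365R4.Phi
import Pool.Agent.H365R4.Hyp2

set_option autoImplicit false

open scoped Manifold ContDiff Topology
open Set Filter Bundle

noncomputable section

namespace Pool.Agent.H365R4

open Pool.Agent.H365R3

/-- The hyperbolic matrix. -/
def AA : V2 →L[ℝ] V2 :=
  ((20201 : ℝ) • ContinuousLinearMap.fst ℝ ℝ ℝ + (20000 : ℝ) • ContinuousLinearMap.snd ℝ ℝ ℝ).prod
    ((20000 : ℝ) • ContinuousLinearMap.fst ℝ ℝ ℝ + (19801 : ℝ) • ContinuousLinearMap.snd ℝ ℝ ℝ)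

/-- Its inverse. -/
def AI : V2 →L[ℝ] V2 :=
  ((19801 : ℝ) • ContinuousLinearMap.fst ℝ ℝ ℝ - (20000 : ℝ) • ContinuousLinearMap.snd ℝ ℝ ℝ).prod
    ((20201 : ℝ) • ContinuousLinearMap.snd ℝ ℝ ℝ - (20000 : ℝ) • ContinuousLinearMap.fst ℝ ℝ ℝ)

theorem AA_apply (v : V2) : AA v = (20201 * v.1 + 20000 * v.2, 20000 * v.1 + 19801 * v.2) := rfl

theorem AI_apply (v : V2) : AI v = (19801 * v.1 - 20000 * v.2, 20201 * v.2 - 20000 * v.1) := rfl

theorem AA_AI (v : V2) : AA (AI v) = v := by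
  rw [AI_apply, AA_apply]; ext <;> simp only <;> ring

theorem AI_AA (v : V2) : AI (AA v) = v := by
  rw [AA_apply, AI_apply]; ext <;> simp only <;> ring

theorem nrm_le {v : V2} {B : ℝ} (h1 : |v.1| ≤ B) (h2 : |v.2| ≤ B) : ‖v‖ ≤ B := by
  rw [Prod.norm_def]; exact max_le h1 h2

theorem abs_fst_le (v : V2) : |v.1| ≤ ‖v‖ := norm_fst_le v

theorem abs_snd_le (v : V2) : |v.2| ≤ ‖v‖ := norm_snd_le v

theorem AA_norm (v : V2) : ‖AA v‖ ≤ 40201 * ‖v‖ := by
  have h1 := abs_le.1 (abs_fst_le v)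
  have h2 := abs_le.1 (abs_snd_le v)
  have h3 := norm_nonneg v
  rw [AA_apply]
  refine nrm_le ?_ ?_ <;> rw [abs_le] <;> constructor <;> simp only <;> linarith

theorem AI_norm (v : V2) : ‖AI v‖ ≤ 40201 * ‖v‖ := by
  have h1 := abs_le.1 (abs_fst_le v)
  have h2 := abs_le.1 (abs_snd_le v)
  have h3 := norm_nonneg v
  rw [AI_apply]
  refine nrm_le ?_ ?_ <;> rw [abs_le] <;> constructor <;> simp only <;> linarith

/-- The integer matrix. -/
def AZ (k : ℤ × ℤ) : ℤ × ℤ := (20201 * k.1 + 20000 * k.2, 20000 * k.1 + 19801 * k.2)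

/-- The inverse integer matrix. -/
def AJ (k : ℤ × ℤ) : ℤ × ℤ := (19801 * k.1 - 20000 * k.2, 20201 * k.2 - 20000 * k.1)

theorem AA_ofZ (k : ℤ × ℤ) : AA (ofZ k) = ofZ (AZ k) := by
  rw [AA_apply]; ext <;> simp [ofZ, AZ]

theorem AI_ofZ (k : ℤ × ℤ) : AI (ofZ k) = ofZ (AJ k) := by
  rw [AI_apply]; ext <;> simp [ofZ, AJ]

/-- The product of the profiles. -/
def PH (z : V2) : V2 := (ph z.1, ph z.2)

/-- Its inverse. -/
def PI (z : V2) : V2 := (pi' z.1, pi' z.2)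

theorem PH_ofZ (z : V2) (k : ℤ × ℤ) : PH (z + ofZ k) = PH z + ofZ k := by
  unfold PH ofZ
  ext
  · exact ph_add_int z.1 k.1
  · exact ph_add_int z.2 k.2

theorem PI_ofZ (z : V2) (k : ℤ × ℤ) : PI (z + ofZ k) = PI z + ofZ k := by
  unfold PI ofZ
  ext
  · exact pi_add_int z.1 k.1
  · exact pi_add_int z.2 k.2

theorem PH_PI (z : V2) : PH (PI z) = z := Prod.ext (ph_pi z.1) (ph_pi z.2)

theorem PI_PH (z : V2) : PI (PH z) = z := Prod.ext (pi_ph z.1) (pi_ph z.2)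

/-- The lift of the example. -/
def gg (z : V2) : V2 := AA (PH z)

/-- The inverse of the lift. -/
def hh (z : V2) : V2 := PI (AI z)

theorem hh_gg (z : V2) : hh (gg z) = z := by rw [hh, gg, AI_AA, PI_PH]

theorem gg_hh (z : V2) : gg (hh z) = z := by rw [hh, gg, PH_PI, AA_AI]

theorem gg_smooth : ContDiff ℝ 1 gg :=
  AA.contDiff.comp ((ph_smooth.comp contDiff_fst).prodMk (ph_smooth.comp contDiff_snd))

theorem hh_smooth : ContDiff ℝ 1 hh := by
  have h1 : ContDiff ℝ 1 PI := (pi_smooth.comp contDiff_fst).prodMk (pi_smooth.comp contDiff_snd)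
  exact h1.comp AI.contDiff

theorem gg_ofZ (z : V2) (k : ℤ × ℤ) : gg (z + ofZ k) = gg z + ofZ (AZ k) := by
  rw [gg, PH_ofZ, map_add, AA_ofZ]; rfl

theorem hh_ofZ (z : V2) (k : ℤ × ℤ) : hh (z + ofZ k) = hh z + ofZ (AJ k) := by
  rw [hh, map_add, AI_ofZ, PI_ofZ]; rfl

/-- The lift as a bijection. -/
def gE : V2 ≃ V2 := ⟨gg, hh, hh_gg, gg_hh⟩

/-- The first diffeomorphism. -/
def f0 : T2 ≃ₘ^1⟮I2, I2⟯ T2 := ofLift2 gE gg_smooth hh_smooth
  (by
    intro z z' h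
    obtain ⟨k, rfl⟩ := (E2_eq_iff _ _).1 h
    exact (E2_eq_iff _ _).2 ⟨AZ k, gg_ofZ z' k⟩)
  (by
    intro z z' h
    obtain ⟨k, rfl⟩ := (E2_eq_iff _ _).1 h
    exact (E2_eq_iff _ _).2 ⟨AJ k, hh_ofZ z' k⟩)

theorem f0_E2 (z : V2) : f0 (E2 z) = E2 (gg z) := ofLift2_E2 _ _ _ _ _ z

theorem f0_inv_E2 (z : V2) : f0⁻¹ (E2 z) = E2 (hh z) := by
  have h1 : f0 (E2 (hh z)) = E2 z := by rw [f0_E2, gg_hh]
  rw [← h1]
  exact d1_self_inv f0 _

/-- The derivative of the lift. -/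
def gD (z : V2) : V2 →L[ℝ] V2 :=
  AA.comp ((al z.1 • ContinuousLinearMap.fst ℝ ℝ ℝ).prod (al z.2 • ContinuousLinearMap.snd ℝ ℝ ℝ))

theorem gD_apply (z v : V2) : gD z v = AA (al z.1 * v.1, al z.2 * v.2) := rfl

theorem gg_deriv (z : V2) : HasFDerivAt gg (gD z) z := by
  have h1 : HasFDerivAt (fun z : V2 => ph z.1) (al z.1 • ContinuousLinearMap.fst ℝ ℝ ℝ) z := by
    have := (ph_deriv z.1).comp_hasFDerivAt z (hasFDerivAt_fst (𝕜 := ℝ) (E := ℝ) (F := ℝ))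
    exact this
  have h2 : HasFDerivAt (fun z : V2 => ph z.2) (al z.2 • ContinuousLinearMap.snd ℝ ℝ ℝ) z := by
    have := (ph_deriv z.2).comp_hasFDerivAt z (hasFDerivAt_snd (𝕜 := ℝ) (E := ℝ) (F := ℝ))
    exact this
  exact AA.hasFDerivAt.comp z (h1.prodMk h2)

theorem gg_fderiv (z : V2) : fderiv ℝ gg z = gD z := (gg_deriv z).fderiv

/-- The position of the source. -/
def qq : V2 := (1 / 2, 1 / 2)

theorem mem_disk2 (t : V2) {ζ : V2} {ρ : ℝ} (h : ‖ζ‖ ≤ ρ) (hρ : ρ < 1 / 2) (k : ℤ × ℤ) :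
    E2 (t + ζ + ofZ k) ∈ disk (cht2 t) ρ := by
  rw [E2_ofZ, ← ψ2_eq]
  have h1 := mem_tgt2_of_norm t (h.trans_lt hρ)
  refine ⟨(cht2 t).ψ_mem ζ h1, ?_⟩
  rw [(cht2 t).φψ ζ h1]; exact h

theorem of_mem_disk2 (t : V2) {X : T2} {ρ : ℝ} (h : X ∈ disk (cht2 t) ρ) :
    ∃ ζ : V2, ‖ζ‖ ≤ ρ ∧ X = E2 (t + ζ) :=
  ⟨(cht2 t).φ X, h.2, (cht2_φ t X).symm⟩

theorem gg_near {z : V2} (h : ‖z‖ ≤ 1 / 40) : gg z = ee • AA z := by
  have h1 := (abs_fst_le z).trans h
  have h2 := (abs_snd_le z).trans h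
  have e1 := ph_lin 0 h1
  have e2 := ph_lin 0 h2
  rw [Int.cast_zero, zero_add, zero_add] at e1 e2
  rw [gg, PH, e1, e2, ← map_smul]
  rfl

theorem ee_mul : ee * 40201 = 1 / 16 := by unfold ee; norm_num

theorem ee_AA_norm (z : V2) : ‖ee • AA z‖ ≤ 1 / 16 * ‖z‖ := by
  rw [norm_smul, Real.norm_eq_abs, abs_of_pos ee_pos]
  calc ee * ‖AA z‖ ≤ ee * (40201 * ‖z‖) := mul_le_mul_of_nonneg_left (AA_norm z) ee_pos.le
    _ = 1 / 16 * ‖z‖ := by rw [← mul_assoc, ee_mul]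

theorem ee_AI_norm (z : V2) : ‖ee • AI z‖ ≤ 1 / 16 * ‖z‖ := by
  rw [norm_smul, Real.norm_eq_abs, abs_of_pos ee_pos]
  calc ee * ‖AI z‖ ≤ ee * (40201 * ‖z‖) := mul_le_mul_of_nonneg_left (AI_norm z) ee_pos.le
    _ = 1 / 16 * ‖z‖ := by rw [← mul_assoc, ee_mul]

theorem val0 (z : V2) (hz : ‖z‖ ≤ 1 / 40) : f0 ((cht2 0).ψ z) ∈ (cht2 0).src ∧
    (cht2 0).φ (f0 ((cht2 0).ψ z)) = ee • AA z := by
  refine expr2_of 0 0 z _ f0 ?_ ?_
  · rw [f0_E2, zero_add, zero_add, gg_near hz]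
  · apply mem_tgt2_of_norm
    have := ee_AA_norm z
    linarith

theorem sink0 : SinkAt (cht2 0) f0 (1 / 16) (1 / 40) := by
  refine ⟨by norm_num, by norm_num, by norm_num, ?_, ?_, fun z hz => (val0 z hz).1, ?_⟩
  · intro z hz
    have : ‖z‖ ≤ 1 / 40 := by simpa using hz
    exact mem_tgt2_of_norm _ (by linarith)
  · rw [ψ2_zero, f0_E2, gg_near (by simp), map_zero, smul_zero]
  · intro z z' hz hz'
    rw [(val0 z hz).2, (val0 z' hz').2, ← smul_sub, ← map_sub]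
    exact ee_AA_norm _

/-- The radius at the source. -/
def rD : ℝ := 1 / 1700000

theorem AI_qq : AI qq = qq + ofZ (-100, 100) := by
  rw [AI_apply]; ext <;> simp [qq, ofZ] <;> norm_num

theorem PI_near {z : V2} (h : ‖z‖ ≤ 1 / 40) (k : ℤ × ℤ) :
    PI (qq + ofZ k + z) = qq + ofZ k + ee • z := by
  have h1 := (abs_fst_le z).trans h
  have h2 := (abs_snd_le z).trans h
  ext
  · exact pi_lin k.1 h1
  · exact pi_lin k.2 h2

theorem hh_near {z : V2} (h : ‖AI z‖ ≤ 1 / 40) (k : ℤ × ℤ) :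
    hh (qq + ofZ k + z) = qq + ee • AI z + ofZ ((-100, 100) + AJ k) := by
  rw [hh, map_add, map_add, AI_qq, AI_ofZ]
  have h1 : qq + ofZ (-100, 100) + ofZ (AJ k) + AI z = qq + ofZ ((-100, 100) + AJ k) + AI z := by
    ext <;> simp [ofZ] <;> ring
  rw [h1, PI_near h]
  abel

theorem vald (z : V2) (hz : ‖z‖ ≤ rD) : f0⁻¹ ((cht2 qq).ψ z) ∈ (cht2 qq).src ∧
    (cht2 qq).φ (f0⁻¹ ((cht2 qq).ψ z)) = ee • AI z := by
  have hz' : ‖z‖ ≤ 1 / 1700000 := hz
  refine expr2_of qq qq z _ (⇑f0⁻¹) ?_ ?_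
  · have h1 : ‖AI z‖ ≤ 1 / 40 := by
      have := AI_norm z
      linarith
    have h2 := hh_near h1 0
    have h3 : qq + ofZ 0 + z = qq + z := by
      have : ofZ 0 = 0 := by simp [ofZ]
      rw [this, add_zero]
    rw [h3] at h2
    rw [f0_inv_E2, h2, E2_ofZ]
  · apply mem_tgt2_of_norm
    have := ee_AI_norm z
    linarith

theorem sinkd : SinkAt (cht2 qq) f0⁻¹ (1 / 16) rD := by
  have hr : 0 < rD := by unfold rD; norm_num
  have hr2 : rD < 1 / 2 := by unfold rD; norm_num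
  refine ⟨by norm_num, by norm_num, hr, ?_, ?_, fun z hz => (vald z hz).1, ?_⟩
  · intro z hz
    have : ‖z‖ ≤ rD := by simpa using hz
    exact mem_tgt2_of_norm _ (by linarith)
  · have h1 := (vald 0 (by rw [norm_zero]; exact hr.le))
    have h2 := congrArg (cht2 qq).ψ h1.2
    rw [(cht2 qq).ψφ _ h1.1, map_zero, smul_zero] at h2
    exact h2
  · intro z z' hz hz'
    rw [(vald z hz).2, (vald z' hz').2, ← smul_sub, ← map_sub]
    exact ee_AI_norm _

/-- The trapping region of the sink. -/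
def CC : Set T2 := disk (cht2 0) (1 / 80)

/-- The trapping region of the source. -/
def DDD : Set T2 := disk (cht2 qq) (rD / 2)

theorem CD_disj : Disjoint (disk (cht2 0) (1 / 40)) (disk (cht2 qq) (1 / 40)) := by
  rw [Set.disjoint_left]
  intro X h1 h2
  obtain ⟨z1, hz1, e1⟩ := of_mem_disk2 0 h1
  obtain ⟨z2, hz2, e2⟩ := of_mem_disk2 qq h2
  obtain ⟨k, hk⟩ := (E2_eq_iff _ _).1 (e1.symm.trans e2)
  have h3 := congrArg Prod.fst hk
  simp only [Prod.fst_add, Prod.fst_zero, qq, ofZ] at h3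
  have a1 := abs_le.1 ((abs_fst_le z1).trans hz1)
  have a2 := abs_le.1 ((abs_fst_le z2).trans hz2)
  have b1 : (k.1 : ℝ) < 0 := by linarith
  have b2 : (-1 : ℝ) < (k.1 : ℝ) := by linarith
  have c1 : k.1 < 0 := by exact_mod_cast b1
  have c2 : -1 < k.1 := by exact_mod_cast b2
  omega

theorem qform (s X Y : ℝ) (h0 : 0 ≤ s) (h1 : s ≤ 800000001 - 1 / 400000000) :
    1 / 2000000000 * (X ^ 2 + Y ^ 2) ≤ 404020000 * X ^ 2 + s * X * Y + 396020000 * Y ^ 2 := by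
  have h2 : s ^ 2 ≤ (800000001 - 1 / 400000000) ^ 2 := pow_le_pow_left₀ h0 h1 2
  have key : 4 * (404020000 - 1 / 2000000000) * ((404020000 * X ^ 2 + s * X * Y + 396020000 * Y ^ 2)
      - 1 / 2000000000 * (X ^ 2 + Y ^ 2)) = (2 * (404020000 - 1 / 2000000000) * X + s * Y) ^ 2
      + (4 * (404020000 - 1 / 2000000000) * (396020000 - 1 / 2000000000) - s ^ 2) * Y ^ 2 := by
    ring
  have h3 : 0 ≤ 4 * (404020000 - 1 / 2000000000 : ℝ) * (396020000 - 1 / 2000000000) - s ^ 2 := by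
    refine sub_nonneg.2 (h2.trans ?_)
    norm_num
  have h4 : 0 ≤ (4 * (404020000 - 1 / 2000000000 : ℝ) * (396020000 - 1 / 2000000000) - s ^ 2)
      * Y ^ 2 := mul_nonneg h3 (sq_nonneg _)
  have h5 := sq_nonneg (2 * (404020000 - 1 / 2000000000) * X + s * Y)
  have h6 : 0 ≤ 4 * (404020000 - 1 / 2000000000) * ((404020000 * X ^ 2 + s * X * Y
      + 396020000 * Y ^ 2) - 1 / 2000000000 * (X ^ 2 + Y ^ 2)) := by rw [key]; linarith
  have h7 : (0 : ℝ) < 4 * (404020000 - 1 / 2000000000) := by norm_num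
  have h8 := nonneg_of_mul_nonneg_right h6 h7
  linarith

/-- The growth of the quadratic form. -/
theorem Q_growth (α β : ℝ) (v : V2) (hα : ee ≤ α) (hβ : ee ≤ β) (h1 : 1 / 400000000 ≤ α * β)
    (h2 : α * β ≤ 400000000) :
    ee ^ 2 / 2000000000 * ‖v‖ ^ 2 ≤ Q (AA (α * v.1, β * v.2)) - Q v := by
  have he := ee_pos
  have hα0 : 0 < α := he.trans_le hα
  have hβ0 : 0 < β := he.trans_le hβ
  have hαβ : 0 < α * β := mul_pos hα0 hβ0
  obtain ⟨t, ht⟩ : ∃ t, t = 1 / (α * β) := ⟨_, rfl⟩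
  have ht1 : t * (α * β) = 1 := by rw [ht]; field_simp
  have ht2 : t ≤ 400000000 := by
    rw [ht, div_le_iff₀ hαβ]; linarith
  have ht3 : 1 / 400000000 ≤ t := by
    rw [ht, le_div_iff₀ hαβ]; linarith
  have h3 := qform (800000001 - t) (α * v.1) (β * v.2) (by linarith) (by linarith)
  have h4 : Q (AA (α * v.1, β * v.2)) - Q v = 404020000 * (α * v.1) ^ 2
      + (800000001 - t) * (α * v.1) * (β * v.2) + 396020000 * (β * v.2) ^ 2 := by
    have e1 : t * (α * v.1) * (β * v.2) = v.1 * v.2 := by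
      calc t * (α * v.1) * (β * v.2) = (t * (α * β)) * (v.1 * v.2) := by ring
        _ = v.1 * v.2 := by rw [ht1, one_mul]
    rw [AA_apply, Q, Q]
    simp only
    linarith [e1, show (20201 * (α * v.1) + 20000 * (β * v.2)) * (20000 * (α * v.1)
      + 19801 * (β * v.2)) = 404020000 * (α * v.1) ^ 2 + 800000001 * (α * v.1) * (β * v.2)
      + 396020000 * (β * v.2) ^ 2 by ring,
      show (800000001 - t) * (α * v.1) * (β * v.2) = 800000001 * (α * v.1) * (β * v.2)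
        - t * (α * v.1) * (β * v.2) by ring]
  rw [h4]
  refine le_trans ?_ h3
  have h5 : ‖v‖ ^ 2 ≤ v.1 ^ 2 + v.2 ^ 2 := by
    rw [Prod.norm_def]
    rcases le_total ‖v.1‖ ‖v.2‖ with h | h
    · rw [max_eq_right h, Real.norm_eq_abs, sq_abs]; nlinarith [sq_nonneg v.1]
    · rw [max_eq_left h, Real.norm_eq_abs, sq_abs]; nlinarith [sq_nonneg v.2]
  have h6 : ee ^ 2 * v.1 ^ 2 ≤ (α * v.1) ^ 2 := by
    rw [mul_pow]; exact mul_le_mul_of_nonneg_right (pow_le_pow_left₀ he.le hα 2) (sq_nonneg _)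
  have h7 : ee ^ 2 * v.2 ^ 2 ≤ (β * v.2) ^ 2 := by
    rw [mul_pow]; exact mul_le_mul_of_nonneg_right (pow_le_pow_left₀ he.le hβ 2) (sq_nonneg _)
  have h8 : ee ^ 2 * ‖v‖ ^ 2 ≤ ee ^ 2 * (v.1 ^ 2 + v.2 ^ 2) :=
    mul_le_mul_of_nonneg_left h5 (sq_nonneg _)
  linarith

theorem slope_small {α β : ℝ} (hβ : ee ≤ β) (hα : ee ≤ α) (h : α * β < 1 / 400000000) :
    α < 17 / 10000 := by
  have he := ee_pos
  by_contra hcon
  push Not at hcon
  have h1 : 17 / 10000 * ee ≤ α * β :=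
    mul_le_mul hcon hβ he.le (by linarith)
  have h2 : (1 : ℝ) / 400000000 < 17 / 10000 * ee := by unfold ee; norm_num
  linarith

theorem slope_large {α β : ℝ} (hβ : β ≤ 1 / ee) (hα : 0 < α) (h : 400000000 < α * β) :
    589 < α := by
  have he : (1 : ℝ) / ee = 643216 := by unfold ee; norm_num
  rw [he] at hβ
  by_contra hcon
  push Not at hcon
  have h1 : α * β ≤ α * 643216 := mul_le_mul_of_nonneg_left hβ hα.le
  linarith

theorem sys : QSys f0 gg hh ((cht2 0).ψ 0) ((cht2 qq).ψ 0) CC DDD (ee ^ 2 / 2000000000)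
    (40201 / ee) where
  smooth_g := gg_smooth
  smooth_h := hh_smooth
  hg := hh_gg
  gh := gg_hh
  lift := f0_E2
  ηpos := by have := ee_pos; positivity
  ηle := by
    have := ee_pos
    have := ee_lt
    nlinarith
  Bone := by
    rw [le_div_iff₀ ee_pos]; have := ee_lt; linarith
  bound z v := by
    have he := ee_pos
    rw [gg_fderiv, gD_apply]
    refine (AA_norm _).trans ?_
    have h1 : ‖((al z.1 * v.1, al z.2 * v.2) : V2)‖ ≤ 1 / ee * ‖v‖ := by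
      have a1 := abs_fst_le v
      have a2 := abs_snd_le v
      refine nrm_le ?_ ?_
      · rw [abs_mul, abs_of_pos (al_pos _)]
        exact mul_le_mul (al_le _) a1 (abs_nonneg _) (by positivity)
      · rw [abs_mul, abs_of_pos (al_pos _)]
        exact mul_le_mul (al_le _) a2 (abs_nonneg _) (by positivity)
    calc 40201 * ‖((al z.1 * v.1, al z.2 * v.2) : V2)‖ ≤ 40201 * (1 / ee * ‖v‖) :=
          mul_le_mul_of_nonneg_left h1 (by norm_num)
      _ = 40201 / ee * ‖v‖ := by ring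
  ucont w hw := by
    obtain ⟨δ, hδ, h⟩ := al_unif (w := w / 40201) (by positivity)
    refine ⟨δ, hδ, fun z z' hz => ?_⟩
    rw [gg_fderiv, gg_fderiv]
    refine ContinuousLinearMap.opNorm_le_bound _ hw.le fun v => ?_
    have h1 : (gD z - gD z') v = AA ((al z.1 - al z'.1) * v.1, (al z.2 - al z'.2) * v.2) := by
      rw [sub_apply, gD_apply, gD_apply, ← map_sub]
      congr 1
      ext <;> simp <;> ring
    rw [h1]
    refine (AA_norm _).trans ?_
    have a1 := abs_fst_le v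
    have a2 := abs_snd_le v
    have b1 := h z.1 z'.1 ((abs_fst_le (z - z')).trans hz)
    have b2 := h z.2 z'.2 ((abs_snd_le (z - z')).trans hz)
    have h2 : ‖(((al z.1 - al z'.1) * v.1, (al z.2 - al z'.2) * v.2) : V2)‖ ≤ w / 40201 * ‖v‖ := by
      refine nrm_le ?_ ?_
      · rw [abs_mul]; exact mul_le_mul b1 a1 (abs_nonneg _) (by positivity)
      · rw [abs_mul]; exact mul_le_mul b2 a2 (abs_nonneg _) (by positivity)
    calc _ ≤ 40201 * (w / 40201 * ‖v‖) := mul_le_mul_of_nonneg_left h2 (by norm_num)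
      _ = w * ‖v‖ := by ring
  hp := sink0.attr (by norm_num) (by norm_num)
  hq := sinkd.attr (by unfold rD; norm_num) (by unfold rD; norm_num)
  disj := CD_disj.mono (disk_mono _ (by norm_num)) (disk_mono _ (by unfold rD; norm_num))
  cond z v hC hD := by
    rw [gg_fderiv, gD_apply]
    by_cases h1 : al z.1 * al z.2 < 1 / 400000000
    · exfalso
      have s1 := slope_small (al_ge z.2) (al_ge z.1) h1
      have s2 := slope_small (al_ge z.1) (al_ge z.2) (by rwa [mul_comm])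
      obtain ⟨k1, u1, -, hu1, e1⟩ := small_slope s1
      obtain ⟨k2, u2, -, hu2, e2⟩ := small_slope s2
      apply hC
      have h2 : gg z = 0 + AA (ch u1, ch u2) + ofZ (AZ (k1, k2)) := by
        rw [← AA_ofZ, zero_add, ← map_add, gg, PH, e1, e2]
        congr 1
        ext <;> simp [ofZ] <;> ring
      rw [f0_E2, h2]
      refine mem_disk2 0 ?_ (by norm_num) _
      have h3 : ‖((ch u1, ch u2) : V2)‖ ≤ 1 / 10000000 := nrm_le (ch_small hu1) (ch_small hu2)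
      have := AA_norm (ch u1, ch u2)
      linarith
    by_cases h2 : 400000000 < al z.1 * al z.2
    · exfalso
      have s1 := slope_large (al_le z.2) (al_pos z.1) h2
      have s2 := slope_large (al_le z.1) (al_pos z.2) (by rwa [mul_comm])
      obtain ⟨k1, v1, e1, hv1⟩ := large_slope s1
      obtain ⟨k2, v2, e2, hv2⟩ := large_slope s2
      apply hD
      have h3 : z = qq + ofZ (k1, k2) + (v1, v2) := Prod.ext e1 e2
      have h4 : ‖((v1, v2) : V2)‖ ≤ 1 / 10000000 := nrm_le hv1 hv2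
      have h5 := AI_norm (v1, v2)
      rw [f0_inv_E2, h3, hh_near (by linarith)]
      refine mem_disk2 qq ?_ (by unfold rD; norm_num) _
      have h6 := ee_AI_norm (v1, v2)
      refine h6.trans ?_
      unfold rD
      linarith
    exact Q_growth _ _ v (al_ge _) (al_ge _) (not_lt.1 h1) (not_lt.1 h2)

theorem f0_axiomA : AxiomA f0 := by
  refine ⟨sys.hyperbolic ?_ ?_, sys.dense⟩
  · intro N hN
    obtain ⟨B, hB, hh⟩ := sink0.hyp hN
    exact ⟨B, 1 / 16, hB, by norm_num, by norm_num, fun v n => hh ⟨_, v⟩ n rfl⟩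
  · intro N hN
    obtain ⟨B, hB, hh⟩ := sinkd.hyp_source hN
    exact ⟨B, 1 / 16, hB, by norm_num, by norm_num, fun v n => hh ⟨_, v⟩ n rfl⟩

theorem f0_noCycles : NoCycles f0 := sys.noCycles

end Pool.Agent.H365R4
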