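import Mathlib
import Pool.Agent.H365R3.Good

set_option autoImplicit false

open scoped Manifold ContDiff Topology
open Set Filter Bundle

noncomputable section

namespace Pool.Agent.H365R4

open Pool.Agent.H365R3

variable {E : Type} [NormedAddCommGroup E] [NormedSpace ℝ E] {H : Type} [TopologicalSpace H]
  {I : ModelWithCorners ℝ E H} {M : Type} [TopologicalSpace M] [ChartedSpace H M]

/-- The orbit of `p` under `f`. -/
def orb (f : M ≃ₘ^1⟮I, I⟯ M) (p : M) : Set M := range fun n : ℤ => (f ^ n) p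

/-- The tangent vector `z` is contracted to zero by the forward iterates of `Tf`: for a point
`z.1` of the stable set of a hyperbolic set these are exactly the vectors tangent to the stable
manifold through `z.1`. -/
def StableVec [IsManifold I 1 M] (f : M ≃ₘ^1⟮I, I⟯ M) (z : TangentBundle I M) : Prop :=
  ∃ N : TangentBundle I M → ℝ, IsFibreNorm N ∧
    Tendsto (fun n : ℕ => N ((tangentMap I I f)^[n] z)) atTop (𝓝 0)

/-- `x` is a transverse intersection point of the stable and the unstable manifold of the orbit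
of `p`: it is in the stable and in the unstable set of that orbit, and every tangent vector at `x`
is the sum of a vector contracted to zero by `Tf` and one contracted to zero by `Tf⁻¹`. -/
def TransHomoclinic [IsManifold I 1 M] (f : M ≃ₘ^1⟮I, I⟯ M) (p x : M) : Prop :=
  x ∈ StableSet f (orb f p) ∧ x ∈ UnstableSet f (orb f p) ∧
    ∀ v : TangentSpace I x, ∃ v₁ v₂ : TangentSpace I x, v = v₁ + v₂ ∧
      StableVec f ⟨x, v₁⟩ ∧ StableVec f⁻¹ ⟨x, v₂⟩

/-- The homoclinic class of `p`. -/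
def HomoclinicClass [IsManifold I 1 M] (f : M ≃ₘ^1⟮I, I⟯ M) (p : M) : Set M :=
  closure {x | TransHomoclinic f p x}

/-- `f` has a nontrivial homoclinic class: the homoclinic class of some hyperbolic periodic point
is not reduced to the orbit of that point. (The class always contains the orbit.) -/
def HasNontrivialClass [IsManifold I 1 M] (f : M ≃ₘ^1⟮I, I⟯ M) : Prop :=
  ∃ p ∈ Function.periodicPts f, IsHyperbolicSet f (orb f p) ∧ ¬ HomoclinicClass f p ⊆ orb f p

/-- The orbit of `x` avoids `C` and `D`. -/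
def Off (f : M ≃ₘ^1⟮I, I⟯ M) (C D : Set M) (x : M) : Prop :=
  ∀ n : ℕ, (f^[n] x ∉ C ∧ f^[n] x ∉ D) ∧ (⇑f⁻¹)^[n] x ∉ C ∧ (⇑f⁻¹)^[n] x ∉ D

section

variable {f f' : M ≃ₘ^1⟮I, I⟯ M} {p q : M} {C D : Set M}

theorem inv_eq_of (h : Pair f f' p q C D) {w : M} (h1 : f⁻¹ w ∉ C) (h2 : f⁻¹ w ∉ D) :
    f'⁻¹ w = f⁻¹ w := by
  have h3 := h.eq _ h1 h2
  rw [d1_inv_self] at h3
  conv_lhs => rw [← h3]
  exact d1_self_inv f' _

theorem Off.fwd (h : Pair f f' p q C D) {x : M} (hx : Off f C D x) (n : ℕ) :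
    f'^[n] x = f^[n] x := h.iter_eq fun j _ => (hx j).1

theorem Off.bwd (h : Pair f f' p q C D) {x : M} (hx : Off f C D x) (n : ℕ) :
    (⇑f'⁻¹)^[n] x = (⇑f⁻¹)^[n] x := by
  induction n with
  | zero => rfl
  | succ n ih =>
    rw [Function.iterate_succ_apply', Function.iterate_succ_apply', ih]
    have h1 := (hx (n + 1)).2
    rw [Function.iterate_succ_apply'] at h1
    exact inv_eq_of h h1.1 h1.2

variable [IsManifold I 1 M]

theorem tan_eq (h : Pair f f' p q C D) {z : TangentBundle I M} (h1 : z.1 ∉ C) (h2 : z.1 ∉ D) :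
    tangentMap I I f' z = tangentMap I I f z := by
  have hev : (f' : M → M) =ᶠ[𝓝 z.1] f := by
    filter_upwards [h.hp.closed.isOpen_compl.mem_nhds h1, h.hq.closed.isOpen_compl.mem_nhds h2]
      with y hy1 hy2 using h.eq y hy1 hy2
  have hmf : (mfderiv I I f' z.1 : E →L[ℝ] E) = mfderiv I I f z.1 := hev.mfderiv_eq
  refine TotalSpace.ext (h.eq _ h1 h2) (heq_of_eq ?_)
  exact DFunLike.congr_fun hmf z.2

theorem tan_eq_inv (h : Pair f f' p q C D) {z : TangentBundle I M} (h1 : f⁻¹ z.1 ∉ C)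
    (h2 : f⁻¹ z.1 ∉ D) : tangentMap I I (⇑f'⁻¹) z = tangentMap I I (⇑f⁻¹) z := by
  have hc : Continuous (⇑f⁻¹) := (f⁻¹).contMDiff.continuous
  have hev : (⇑f'⁻¹ : M → M) =ᶠ[𝓝 z.1] ⇑f⁻¹ := by
    filter_upwards [hc.continuousAt (h.hp.closed.isOpen_compl.mem_nhds h1),
      hc.continuousAt (h.hq.closed.isOpen_compl.mem_nhds h2)] with y hy1 hy2
    exact inv_eq_of h hy1 hy2
  have hmf : (mfderiv I I (⇑f'⁻¹) z.1 : E →L[ℝ] E) = mfderiv I I (⇑f⁻¹) z.1 := hev.mfderiv_eq
  refine TotalSpace.ext (inv_eq_of h h1 h2) (heq_of_eq ?_)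
  exact DFunLike.congr_fun hmf z.2

theorem Off.tan (h : Pair f f' p q C D) {x : M} (hx : Off f C D x) (n : ℕ)
    {z : TangentBundle I M} (hz : z.1 = x) :
    (tangentMap I I f')^[n] z = (tangentMap I I f)^[n] z := by
  induction n with
  | zero => rfl
  | succ n ih =>
    rw [Function.iterate_succ_apply', Function.iterate_succ_apply', ih]
    have h1 := (hx n).1
    have h2 := tangentMap_iter_proj f n z
    rw [hz] at h2
    rw [← h2] at h1
    exact tan_eq h h1.1 h1.2

theorem Off.tan_inv (h : Pair f f' p q C D) {x : M} (hx : Off f C D x) (n : ℕ)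
    {z : TangentBundle I M} (hz : z.1 = x) :
    (tangentMap I I (⇑f'⁻¹))^[n] z = (tangentMap I I (⇑f⁻¹))^[n] z := by
  induction n with
  | zero => rfl
  | succ n ih =>
    rw [Function.iterate_succ_apply', Function.iterate_succ_apply', ih]
    have h1 := (hx (n + 1)).2
    rw [Function.iterate_succ_apply'] at h1
    have h2 := tangentMap_iter_proj f⁻¹ n z
    rw [hz] at h2
    rw [← h2] at h1
    exact tan_eq_inv h h1.1 h1.2

theorem orb_fix_sub {f : M ≃ₘ^1⟮I, I⟯ M} {p : M} (h : f p = p) : orb f p = {p} := by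
  ext z
  constructor
  · rintro ⟨m, rfl⟩
    obtain ⟨l, rfl | rfl⟩ := m.eq_nat_or_neg
    · change (f ^ (l : ℤ)) p = p
      rw [zpow_natCast, d1_pow_apply]; exact iter_fix h l
    · change (f ^ (-(l : ℤ))) p = p
      rw [zpow_neg, zpow_natCast, ← inv_pow, d1_pow_apply]; exact iter_fix (inv_fix h) l
  · rintro rfl; exact ⟨0, rfl⟩

theorem orb_per {f : M ≃ₘ^1⟮I, I⟯ M} {p : M} (h : p ∈ Function.periodicPts f) :
    (orb f p).Finite := by
  obtain ⟨n, hn, hp⟩ := h
  refine ((Finset.range n).finite_toSet.image fun k : ℕ => f^[k] p).subset ?_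
  rintro _ ⟨m, rfl⟩
  have hn' : (0 : ℤ) < n := by exact_mod_cast hn
  refine ⟨(m % n).toNat, ?_, ?_⟩
  · have h1 := Int.emod_nonneg m hn'.ne'
    have h2 := Int.emod_lt_of_pos m hn'
    simp only [Finset.coe_range, mem_Iio]
    omega
  · have h1 : (((m % n).toNat : ℕ) : ℤ) = m % n := Int.toNat_of_nonneg (Int.emod_nonneg m hn'.ne')
    have h3 : ∀ k : ℤ, (f ^ ((n : ℤ) * k)) p = p := by
      intro k
      have h4 : (f ^ n) p = p := by rw [d1_pow_apply]; exact hp
      have h5 : orb (f ^ n) p = {p} := orb_fix_sub h4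
      have h6 : ((f ^ n) ^ k) p ∈ orb (f ^ n) p := ⟨k, rfl⟩
      rw [h5] at h6
      rw [zpow_mul, zpow_natCast]; exact h6
    change f^[(m % n).toNat] p = (f ^ m) p
    rw [← d1_pow_apply, ← zpow_natCast, h1]
    conv_rhs => rw [← Int.emod_add_mul_ediv m n, zpow_add, d1_mul_apply, h3]

theorem nontrivial_pair [T2Space M] (h : Pair f f' p q C D) (hf : HasNontrivialClass f) :
    HasNontrivialClass f' := by
  obtain ⟨P, hP, ⟨N, Es, Eu, B, l, hN, hB, hl0, hl1, hcompl, hs, hu, hcs, hcu⟩, hcl⟩ := hf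
  have hfin := orb_per hP
  obtain ⟨y, hy, hyP⟩ := not_subset.1 hcl
  obtain ⟨x, hxP, hx1, hx2, hx3⟩ := mem_closure_iff_nhds.1 hy _
    (hfin.isClosed.isOpen_compl.mem_nhds hyP)
  have hPΩ : P ∈ Omega f := by
    obtain ⟨n, hn, hnP⟩ := hP
    intro U hU
    exact ⟨n, hn, P, ⟨P, mem_of_mem_nhds hU, hnP⟩, mem_of_mem_nhds hU⟩
  have hPp : P ≠ p := by
    rintro rfl
    have h1 : orb f P = {P} := orb_fix_sub h.hp.fix
    have hx2' : x ∈ StableSet f⁻¹ (orb f P) := hx2
    rw [h1] at hx2' hxP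
    exact hxP (Pair.no_unstable h.hp hx2')
  have hPq : P ≠ q := by
    rintro rfl
    have h1 : orb f P = {P} := orb_fix_sub h.fixq
    rw [h1] at hx1 hxP
    have hx1' : x ∈ StableSet (f⁻¹)⁻¹ {P} := by rwa [inv_inv]
    exact hxP (Pair.no_unstable h.hq hx1')
  have horbΩ : orb f P ⊆ Omega f := by
    rintro _ ⟨n, rfl⟩; exact Pair.omega_zpow hPΩ n
  have hzne : ∀ (n : ℤ) (w : M), f w = w → (f ^ n) P = w → P = w := by
    intro n w hw h1
    have h2 : (f ^ (-n)) ((f ^ n) P) = P := by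
      rw [← d1_mul_apply, ← zpow_add, neg_add_cancel, zpow_zero]; rfl
    rw [h1] at h2
    have h3 : (f ^ (-n)) w ∈ orb f w := ⟨-n, rfl⟩
    rw [orb_fix_sub hw, h2] at h3
    exact h3
  have horbC : orb f P ⊆ Cᶜ ∩ Dᶜ := by
    rintro _ ⟨n, rfl⟩
    refine ⟨fun hC => hPp ?_, fun hD => hPq ?_⟩
    · exact hzne n p h.hp.fix (h.hp.omega _ hC (Pair.omega_zpow hPΩ n))
    · exact hzne n q h.fixq (h.D_omega hD (Pair.omega_zpow hPΩ n))
  have hopen : IsOpen (Cᶜ ∩ Dᶜ) := h.hp.closed.isOpen_compl.inter h.hq.closed.isOpen_compl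
  have hoff : ∀ x : M, x ∈ StableSet f (orb f P) → x ∈ StableSet f⁻¹ (orb f P) → Off f C D x := by
    intro x hx1 hx2
    obtain ⟨n1, hn1⟩ := (hx1 _ hopen horbC).exists_forall_of_atTop
    obtain ⟨n2, hn2⟩ := (hx2 _ hopen horbC).exists_forall_of_atTop
    have a1 : ∀ n : ℕ, f^[n] x ∉ C := fun n =>
      h.off_C (le_max_left n n1) (hn1 _ (le_max_right n n1)).1
    have a2 : ∀ n : ℕ, (⇑f⁻¹)^[n] x ∉ D := by
      intro n hD
      apply (hn2 _ (le_max_right n n2)).2
      have := h.hq.iter hD (max n n2 - n)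
      rwa [← Function.iterate_add_apply, Nat.sub_add_cancel (le_max_left n n2)] at this
    have a3 : ∀ n : ℕ, (⇑f⁻¹)^[n] x ∉ C := by
      intro n hC
      have := h.hp.iter hC n
      rw [iter_inv] at this
      exact a1 0 this
    exact fun n => ⟨⟨a1 n, h.off_D (a2 0)⟩, a3 n, a2 n⟩
  have hOx : Off f C D x := hoff x hx1 hx2
  have horb : orb f' P = orb f P := by
    ext z
    constructor
    · rintro ⟨n, rfl⟩; exact ⟨n, (h.zpow_omega hPΩ n).symm⟩
    · rintro ⟨n, rfl⟩; exact ⟨n, h.zpow_omega hPΩ n⟩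
  have htan : ∀ w ∈ orb f P, ∀ (n : ℕ) (v : TangentSpace I w),
      (tangentMap I I f')^[n] (⟨w, v⟩ : TangentBundle I M) = (tangentMap I I f)^[n] ⟨w, v⟩ := by
    intro w hw n v
    have hwi : ∀ n : ℕ, f^[n] w ∈ orb f P := by
      obtain ⟨m, rfl⟩ := hw
      intro n
      refine ⟨(n : ℤ) + m, ?_⟩
      change (f ^ ((n : ℤ) + m)) P = f^[n] ((f ^ m) P)
      rw [zpow_add, d1_mul_apply, zpow_natCast, d1_pow_apply]
    induction n with
    | zero => rfl
    | succ n ih =>
      rw [Function.iterate_succ_apply', Function.iterate_succ_apply', ih]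
      have h2 : ((tangentMap I I f)^[n] (⟨w, v⟩ : TangentBundle I M)).1 = f^[n] w :=
        tangentMap_iter_proj f n _
      have h3 := horbC (hwi n)
      rw [← h2] at h3
      exact tan_eq h h3.1 h3.2
  refine ⟨P, h.per_sub hP, ?_, ?_⟩
  · rw [horb]
    refine ⟨N, Es, Eu, B, l, hN, hB, hl0, hl1, hcompl, ?_, ?_, ?_, ?_⟩
    · rintro ⟨w, v⟩ hw hv
      have h1 := htan w hw 1 v
      rw [Function.iterate_one, Function.iterate_one] at h1
      rw [h1]; exact hs ⟨w, v⟩ hw hv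
    · rintro ⟨w, v⟩ hw hv
      have h1 := htan w hw 1 v
      rw [Function.iterate_one, Function.iterate_one] at h1
      rw [h1]; exact hu ⟨w, v⟩ hw hv
    · intro w hw v hv n
      rw [htan w hw]; exact hcs w hw v hv n
    · intro w hw v hv n
      rw [htan w hw]; exact hcu w hw v hv n
  · intro hsub
    have h1 : TransHomoclinic f' P x := by
      refine ⟨?_, ?_, fun v => ?_⟩
      · rw [horb]; exact Pair.stable_congr (fun n => hOx.fwd h n) hx1
      · rw [horb]
        change x ∈ StableSet f'⁻¹ (orb f P)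
        exact Pair.stable_congr (fun n => hOx.bwd h n) hx2
      · obtain ⟨v₁, v₂, hv, ⟨N1, hN1, ht1⟩, N2, hN2, ht2⟩ := hx3 v
        refine ⟨v₁, v₂, hv, ⟨N1, hN1, ?_⟩, N2, hN2, ?_⟩
        · refine ht1.congr fun n => ?_
          rw [hOx.tan h n rfl]
        · refine ht2.congr fun n => ?_
          rw [hOx.tan_inv h n rfl]
    exact hxP (horb ▸ hsub (subset_closure h1))

end

end Pool.Agent.H365R4
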