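import Mathlib
import Pool.Agent.H365R4.Ex
import Pool.Agent.H365R4.Homo

set_option autoImplicit false

open scoped Manifold ContDiff Topology
open Set Filter Bundle

noncomputable section

namespace Pool.Agent.H365R4

open Pool.Agent.H365R3

/-- The slope of the eigendirections. -/
def sgm : ℝ := (√10001 - 1) / 100

theorem sqrt_bounds : 100 < √10001 ∧ √10001 < 100 + 1 / 200 := by
  constructor
  · rw [Real.lt_sqrt (by norm_num)]; norm_num
  · rw [Real.sqrt_lt' (by norm_num)]; norm_num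

theorem sgm_rel : 100 * sgm ^ 2 + 2 * sgm = 100 := by
  have h := Real.sq_sqrt (show (0 : ℝ) ≤ 10001 by norm_num)
  unfold sgm
  nlinarith

theorem sgm_lo : 99 / 100 < sgm := by
  have := sqrt_bounds.1
  unfold sgm; linarith

theorem sgm_hi : sgm < 1 := by
  have := sqrt_bounds.2
  unfold sgm; linarith

/-- The contracting eigenvalue. -/
def lam : ℝ := 19801 - 20000 * sgm

theorem lam_eq : lam = (99 - 100 * sgm) ^ 2 := by
  have := sgm_rel
  unfold lam
  nlinarith

theorem lam_nonneg : 0 ≤ lam := by rw [lam_eq]; positivity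

theorem lam_small : lam ≤ 1 / 16 := by
  have h1 := sqrt_bounds.1
  have h2 := sqrt_bounds.2
  have h3 : 99 - 100 * sgm = 100 - √10001 := by unfold sgm; ring
  rw [lam_eq, h3]
  nlinarith

/-- The stable eigenvector. -/
def eS : V2 := (sgm, -1)

/-- The unstable eigenvector. -/
def eU : V2 := (1, sgm)

theorem AA_eS : AA eS = lam • eS := by
  have := sgm_rel
  rw [AA_apply]
  ext
  · simp only [eS, lam, Prod.smul_fst, smul_eq_mul]; nlinarith
  · simp only [eS, lam, Prod.smul_snd, smul_eq_mul]; ring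

theorem AA_eU : AA (lam • eU) = eU := by
  have := sgm_rel
  rw [AA_apply]
  ext
  · simp only [eU, lam, Prod.smul_fst, Prod.smul_snd, smul_eq_mul]; nlinarith
  · simp only [eU, lam, Prod.smul_fst, Prod.smul_snd, smul_eq_mul]
    have h3 : sgm ^ 3 = sgm - 1 / 50 * sgm ^ 2 := by
      have : sgm * (100 * sgm ^ 2 + 2 * sgm) = sgm * 100 := by rw [this]
      nlinarith
    nlinarith

/-- The fixed saddle. -/
def P3 : V2 := (1 / 4, 1 / 4)

theorem AA_P3 : AA P3 = P3 + ofZ (10050, 9950) := by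
  rw [AA_apply]; ext <;> simp [P3, ofZ] <;> norm_num

theorem step (w v : V2) (h1 : ph (1 / 4 + w.1) = 1 / 4 + w.1) (h2 : ph (1 / 4 + w.2) = 1 / 4 + w.2)
    (h3 : al (1 / 4 + w.1) = 1) (h4 : al (1 / 4 + w.2) = 1) :
    f0 (E2 (P3 + w)) = E2 (P3 + AA w) ∧
      tangentMap I2 I2 f0 (τ (P3 + w) v) = τ (P3 + AA w) (AA v) := by
  have h5 : gg (P3 + w) = P3 + AA w + ofZ (10050, 9950) := by
    have e1 : PH (P3 + w) = P3 + w := Prod.ext h1 h2
    rw [gg, e1, map_add, AA_P3]; abel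
  constructor
  · rw [f0_E2, h5, E2_ofZ]
  · rw [τ_map f0 gg _ _ (f0.contMDiff.mdifferentiable one_ne_zero _)
      (gg_smooth.differentiable one_ne_zero _) f0_E2, h5, τ_ofZ, gg_fderiv, gD_apply]
    have h3' : al (P3 + w).1 = 1 := h3
    have h4' : al (P3 + w).2 = 1 := h4
    rw [h3', h4', one_mul, one_mul]

theorem step_small (w v : V2) (h : ‖w‖ ≤ 1 / 8) : f0 (E2 (P3 + w)) = E2 (P3 + AA w) ∧
      tangentMap I2 I2 f0 (τ (P3 + w) v) = τ (P3 + AA w) (AA v) := by
  have h1 := abs_le.1 ((abs_fst_le w).trans h)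
  have h2 := abs_le.1 ((abs_snd_le w).trans h)
  refine step w v ?_ ?_ ?_ ?_
  · exact ph_id 0 (by push_cast; linarith) (by push_cast; linarith)
  · exact ph_id 0 (by push_cast; linarith) (by push_cast; linarith)
  · exact al_id 0 (by push_cast; linarith) (by push_cast; linarith)
  · exact al_id 0 (by push_cast; linarith) (by push_cast; linarith)

/-- The coefficient of the homoclinic point. -/
def cS : ℝ := sgm / (1 + sgm ^ 2)

/-- The other coefficient. -/
def cU : ℝ := -(1 / (1 + sgm ^ 2))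

theorem den_pos : 0 < 1 + sgm ^ 2 := by positivity

theorem hom_eq : P3 + cS • eS = P3 + cU • eU + ofZ (1, 0) := by
  have h := den_pos.ne'
  ext
  · simp only [cS, cU, eS, eU, ofZ, Prod.fst_add, Prod.smul_fst, smul_eq_mul]
    push_cast; field_simp; ring
  · simp only [cS, cU, eS, eU, ofZ, Prod.snd_add, Prod.smul_snd, smul_eq_mul]
    push_cast; field_simp; ring

theorem cS_bounds : 49 / 100 ≤ cS ∧ cS ≤ 51 / 100 := by
  have h1 := sgm_lo
  have h2 := sgm_hi
  have h3 := den_pos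
  unfold cS
  rw [le_div_iff₀ h3, div_le_iff₀ h3]
  constructor <;> nlinarith

theorem cU_bounds : -(52 / 100) ≤ cU ∧ cU ≤ -(1 / 2) := by
  have h1 := sgm_lo
  have h2 := sgm_hi
  have h3 := den_pos
  unfold cU
  constructor
  · rw [neg_le_neg_iff, div_le_iff₀ h3]; nlinarith
  · rw [neg_le_neg_iff, le_div_iff₀ h3]; nlinarith

theorem eS_norm (c : ℝ) : ‖c • eS‖ ≤ |c| := by
  rw [norm_smul, Real.norm_eq_abs]
  refine mul_le_of_le_one_right (abs_nonneg _) (nrm_le ?_ ?_)
  · rw [abs_le]; constructor <;> simp only [eS] <;> linarith [sgm_lo, sgm_hi]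
  · simp [eS]

theorem eU_norm (c : ℝ) : ‖c • eU‖ ≤ |c| := by
  rw [norm_smul, Real.norm_eq_abs]
  refine mul_le_of_le_one_right (abs_nonneg _) (nrm_le ?_ ?_)
  · simp [eU]
  · rw [abs_le]; constructor <;> simp only [eU] <;> linarith [sgm_lo, sgm_hi]

theorem lam_pow_le (n : ℕ) : lam ^ (n + 1) ≤ 1 / 16 := by
  have h1 : lam ^ n ≤ 1 := pow_le_one₀ lam_nonneg (lam_small.trans (by norm_num))
  have h2 := lam_small
  have h3 := lam_nonneg
  rw [pow_succ]
  calc lam ^ n * lam ≤ 1 * (1 / 16) := mul_le_mul h1 h2 h3 zero_le_one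
    _ = 1 / 16 := one_mul _

theorem AA_S (c : ℝ) : AA (c • eS) = (lam * c) • eS := by
  rw [map_smul, AA_eS, smul_smul, mul_comm]

theorem AA_U (c : ℝ) : AA ((lam * c) • eU) = c • eU := by
  rw [mul_comm, mul_smul, map_smul, AA_eU]

theorem fwd_iter (a : ℝ) (n : ℕ) : f0^[n] (E2 (P3 + cS • eS)) = E2 (P3 + (lam ^ n * cS) • eS) ∧
    (tangentMap I2 I2 f0)^[n] (τ (P3 + cS • eS) (a • eS))
      = τ (P3 + (lam ^ n * cS) • eS) ((lam ^ n * a) • eS) := by
  induction n with
  | zero => simp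
  | succ n ih =>
    rw [Function.iterate_succ_apply', Function.iterate_succ_apply', ih.1, ih.2]
    have h0 : f0 (E2 (P3 + (lam ^ n * cS) • eS)) = E2 (P3 + AA ((lam ^ n * cS) • eS)) ∧
        tangentMap I2 I2 f0 (τ (P3 + (lam ^ n * cS) • eS) ((lam ^ n * a) • eS))
          = τ (P3 + AA ((lam ^ n * cS) • eS)) (AA ((lam ^ n * a) • eS)) := by
      rcases n with _ | n
      · have h1 := cS_bounds
        have h2 := sgm_lo
        have h3 := sgm_hi
        rw [pow_zero, one_mul, one_mul]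
        have e1 : (cS • eS).1 = cS * sgm := rfl
        have e2 : (cS • eS).2 = cS * (-1) := rfl
        refine step _ _ ?_ ?_ ?_ ?_
        · rw [e1]; exact ph_id' 0 (by push_cast; nlinarith) (by push_cast; nlinarith)
        · rw [e2]; exact ph_id' (-1) (by push_cast; linarith) (by push_cast; linarith)
        · rw [e1]; exact al_id' 0 (by push_cast; nlinarith) (by push_cast; nlinarith)
        · rw [e2]; exact al_id' (-1) (by push_cast; linarith) (by push_cast; linarith)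
      · refine step_small _ _ ((eS_norm _).trans ?_)
        have h1 := cS_bounds
        have h2 := lam_pow_le n
        have h3 : 0 ≤ lam ^ (n + 1) := pow_nonneg lam_nonneg _
        rw [abs_mul, abs_of_nonneg h3, abs_of_nonneg (by linarith)]
        nlinarith
    rw [h0.1, h0.2, AA_S, AA_S]
    constructor
    · congr 3; ring
    · congr 2
      · congr 1; ring
      · ring

theorem bwd_iter (a : ℝ) (n : ℕ) :
    (⇑f0⁻¹)^[n] (E2 (P3 + cU • eU)) = E2 (P3 + (lam ^ n * cU) • eU) ∧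
    (tangentMap I2 I2 (⇑f0⁻¹))^[n] (τ (P3 + cU • eU) (a • eU))
      = τ (P3 + (lam ^ n * cU) • eU) ((lam ^ n * a) • eU) := by
  induction n with
  | zero => simp
  | succ n ih =>
    rw [Function.iterate_succ_apply', Function.iterate_succ_apply', ih.1, ih.2]
    have h0 := step_small ((lam * (lam ^ n * cU)) • eU) ((lam * (lam ^ n * a)) • eU)
      ((eU_norm _).trans (by
        have h1 := cU_bounds
        have h2 := lam_pow_le n
        have h3 : 0 ≤ lam ^ (n + 1) := pow_nonneg lam_nonneg _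
        have h4 : lam * (lam ^ n * cU) = lam ^ (n + 1) * cU := by ring
        rw [h4, abs_mul, abs_of_nonneg h3, abs_of_nonpos (by linarith)]
        nlinarith))
    rw [AA_U, AA_U] at h0
    constructor
    · rw [← h0.1, d1_self_inv]
      congr 3; ring
    · rw [← h0.2, tangentMap_inv]
      congr 2
      · congr 1; ring
      · ring

theorem lam_tendsto (c : ℝ) : Tendsto (fun n : ℕ => lam ^ n * c) atTop (𝓝 0) := by
  have h1 := tendsto_pow_atTop_nhds_zero_of_lt_one lam_nonneg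
    (lt_of_le_of_lt lam_small (by norm_num))
  simpa using h1.mul_const c

/-- The homoclinic point. -/
def hx : T2 := E2 (P3 + cS • eS)

theorem hx_eq : hx = E2 (P3 + cU • eU) := by rw [hx, hom_eq, E2_ofZ]

theorem hx_fwd : Tendsto (fun n : ℕ => f0^[n] hx) atTop (𝓝 (E2 P3)) := by
  have h1 : (fun n : ℕ => f0^[n] hx) = fun n => E2 (P3 + (lam ^ n * cS) • eS) :=
    funext fun n => (fwd_iter 0 n).1
  rw [h1]
  have h2 : Tendsto (fun n : ℕ => P3 + (lam ^ n * cS) • eS) atTop (𝓝 (P3 + (0 : ℝ) • eS)) :=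
    tendsto_const_nhds.add ((lam_tendsto cS).smul_const eS)
  rw [zero_smul, add_zero] at h2
  exact (E2_cont.tendsto _).comp h2

theorem hx_bwd : Tendsto (fun n : ℕ => (⇑f0⁻¹)^[n] hx) atTop (𝓝 (E2 P3)) := by
  have h1 : (fun n : ℕ => (⇑f0⁻¹)^[n] hx) = fun n => E2 (P3 + (lam ^ n * cU) • eU) :=
    funext fun n => by rw [hx_eq]; exact (bwd_iter 0 n).1
  rw [h1]
  have h2 : Tendsto (fun n : ℕ => P3 + (lam ^ n * cU) • eU) atTop (𝓝 (P3 + (0 : ℝ) • eU)) :=
    tendsto_const_nhds.add ((lam_tendsto cU).smul_const eU)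
  rw [zero_smul, add_zero] at h2
  exact (E2_cont.tendsto _).comp h2

theorem P3_fix : f0 (E2 P3) = E2 P3 := by
  have := (step_small 0 0 (by norm_num)).1
  rwa [map_zero, add_zero] at this

theorem vec_fwd (a : ℝ) : Tendsto (fun n : ℕ => NN2 ((tangentMap I2 I2 f0)^[n]
    (τ (P3 + cS • eS) (a • eS)))) atTop (𝓝 0) := by
  have h1 : (fun n : ℕ => NN2 ((tangentMap I2 I2 f0)^[n] (τ (P3 + cS • eS) (a • eS))))
      = fun n => 2 * Real.pi * ‖(lam ^ n * a) • eS‖ :=
    funext fun n => by rw [(fwd_iter a n).2, NN2_τ]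
  rw [h1]
  have h2 := (((lam_tendsto a).smul_const eS).norm).const_mul (2 * Real.pi)
  simpa using h2

theorem vec_bwd (a : ℝ) : Tendsto (fun n : ℕ => NN2 ((tangentMap I2 I2 (⇑f0⁻¹))^[n]
    (τ (P3 + cU • eU) (a • eU)))) atTop (𝓝 0) := by
  have h1 : (fun n : ℕ => NN2 ((tangentMap I2 I2 (⇑f0⁻¹))^[n] (τ (P3 + cU • eU) (a • eU))))
      = fun n => 2 * Real.pi * ‖(lam ^ n * a) • eU‖ :=
    funext fun n => by rw [(bwd_iter a n).2, NN2_τ]
  rw [h1]
  have h2 := (((lam_tendsto a).smul_const eU).norm).const_mul (2 * Real.pi)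
  simpa using h2

theorem hx_trans : TransHomoclinic f0 (E2 P3) hx := by
  have horb : orb f0 (E2 P3) = {E2 P3} := orb_fix_sub P3_fix
  refine ⟨?_, ?_, ?_⟩
  · rw [horb]
    intro U hU hP
    exact hx_fwd (hU.mem_nhds (hP rfl))
  · rw [horb]
    intro U hU hP
    exact hx_bwd (hU.mem_nhds (hP rfl))
  · intro v
    obtain ⟨w, hw⟩ := τ_surj ⟨hx, v⟩ (P3 + cS • eS) rfl
    have hden := den_pos.ne'
    obtain ⟨a, ha⟩ : ∃ a, a = (sgm * w.1 - w.2) / (1 + sgm ^ 2) := ⟨_, rfl⟩
    obtain ⟨b, hb⟩ : ∃ b, b = (w.1 + sgm * w.2) / (1 + sgm ^ 2) := ⟨_, rfl⟩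
    have hwab : w = a • eS + b • eU := by
      rw [ha, hb]
      ext
      · simp only [eS, eU, Prod.fst_add, Prod.smul_fst, smul_eq_mul]; field_simp; ring
      · simp only [eS, eU, Prod.snd_add, Prod.smul_snd, smul_eq_mul]; field_simp; ring
    have hv : v = (τ (P3 + cS • eS) w).2 := TotalSpace.mk_inj.1 hw
    refine ⟨(τ (P3 + cS • eS) (a • eS)).2, (τ (P3 + cS • eS) (b • eU)).2, ?_, ?_, ?_⟩
    · rw [hv, hwab]
      exact map_add (mfderiv 𝓘(ℝ, V2) I2 E2 (P3 + cS • eS)) (a • eS) (b • eU)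
    · exact ⟨NN2, NN2_norm, vec_fwd a⟩
    · refine ⟨NN2, NN2_norm, ?_⟩
      have h1 : (⟨hx, (τ (P3 + cS • eS) (b • eU)).2⟩ : TangentBundle I2 T2)
          = τ (P3 + cU • eU) (b • eU) := by
        have h2 : τ (P3 + cS • eS) (b • eU) = τ (P3 + cU • eU) (b • eU) := by
          rw [hom_eq, τ_ofZ]
        exact h2
      rw [h1]
      exact vec_bwd b

theorem hx_ne : hx ≠ E2 P3 := by
  intro h
  obtain ⟨k, hk⟩ := (E2_eq_iff _ _).1 h
  have h1 := congrArg Prod.fst hk
  have e1 : (P3 + cS • eS).1 = 1 / 4 + cS * sgm := rfl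
  have e2 : (P3 + ofZ k).1 = 1 / 4 + k.1 := rfl
  rw [e1, e2] at h1
  have h2 : (k.1 : ℝ) = cS * sgm := by linarith
  have h3 := cS_bounds
  have h4 := sgm_lo
  have h5 := sgm_hi
  have b1 : (0 : ℝ) < (k.1 : ℝ) := by rw [h2]; nlinarith
  have b2 : (k.1 : ℝ) < 1 := by rw [h2]; nlinarith
  have c1 : 0 < k.1 := by exact_mod_cast b1
  have c2 : k.1 < 1 := by exact_mod_cast b2
  omega

theorem f0_nontrivial : HasNontrivialClass f0 := by
  have horb : orb f0 (E2 P3) = {E2 P3} := orb_fix_sub P3_fix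
  refine ⟨E2 P3, ⟨1, one_pos, P3_fix⟩, ?_, ?_⟩
  · obtain ⟨N, Es, Eu, B, l, hN, hB, hl0, hl1, hcompl, hs, hu, hcs, hcu⟩ := f0_axiomA.1
    have hsub : orb f0 (E2 P3) ⊆ Omega f0 := by
      rw [horb]
      exact singleton_subset_iff.2 (omega_of_fix P3_fix)
    exact ⟨N, Es, Eu, B, l, hN, hB, hl0, hl1, fun x hx => hcompl x (hsub hx),
      fun z hz => hs z (hsub hz), fun z hz => hu z (hsub hz), fun x hx => hcs x (hsub hx),
      fun x hx => hcu x (hsub hx)⟩
  · intro h
    have h1 := h (subset_closure hx_trans)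
    rw [horb] at h1
    exact hx_ne h1

end Pool.Agent.H365R4
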