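import Mathlib
import Pool.Agent.H365R4.Homo2
import Pool.Agent.H365R4.Al
import Pool.Agent.H365R4.Crit

set_option autoImplicit false

open scoped Manifold ContDiff Topology
open Set Filter Bundle

noncomputable section

namespace Pool.Agent.H365R4

open Pool.Agent.H365R3

/-! ### The twist -/

/-- The angle of the twist. -/
def th (z : V2) : ℝ := Real.pi / 2 * pos2 (1 - 6400 * (z.1 ^ 2 + z.2 ^ 2))

/-- Rotation by the angle `t`. -/
def ro (t : ℝ) (z : V2) : V2 :=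
  (Real.cos t * z.1 - Real.sin t * z.2, Real.sin t * z.1 + Real.cos t * z.2)

theorem ro_sq (t : ℝ) (z : V2) : (ro t z).1 ^ 2 + (ro t z).2 ^ 2 = z.1 ^ 2 + z.2 ^ 2 := by
  have h := Real.sin_sq_add_cos_sq t
  simp only [ro]
  linear_combination (z.1 ^ 2 + z.2 ^ 2) * h

theorem th_ro (t : ℝ) (z : V2) : th (ro t z) = th z := by rw [th, ro_sq, th]

theorem ro_ro (t s : ℝ) (z : V2) : ro t (ro s z) = ro (t + s) z := by
  ext
  · simp only [ro, Real.cos_add, Real.sin_add]; ring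
  · simp only [ro, Real.cos_add, Real.sin_add]; ring

theorem ro_zero (z : V2) : ro 0 z = z := by
  ext
  · simp [ro]
  · simp [ro]

/-- The twist. -/
def R (z : V2) : V2 := ro (th z) z

/-- The inverse twist. -/
def R' (z : V2) : V2 := ro (-th z) z

theorem R'_R (z : V2) : R' (R z) = z := by
  rw [R', R, th_ro, ro_ro, neg_add_cancel, ro_zero]

theorem R_R' (z : V2) : R (R' z) = z := by
  rw [R', R, th_ro, ro_ro, add_neg_cancel, ro_zero]

/-- The twist as a bijection. -/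
def RE : V2 ≃ V2 := ⟨R, R', R'_R, R_R'⟩

theorem pos2_smooth : ContDiff ℝ 1 pos2 := by
  rw [contDiff_one_iff_deriv]
  refine ⟨fun x => (pos2_deriv x).differentiableAt, ?_⟩
  have : deriv pos2 = fun x => 2 * max x 0 := funext fun x => (pos2_deriv x).deriv
  rw [this]; fun_prop

theorem th_smooth : ContDiff ℝ 1 th := by
  have h1 : ContDiff ℝ 1 (fun z : V2 => 1 - 6400 * (z.1 ^ 2 + z.2 ^ 2)) := by fun_prop
  exact contDiff_const.mul (pos2_smooth.comp h1)

theorem ro_smooth {s : V2 → ℝ} (hs : ContDiff ℝ 1 s) : ContDiff ℝ 1 (fun z => ro (s z) z) := by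
  have hc : ContDiff ℝ 1 (fun z => Real.cos (s z)) := Real.contDiff_cos.comp hs
  have hsn : ContDiff ℝ 1 (fun z => Real.sin (s z)) := Real.contDiff_sin.comp hs
  exact ((hc.mul contDiff_fst).sub (hsn.mul contDiff_snd)).prodMk
    ((hsn.mul contDiff_fst).add (hc.mul contDiff_snd))

theorem R_smooth : ContDiff ℝ 1 R := ro_smooth th_smooth

theorem R'_smooth : ContDiff ℝ 1 R' := ro_smooth th_smooth.neg

theorem th_off {z : V2} (h : 1 / 80 ≤ ‖z‖) : th z = 0 := by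
  have h1 : (1 : ℝ) / 6400 ≤ z.1 ^ 2 + z.2 ^ 2 := by
    have h2 : (1 / 80 : ℝ) ^ 2 ≤ ‖z‖ ^ 2 := pow_le_pow_left₀ (by norm_num) h 2
    have h3 : ‖z‖ ^ 2 ≤ z.1 ^ 2 + z.2 ^ 2 := by
      rw [Prod.norm_def]
      rcases le_total ‖z.1‖ ‖z.2‖ with h | h
      · rw [max_eq_right h, Real.norm_eq_abs, sq_abs]; nlinarith [sq_nonneg z.1]
      · rw [max_eq_left h, Real.norm_eq_abs, sq_abs]; nlinarith [sq_nonneg z.2]
    norm_num at h2
    linarith
  rw [th, pos2_of_nonpos (by linarith), mul_zero]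

theorem R_off (z : V2) (h : 1 / 80 ≤ ‖z‖) : R z = z := by
  rw [R, th_off h, ro_zero]

theorem RE_off (z : V2) (h : 1 / 80 ≤ ‖z‖) : RE z = z := R_off z h

theorem R_zero : R 0 = 0 := by
  rw [R]
  ext <;> simp [ro]

theorem R_norm {z : V2} {r : ℝ} (hr : 1 / 80 ≤ r) (h : ‖z‖ ≤ r) : ‖R z‖ ≤ r := by
  rcases h.lt_or_eq with h1 | h1
  · exact (norm_le_of_off (K := RE) RE_off hr h1).le
  · rw [R_off z (by rw [h1]; exact hr)]; exact h

/-- The derivative of the angle. -/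
def thD (z : V2) : V2 →L[ℝ] ℝ := (Real.pi / 2 * (2 * max (1 - 6400 * (z.1 ^ 2 + z.2 ^ 2)) 0)) •
  ((-(12800 * z.1)) • ContinuousLinearMap.fst ℝ ℝ ℝ
    + (-(12800 * z.2)) • ContinuousLinearMap.snd ℝ ℝ ℝ)

theorem thD_apply (z v : V2) : thD z v = (Real.pi / 2 * (2 * max (1 - 6400 * (z.1 ^ 2 + z.2 ^ 2)) 0))
    * (-(12800 * z.1) * v.1 + -(12800 * z.2) * v.2) := rfl

theorem th_deriv (z : V2) : HasFDerivAt th (thD z) z := by
  have hX : HasFDerivAt (fun z : V2 => z.1) (ContinuousLinearMap.fst ℝ ℝ ℝ) z := hasFDerivAt_fst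
  have hY : HasFDerivAt (fun z : V2 => z.2) (ContinuousLinearMap.snd ℝ ℝ ℝ) z := hasFDerivAt_snd
  have h1 := (((hX.pow 2).add (hY.pow 2)).const_mul 6400).const_sub 1
  have h2 := ((pos2_deriv (1 - 6400 * (z.1 ^ 2 + z.2 ^ 2))).comp_hasFDerivAt z h1).const_mul
    (Real.pi / 2)
  refine h2.congr_fderiv ?_
  ext <;> simp [thD] <;> ring

/-- The derivative of the twist. -/
def RD (z : V2) : V2 →L[ℝ] V2 :=
  ((Real.cos (th z) • ContinuousLinearMap.fst ℝ ℝ ℝ - Real.sin (th z) • ContinuousLinearMap.snd ℝ ℝ ℝ)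
    - (Real.sin (th z) * z.1 + Real.cos (th z) * z.2) • thD z).prod
  ((Real.sin (th z) • ContinuousLinearMap.fst ℝ ℝ ℝ + Real.cos (th z) • ContinuousLinearMap.snd ℝ ℝ ℝ)
    + (Real.cos (th z) * z.1 - Real.sin (th z) * z.2) • thD z)

theorem RD_apply (z v : V2) : RD z v =
    ((Real.cos (th z) * v.1 - Real.sin (th z) * v.2)
      - (Real.sin (th z) * z.1 + Real.cos (th z) * z.2) * thD z v,
    (Real.sin (th z) * v.1 + Real.cos (th z) * v.2)
      + (Real.cos (th z) * z.1 - Real.sin (th z) * z.2) * thD z v) := rfl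

theorem R_deriv (z : V2) : HasFDerivAt R (RD z) z := by
  have hX : HasFDerivAt (fun z : V2 => z.1) (ContinuousLinearMap.fst ℝ ℝ ℝ) z := hasFDerivAt_fst
  have hY : HasFDerivAt (fun z : V2 => z.2) (ContinuousLinearMap.snd ℝ ℝ ℝ) z := hasFDerivAt_snd
  have hc := (th_deriv z).cos
  have hs := (th_deriv z).sin
  have h1 := (hc.mul hX).sub (hs.mul hY)
  have h2 := (hs.mul hX).add (hc.mul hY)
  refine (h1.prodMk h2).congr_fderiv ?_
  apply ContinuousLinearMap.ext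
  intro v
  rw [RD_apply]
  ext
  · simp; ring
  · simp; ring

theorem RD_norm (z : V2) : ‖RD z‖ ≤ 6 := by
  refine ContinuousLinearMap.opNorm_le_bound _ (by norm_num) fun v => ?_
  have hpi := Real.pi_lt_four
  have hpi0 := Real.pi_pos
  obtain ⟨u, hu⟩ : ∃ u, u = max (1 - 6400 * (z.1 ^ 2 + z.2 ^ 2)) 0 := ⟨_, rfl⟩
  have hu0 : 0 ≤ u := by rw [hu]; exact le_max_right _ _
  obtain ⟨x, hx⟩ : ∃ x, x = |z.1| := ⟨_, rfl⟩
  obtain ⟨y, hy⟩ : ∃ y, y = |z.2| := ⟨_, rfl⟩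
  have hx0 : 0 ≤ x := by rw [hx]; exact abs_nonneg _
  have hy0 : 0 ≤ y := by rw [hy]; exact abs_nonneg _
  have hx2 : z.1 ^ 2 = x ^ 2 := by rw [hx, sq_abs]
  have hy2 : z.2 ^ 2 = y ^ 2 := by rw [hy, sq_abs]
  have hus : u * (6400 * (x ^ 2 + y ^ 2)) ≤ 1 / 4 := by
    rw [hu, hx2, hy2]
    rcases le_total (1 - 6400 * (x ^ 2 + y ^ 2)) 0 with h | h
    · rw [max_eq_right h]; norm_num
    · rw [max_eq_left h]
      nlinarith [sq_nonneg (1 - 2 * (6400 * (x ^ 2 + y ^ 2)))]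
  have hv1 := abs_fst_le v
  have hv2 := abs_snd_le v
  obtain ⟨nv, hnv⟩ : ∃ nv, nv = ‖v‖ := ⟨_, rfl⟩
  rw [← hnv] at hv1 hv2 ⊢
  have hnv0 : 0 ≤ nv := by rw [hnv]; exact norm_nonneg _
  have hth : |thD z v| ≤ Real.pi * u * (12800 * (x + y)) * nv := by
    rw [thD_apply, ← hu, abs_mul, abs_of_nonneg (by positivity)]
    have e1 : |-(12800 * z.1) * v.1 + -(12800 * z.2) * v.2| ≤ 12800 * (x + y) * nv := by
      refine (abs_add_le _ _).trans ?_
      have e2 : |-(12800 * z.1) * v.1| ≤ 12800 * x * nv := by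
        rw [abs_mul, abs_neg, abs_mul, abs_of_pos (show (0 : ℝ) < 12800 by norm_num), ← hx]
        exact mul_le_mul_of_nonneg_left hv1 (by positivity)
      have e3 : |-(12800 * z.2) * v.2| ≤ 12800 * y * nv := by
        rw [abs_mul, abs_neg, abs_mul, abs_of_pos (show (0 : ℝ) < 12800 by norm_num), ← hy]
        exact mul_le_mul_of_nonneg_left hv2 (by positivity)
      linarith
    calc _ ≤ Real.pi / 2 * (2 * u) * (12800 * (x + y) * nv) :=
          mul_le_mul_of_nonneg_left e1 (by positivity)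
      _ = Real.pi * u * (12800 * (x + y)) * nv := by ring
  have hprod : (x + y) * (Real.pi * u * (12800 * (x + y)) * nv) ≤ 4 * nv := by
    have e1 : (x + y) ^ 2 ≤ 2 * (x ^ 2 + y ^ 2) := by nlinarith [sq_nonneg (x - y)]
    have e2 : (x + y) * (Real.pi * u * (12800 * (x + y)) * nv)
        = Real.pi * nv * (12800 * u) * (x + y) ^ 2 := by ring
    have e3 : Real.pi * nv * (12800 * u) * (x + y) ^ 2
        ≤ Real.pi * nv * (12800 * u) * (2 * (x ^ 2 + y ^ 2)) :=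
      mul_le_mul_of_nonneg_left e1 (by positivity)
    have e4 : Real.pi * nv * (12800 * u) * (2 * (x ^ 2 + y ^ 2))
        = Real.pi * nv * (4 * (u * (6400 * (x ^ 2 + y ^ 2)))) := by ring
    have e5 : Real.pi * nv * (4 * (u * (6400 * (x ^ 2 + y ^ 2)))) ≤ Real.pi * nv * 1 :=
      mul_le_mul_of_nonneg_left (by linarith) (by positivity)
    have e6 : Real.pi * nv * 1 ≤ 4 * nv := by nlinarith
    rw [e2]
    linarith
  have hcos := Real.abs_cos_le_one (th z)
  have hsin := Real.abs_sin_le_one (th z)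
  have hz1 : |z.1| ≤ x := hx.ge
  have hz2 : |z.2| ≤ y := hy.ge
  have m1 : |Real.cos (th z) * v.1| ≤ nv := by
    rw [abs_mul]; nlinarith [abs_nonneg v.1, abs_nonneg (Real.cos (th z))]
  have m2 : |Real.sin (th z) * v.2| ≤ nv := by
    rw [abs_mul]; nlinarith [abs_nonneg v.2, abs_nonneg (Real.sin (th z))]
  have m3 : |Real.sin (th z) * v.1| ≤ nv := by
    rw [abs_mul]; nlinarith [abs_nonneg v.1, abs_nonneg (Real.sin (th z))]
  have m4 : |Real.cos (th z) * v.2| ≤ nv := by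
    rw [abs_mul]; nlinarith [abs_nonneg v.2, abs_nonneg (Real.cos (th z))]
  have k1 : |Real.sin (th z) * z.1 + Real.cos (th z) * z.2| ≤ x + y := by
    refine (abs_add_le _ _).trans (add_le_add ?_ ?_)
    · rw [abs_mul, ← hx]; exact mul_le_of_le_one_left hx0 hsin
    · rw [abs_mul, ← hy]; exact mul_le_of_le_one_left hy0 hcos
  have k2 : |Real.cos (th z) * z.1 - Real.sin (th z) * z.2| ≤ x + y := by
    refine (abs_sub _ _).trans (add_le_add ?_ ?_)
    · rw [abs_mul, ← hx]; exact mul_le_of_le_one_left hx0 hcos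
    · rw [abs_mul, ← hy]; exact mul_le_of_le_one_left hy0 hsin
  have l1 : |(Real.sin (th z) * z.1 + Real.cos (th z) * z.2) * thD z v| ≤ 4 * nv := by
    rw [abs_mul]
    exact (mul_le_mul k1 hth (abs_nonneg _) (by positivity)).trans hprod
  have l2 : |(Real.cos (th z) * z.1 - Real.sin (th z) * z.2) * thD z v| ≤ 4 * nv := by
    rw [abs_mul]
    exact (mul_le_mul k2 hth (abs_nonneg _) (by positivity)).trans hprod
  rw [RD_apply]
  have m1' := abs_le.1 m1
  have m2' := abs_le.1 m2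
  have m3' := abs_le.1 m3
  have m4' := abs_le.1 m4
  have l1' := abs_le.1 l1
  have l2' := abs_le.1 l2
  refine nrm_le ?_ ?_
  · rw [abs_le]; constructor <;> simp only <;> linarith
  · rw [abs_le]; constructor <;> simp only <;> linarith

theorem R_lip (z z' : V2) : ‖R z - R z'‖ ≤ 6 * ‖z - z'‖ := by
  refine convex_univ.norm_image_sub_le_of_norm_hasFDerivWithin_le (f' := RD)
    (fun x _ => (R_deriv x).hasFDerivWithinAt) (fun x _ => RD_norm x) (mem_univ z') (mem_univ z)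

theorem R_ok : LiftOK (cht2 0) RE := by
  refine ⟨⟨1 / 80, ?_, RE_off⟩, R_smooth, R'_smooth⟩
  intro z hz
  have : ‖z‖ ≤ 1 / 80 := by simpa using hz
  exact mem_tgt2_of_norm _ (by linarith)

/-- The example. -/
def F1 : T2 ≃ₘ^1⟮I2, I2⟯ T2 := f0 * liftD (cht2 0) RE R_ok

theorem tw_off {x : T2} (h : x ∉ CC) : liftD (cht2 0) RE R_ok x = x := by
  apply liftD_off
  intro hs
  refine RE_off _ ?_
  by_contra hcon
  exact h ⟨hs, (not_le.1 hcon).le⟩

theorem F1_off {x : T2} (h : x ∉ CC) : F1 x = f0 x := by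
  change f0 (liftD (cht2 0) RE R_ok x) = f0 x
  rw [tw_off h]

theorem F1_inv_off {x : T2} (h : f0⁻¹ x ∉ CC) : F1⁻¹ x = f0⁻¹ x := by
  have h1 := F1_off h
  rw [d1_inv_self] at h1
  conv_lhs => rw [← h1]
  exact d1_self_inv F1 _

theorem val1 (z : V2) (hz : ‖z‖ ≤ 1 / 40) : F1 ((cht2 0).ψ z) ∈ (cht2 0).src ∧
    (cht2 0).φ (F1 ((cht2 0).ψ z)) = ee • AA (R z) := by
  have hzt : z ∈ (cht2 0).tgt := mem_tgt2_of_norm _ (by linarith)
  have h1 : F1 ((cht2 0).ψ z) = f0 ((cht2 0).ψ (R z)) := by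
    change f0 (liftD (cht2 0) RE R_ok ((cht2 0).ψ z)) = _
    rw [liftD_src (cht2 0) R_ok ((cht2 0).ψ_mem z hzt), (cht2 0).φψ z hzt]
    rfl
  rw [h1]
  exact val0 (R z) (R_norm (by norm_num) hz)

theorem sink1 : SinkAt (cht2 0) F1 (3 / 8) (1 / 40) := by
  refine ⟨by norm_num, by norm_num, by norm_num, sink0.sub, ?_, fun z hz => (val1 z hz).1, ?_⟩
  · have h1 := val1 0 (by simp)
    have h2 := congrArg (cht2 0).ψ h1.2
    rw [(cht2 0).ψφ _ h1.1, R_zero, map_zero, smul_zero] at h2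
    exact h2
  · intro z z' hz hz'
    rw [(val1 z hz).2, (val1 z' hz').2, ← smul_sub, ← map_sub]
    refine (ee_AA_norm _).trans ?_
    have := R_lip z z'
    linarith

theorem inv_disk {x : T2} (hx : x ∈ disk (cht2 qq) rD) : f0⁻¹ x ∉ CC := by
  intro hC
  have h1 := sinkd.maps_disk le_rfl hx
  exact CD_disj.ne_of_mem (disk_mono _ (by norm_num) hC) (disk_mono _ (by unfold rD; norm_num) h1)
    rfl

theorem sinkd1 : SinkAt (cht2 qq) F1⁻¹ (1 / 16) rD :=
  sinkd.congr fun _ hx => F1_inv_off (inv_disk hx)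

theorem pair01 : Pair f0 F1 ((cht2 0).ψ 0) ((cht2 qq).ψ 0) CC DDD where
  hp := sys.hp
  hp' := sink1.attr (by norm_num) (by norm_num)
  hq := sys.hq
  hq' := sinkd1.attr (by unfold rD; norm_num) (by unfold rD; norm_num)
  disj := sys.disj
  eq x hx _ := F1_off hx

theorem F1_axiomA : AxiomA F1 := by
  refine pair01.axiomA ?_ ?_ f0_axiomA
  · intro N hN
    obtain ⟨B, hB, hh⟩ := sink1.hyp hN
    exact ⟨B, 3 / 8, hB, by norm_num, by norm_num, fun v n => hh ⟨_, v⟩ n rfl⟩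
  · intro N hN
    obtain ⟨B, hB, hh⟩ := sinkd1.hyp_source hN
    exact ⟨B, 1 / 16, hB, by norm_num, by norm_num, fun v n => hh ⟨_, v⟩ n rfl⟩

theorem F1_noCycles : NoCycles F1 := pair01.noCycles f0_noCycles

theorem F1_nontrivial : HasNontrivialClass F1 := nontrivial_pair pair01 f0_nontrivial

/-! ### The derivatives -/

theorem th_zero : th 0 = Real.pi / 2 := by
  rw [th, pos2_of_nonneg (by simp)]
  simp

theorem RD_zero (v : V2) : RD 0 v = (-v.2, v.1) := by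
  rw [RD_apply, th_zero, Real.cos_pi_div_two, Real.sin_pi_div_two]
  ext <;> simp

theorem deriv_p (z : V2) : fderiv ℝ (fun z => (cht2 0).φ (F1 ((cht2 0).ψ z))) 0 z =
    (ee * (20000 * z.1 - 20201 * z.2), ee * (19801 * z.1 - 20000 * z.2)) := by
  have h2 : (fun z => (cht2 0).φ (F1 ((cht2 0).ψ z))) =ᶠ[𝓝 0] fun z => ee • AA (R z) := by
    filter_upwards [Metric.closedBall_mem_nhds (0 : V2) (show (0 : ℝ) < 1 / 40 by norm_num)]
      with z hz
    exact (val1 z (by simpa using hz)).2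
  have h3 : HasFDerivAt (fun z => ee • AA (R z)) (ee • (AA.comp (RD 0))) 0 :=
    (AA.hasFDerivAt.comp (0 : V2) (R_deriv 0)).const_smul ee
  rw [h2.fderiv_eq, h3.fderiv]
  change ee • AA (RD 0 z) = _
  rw [RD_zero, AA_apply]
  ext
  · simp; left; ring
  · simp; left; ring

theorem deriv_q (z : V2) : fderiv ℝ (fun z => (cht2 qq).φ (F1⁻¹ ((cht2 qq).ψ z))) 0 z =
    (ee * (19801 * z.1 - 20000 * z.2), ee * (20201 * z.2 - 20000 * z.1)) := by
  have h2 : (fun z => (cht2 qq).φ (F1⁻¹ ((cht2 qq).ψ z))) =ᶠ[𝓝 0] fun z => ee • AI z := by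
    filter_upwards [Metric.closedBall_mem_nhds (0 : V2) sinkd.hr] with z hz
    have hz' : ‖z‖ ≤ rD := by simpa using hz
    have hzd : (cht2 qq).ψ z ∈ disk (cht2 qq) rD := by
      refine ⟨(cht2 qq).ψ_mem z (sinkd.tgt hz'), ?_⟩
      rw [(cht2 qq).φψ z (sinkd.tgt hz')]; exact hz'
    rw [F1_inv_off (inv_disk hzd)]
    exact (vald z hz').2
  have h3 : HasFDerivAt (fun z => ee • AI z) (ee • AI) 0 := AI.hasFDerivAt.const_smul ee
  rw [h2.fderiv_eq, h3.fderiv]
  rfl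

/-! ### The connecting orbit -/

/-- The starting point of the connecting orbit. -/
def zc : V2 := (46 / 131, 99 / 131)

/-- Its image on the torus. -/
def yc : T2 := E2 zc

theorem sink_tendsto {c : Cht I2 T2 V2} {f : T2 ≃ₘ^1⟮I2, I2⟯ T2} {k r : ℝ} (h : SinkAt c f k r)
    {x : T2} (hx : x ∈ disk c r) : Tendsto (fun n : ℕ => f^[n] x) atTop (𝓝 (c.ψ 0)) := by
  have h1 : Tendsto (fun n : ℕ => c.φ (f^[n] x)) atTop (𝓝 0) := by
    refine squeeze_zero_norm (a := fun n => k ^ n * ‖c.φ x‖) (fun n => (h.iter hx.1 hx.2 n).2.1) ?_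
    have := (tendsto_pow_atTop_nhds_zero_of_lt_one h.hk0.le h.hk1).mul_const ‖c.φ x‖
    simpa using this
  have h2 : ContinuousAt c.ψ 0 := (c.ψ_at h.zero_mem).continuousAt
  have h3 := h2.tendsto.comp h1
  refine h3.congr fun n => ?_
  exact c.ψφ _ (h.iter hx.1 hx.2 n).1

theorem gg_zc : gg zc = (0 : V2) + (-(2 / 131), 2 / 131) + ofZ (22208, 21987) := by
  have h1 : ph (46 / 131) = 46 / 131 := ph_id 0 (by norm_num) (by norm_num)
  have h2 : ph (99 / 131) = 99 / 131 := ph_id' 0 (by norm_num) (by norm_num)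
  have e1 : PH zc = (46 / 131, 99 / 131) := Prod.ext h1 h2
  rw [gg, e1, AA_apply]
  ext <;> simp [ofZ] <;> norm_num

theorem hh_zc : hh zc = qq + ee • (5 / 262, 1 / 262) + ofZ (-8162, 8243) := by
  have e1 : AI zc = qq + ofZ (-8162, 8243) + (5 / 262, 1 / 262) := by
    rw [AI_apply]
    ext <;> simp [zc, qq, ofZ] <;> norm_num
  rw [hh, e1, PI_near (nrm_le (by norm_num [abs_of_pos]) (by norm_num [abs_of_pos]))]
  abel

theorem yc_fwd0 : f0 yc ∈ disk (cht2 0) (1 / 40) := by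
  rw [yc, f0_E2, gg_zc]
  refine mem_disk2 0 (nrm_le ?_ ?_) (by norm_num) _
  · rw [abs_le]; constructor <;> norm_num
  · rw [abs_le]; constructor <;> norm_num

theorem yc_bwd0 : f0⁻¹ yc ∈ disk (cht2 qq) rD := by
  rw [yc, f0_inv_E2, hh_zc]
  refine mem_disk2 qq ?_ (by unfold rD; norm_num) _
  rw [norm_smul, Real.norm_eq_abs, abs_of_pos ee_pos]
  have h1 : ‖((5 / 262, 1 / 262) : V2)‖ ≤ 1 / 40 :=
    nrm_le (by norm_num [abs_of_pos]) (by norm_num [abs_of_pos])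
  calc ee * ‖((5 / 262, 1 / 262) : V2)‖ ≤ ee * (1 / 40) := mul_le_mul_of_nonneg_left h1 ee_pos.le
    _ ≤ rD := by unfold ee rD; norm_num

theorem yc_notC : yc ∉ CC := by
  intro h
  obtain ⟨ζ, hζ, e⟩ := of_mem_disk2 0 h
  obtain ⟨k, hk⟩ := (E2_eq_iff _ _).1 e
  have h3 := congrArg Prod.fst hk
  simp only [Prod.fst_add, Prod.fst_zero, zc, ofZ] at h3
  have a1 := abs_le.1 ((abs_fst_le ζ).trans hζ)
  have b1 : (k.1 : ℝ) < 1 := by linarith
  have b2 : (0 : ℝ) < (k.1 : ℝ) := by linarith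
  have c1 : k.1 < 1 := by exact_mod_cast b1
  have c2 : 0 < k.1 := by exact_mod_cast b2
  omega

theorem fwd1 : Tendsto (fun n : ℕ => F1^[n] yc) atTop (𝓝 ((cht2 0).ψ 0)) := by
  have h1 : F1 yc ∈ disk (cht2 0) (1 / 40) := by rw [F1_off yc_notC]; exact yc_fwd0
  have h2 := sink_tendsto sink1 h1
  rw [← tendsto_add_atTop_iff_nat 1]
  refine h2.congr fun n => ?_
  rw [Function.iterate_succ_apply]

theorem bwd1 : Tendsto (fun n : ℕ => (⇑F1⁻¹)^[n] yc) atTop (𝓝 ((cht2 qq).ψ 0)) := by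
  have h0 : f0⁻¹ yc ∉ CC := by
    intro hC
    exact CD_disj.ne_of_mem (disk_mono _ (by norm_num) hC)
      (disk_mono _ (by unfold rD; norm_num) yc_bwd0) rfl
  have h1 : F1⁻¹ yc ∈ disk (cht2 qq) rD := by rw [F1_inv_off h0]; exact yc_bwd0
  have h2 := sink_tendsto sinkd1 h1
  rw [← tendsto_add_atTop_iff_nat 1]
  refine h2.congr fun n => ?_
  rw [Function.iterate_succ_apply]

end Pool.Agent.H365R4
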